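import Pool.Agent.Lib.MP_e290cc_nt.Mcount
import Pool.Prelude.Def_F_b781773d

set_option autoImplicit false

/-!
From the sifted set to an admissible set.
-/

namespace Pool.Agent.E290

open Finset N6026a1c6

theorem A_le_of_sifted (w z Z N k : ℕ) (a : ℤ) (S : Finset ℤ) (b : ℕ → ℤ)
    (hS : S ⊆ Icc (-(N : ℤ)) N) (hsift : Sifted w z a S)
    (hb : ∀ p ∈ PR z Z, ∀ n ∈ S, ¬ (p : ℤ) ∣ n - b p) (hk : k ≤ S.card) (hkZ : k ≤ Z) :
    A k ≤ 2 * N := by
  classical
  obtain ⟨T, hTS, hTk⟩ := Finset.exists_subset_card_eq hk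
  have hpos : ∀ n ∈ T, 0 ≤ n + N := by
    intro n hn
    have := mem_Icc.1 (hS (hTS hn))
    omega
  set U : Finset ℕ := T.image (fun n : ℤ => (n + N).toNat) with hU
  have hUk : U.card = k := by
    rw [hU, Finset.card_image_of_injOn, hTk]
    intro n hn n' hn' h
    have h1 := hpos n hn
    have h2 := hpos n' hn'
    simp only at h
    omega
  apply Nat.sInf_le
  refine ⟨U, hUk, ?_, ?_⟩
  · intro p hp
    -- a criterion
    have hcrit : ∀ c : ℤ, (∀ n ∈ T, ¬ (p : ℤ) ∣ n - c) →
        ∃ r : ZMod p, ∀ u ∈ U, (u : ZMod p) ≠ r := by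
      intro c hc
      refine ⟨((c + N : ℤ) : ZMod p), fun u hu h => ?_⟩
      rw [hU, mem_image] at hu
      obtain ⟨n, hn, rfl⟩ := hu
      apply hc n hn
      rw [← ZMod.intCast_zmod_eq_zero_iff_dvd]
      have e : (((n + N).toNat : ℕ) : ZMod p) = ((n + N : ℤ) : ZMod p) := by
        have h5 : (((n + N).toNat : ℕ) : ℤ) = n + N := Int.toNat_of_nonneg (hpos n hn)
        rw [← Int.cast_natCast (R := ZMod p), h5]
      rw [e] at h
      push_cast at h ⊢
      have := congrArg (fun y => y - (N : ZMod p) - (c : ZMod p)) h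
      have h6 : (n : ZMod p) + N - N - c = c + N - N - c := this
      have h7 : (n : ZMod p) - c = (n : ZMod p) + N - N - c := by ring
      rw [h7, h6]
      ring
    by_cases h1 : p ≤ w
    · exact hcrit a (fun n hn => (hsift n (hTS hn)).2.2 p hp h1)
    by_cases h2 : p ≤ z
    · exact hcrit 0 (fun n hn => by
        rw [sub_zero]
        exact (hsift n (hTS hn)).2.1 p hp (by omega) h2)
    by_cases h3 : p ≤ Z
    · exact hcrit (b p) (fun n hn => hb p (mem_PR.2 ⟨by omega, h3, hp⟩) n (hTS hn))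
    · -- counting
      have : Fact p.Prime := ⟨hp⟩
      by_contra hcon
      push Not at hcon
      have hsub : (Finset.univ : Finset (ZMod p)) ⊆ U.image (fun u : ℕ => (u : ZMod p)) := by
        intro r _
        obtain ⟨u, hu, hur⟩ := hcon r
        exact mem_image.2 ⟨u, hu, hur⟩
      have h4 := (card_le_card hsub).trans card_image_le
      rw [Finset.card_univ, ZMod.card, hUk] at h4
      omega
  · intro u hu
    rw [hU, mem_image] at hu
    obtain ⟨n, hn, rfl⟩ := hu
    have := mem_Icc.1 (hS (hTS hn))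
    omega

end Pool.Agent.E290
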