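import Pool.Agent.Lib.MP_e290cc_nt.Rough

set_option autoImplicit false

/-!
A good residue class modulo the small primes, by averaging.
-/

namespace Pool.Agent.E290

open Finset

lemma count_coprime (P : ℕ) (hP : 0 < P) (n : ℤ) :
    ((range P).filter (fun a : ℕ => Int.gcd (n - a) P = 1)).card = P.totient := by
  have hnat : -(n.natAbs : ℤ) ≤ n := by
    rw [Int.natCast_natAbs]
    exact neg_abs_le n
  have hP' : (1 : ℤ) ≤ P := by exact_mod_cast hP
  have hB0 : 0 ≤ n + P * (n.natAbs + 1) - (P - 1) := by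
    have h0 : (0 : ℤ) ≤ n.natAbs := by positivity
    nlinarith
  set B : ℕ := (n + P * (n.natAbs + 1) - (P - 1)).toNat with hB
  have hBc : (B : ℤ) = n + P * (n.natAbs + 1) - (P - 1) := Int.toNat_of_nonneg hB0
  rw [← Nat.filter_coprime_Ico_eq_totient P B]
  have key : ∀ a : ℕ, a < P → (Int.gcd (n - a) P = 1 ↔ P.Coprime (B + (P - 1) - a)) := by
    intro a ha
    have e : ((B + (P - 1) - a : ℕ) : ℤ) = (n - a) + P * (n.natAbs + 1) := by
      rw [Nat.cast_sub (by omega), Nat.cast_add, hBc, Nat.cast_sub (by omega)]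
      push_cast
      ring
    rw [Nat.Coprime, ← Int.gcd_natCast_natCast, e, Int.gcd_comm (P : ℤ)]
    rw [show (n - (a : ℤ)) + P * ((n.natAbs : ℤ) + 1) = (n - a) + ((n.natAbs : ℤ) + 1) * P by ring,
      Int.gcd_add_mul_right_left]
  apply Finset.card_nbij' (i := fun a => B + (P - 1) - a) (j := fun b => B + (P - 1) - b)
  · intro a ha
    simp only [coe_filter, mem_range, Set.mem_ofPred_eq] at ha
    simp only [coe_filter, mem_Ico, Set.mem_ofPred_eq]
    exact ⟨⟨by omega, by omega⟩, (key a ha.1).1 ha.2⟩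
  · intro b hb
    simp only [coe_filter, mem_Ico, Set.mem_ofPred_eq] at hb
    simp only [coe_filter, mem_range, Set.mem_ofPred_eq]
    refine ⟨by omega, (key _ (by omega)).2 ?_⟩
    have : B + (P - 1) - (B + (P - 1) - b) = b := by omega
    rw [this]
    exact hb.2
  · intro a ha
    simp only [coe_filter, mem_range, Set.mem_ofPred_eq] at ha
    simp only
    omega
  · intro b hb
    simp only [coe_filter, mem_Ico, Set.mem_ofPred_eq] at hb
    simp only
    omega

/-- averaging over the classes modulo `P` -/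
theorem exists_class (P : ℕ) (hP : 0 < P) (T : Finset ℤ) :
    ∃ a : ℤ, T.card * P.totient ≤ P * (T.filter (fun n => Int.gcd (n - a) P = 1)).card := by
  have h1 : ∑ a ∈ range P, (T.filter (fun n => Int.gcd (n - (a : ℤ)) P = 1)).card =
      T.card * P.totient := by
    simp_rw [Finset.card_filter]
    rw [Finset.sum_comm]
    simp_rw [← Finset.card_filter]
    rw [Finset.sum_congr rfl (fun n _ => count_coprime P hP n), sum_const, smul_eq_mul]
  have h2 : ∑ _a ∈ range P, T.card * P.totient ≤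
      ∑ a ∈ range P, P * (T.filter (fun n => Int.gcd (n - (a : ℤ)) P = 1)).card := by
    rw [sum_const, card_range, smul_eq_mul, ← Finset.mul_sum, h1]
  obtain ⟨a, _, ha⟩ := Finset.exists_le_of_sum_le ⟨0, mem_range.2 hP⟩ h2
  exact ⟨a, ha⟩

/-- product of the primes up to `w` -/
def PP (w : ℕ) : ℕ := ∏ p ∈ (w + 1).primesBelow, p

lemma PP_pos (w : ℕ) : 0 < PP w :=
  Finset.prod_pos fun _ hp => (Nat.prime_of_mem_primesBelow hp).pos

lemma V_eq (w : ℕ) : V w = (PP w).totient / PP w := by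
  have h1 : (PP w).primeFactors = (w + 1).primesBelow :=
    Nat.primeFactors_prod (s := (w + 1).primesBelow) (fun p hp => Nat.prime_of_mem_primesBelow hp)
  have h2 := Nat.totient_eq_mul_prod_factors (PP w)
  have h3 : (((PP w).totient : ℚ) : ℝ) = (((PP w : ℚ) * ∏ p ∈ (PP w).primeFactors,
      (1 - (p : ℚ)⁻¹) : ℚ) : ℝ) := by rw [h2]
  push_cast at h3
  have hP : (PP w : ℝ) ≠ 0 := by exact_mod_cast (PP_pos w).ne'
  rw [h3, mul_div_assoc, mul_comm, div_mul_cancel₀ _ hP, h1]
  unfold V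
  apply Finset.prod_congr rfl
  intro p _
  rw [one_div]

/-- the symmetric set of integers without prime factors in `(w, z]` -/
noncomputable def SS (w z N : ℕ) : Finset ℤ := by
  classical exact (R1 w z N).image (fun n : ℕ => (n : ℤ)) ∪ (R1 w z N).image (fun n : ℕ => -(n : ℤ))

lemma mem_SS {w z N : ℕ} {n : ℤ} : n ∈ SS w z N ↔ n.natAbs ∈ R1 w z N := by
  classical
  unfold SS
  rw [mem_union, mem_image, mem_image]
  constructor
  · rintro (⟨m, hm, rfl⟩ | ⟨m, hm, rfl⟩)
    · simpa using hm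
    · simpa using hm
  · intro h
    rcases Int.natAbs_eq n with h1 | h1
    · exact Or.inl ⟨_, h, h1.symm⟩
    · exact Or.inr ⟨_, h, h1.symm⟩

lemma card_SS (w z N : ℕ) : (SS w z N).card = 2 * (R1 w z N).card := by
  classical
  unfold SS
  rw [Finset.card_union_of_disjoint, Finset.card_image_of_injective, Finset.card_image_of_injective]
  · ring
  · intro a b h
    simpa using h
  · intro a b h
    simpa using h
  · rw [Finset.disjoint_left]
    intro n hn hn'
    rw [mem_image] at hn hn'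
    obtain ⟨a, ha, rfl⟩ := hn
    obtain ⟨b, hb, h⟩ := hn'
    rw [mem_R1] at ha hb
    omega

/-- the sieved set: classes `0` for the primes in `(w, z]`, the class of `a` for the primes `≤ w` -/
def Sifted (w z : ℕ) (a : ℤ) (S : Finset ℤ) : Prop :=
  ∀ n ∈ S, n ≠ 0 ∧ (∀ r : ℕ, r.Prime → w < r → r ≤ z → ¬ (r : ℤ) ∣ n) ∧
    (∀ r : ℕ, r.Prime → r ≤ w → ¬ (r : ℤ) ∣ n - a)

/-- A large sifted set. -/
theorem exists_sifted (w z N : ℕ) : ∃ (a : ℤ) (S : Finset ℤ), S ⊆ Icc (-(N : ℤ)) N ∧
    Sifted w z a S ∧ 2 * (V w * (R1 w z N).card) ≤ (S.card : ℝ) := by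
  obtain ⟨a, ha⟩ := exists_class (PP w) (PP_pos w) (SS w z N)
  refine ⟨a, (SS w z N).filter (fun n => Int.gcd (n - a) (PP w) = 1), ?_, ?_, ?_⟩
  · intro n hn
    rw [mem_filter, mem_SS, mem_R1] at hn
    rw [mem_Icc]
    omega
  · intro n hn
    rw [mem_filter, mem_SS, mem_R1] at hn
    obtain ⟨⟨h1, h2, h3⟩, h4⟩ := hn
    refine ⟨by omega, ?_, ?_⟩
    · intro r hr hwr hrz hd
      exact h3 r hr hwr hrz (Int.natCast_dvd.1 hd)
    · intro r hr hrw hd
      have hd2 : (r : ℤ) ∣ (PP w : ℤ) := by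
        have : r ∣ PP w := Finset.dvd_prod_of_mem _ (Nat.mem_primesBelow.2 ⟨by omega, hr⟩)
        exact_mod_cast this
      have h5 := Int.dvd_coe_gcd hd hd2
      rw [h4] at h5
      have h6 : r ∣ 1 := by exact_mod_cast h5
      exact hr.one_lt.ne' (Nat.dvd_one.1 h6)
  · rw [card_SS] at ha
    have hP : (0 : ℝ) < PP w := by exact_mod_cast PP_pos w
    rw [V_eq]
    have ha' : (2 * (R1 w z N).card : ℝ) * (PP w).totient ≤
        PP w * (((SS w z N).filter (fun n => Int.gcd (n - a) (PP w) = 1)).card : ℝ) := by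
      exact_mod_cast ha
    calc 2 * (((PP w).totient : ℝ) / PP w * (R1 w z N).card)
        = (2 * (R1 w z N).card : ℝ) * (PP w).totient / PP w := by ring
      _ ≤ _ := by
        rw [div_le_iff₀ hP]
        linarith

end Pool.Agent.E290
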