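import Pool.Agent.Lib.MP_e290cc_nt.Kak
import Pool.Agent.Lib.MP_e290cc_nt.Avg
import Pool.Prelude.Def_F_b781773d

set_option autoImplicit false

/-!
An admissible set in `[1, N]`: the class of `0` for the primes in `(w, z]`, the classes `aa K j p`
for the primes `p > z`, and classes on average for the primes up to `w`.
-/

namespace Pool.Agent.E290

open Finset N6026a1c6

theorem A_le_of_classes {N k : ℕ} (S : Finset ℕ) (hS : ∀ n ∈ S, n ≤ N)
    (h : ∀ p : ℕ, p.Prime → ∃ c : ℤ, ∀ n ∈ S, ¬ (p : ℤ) ∣ (n : ℤ) - c) (hk : k ≤ S.card) :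
    A k ≤ N := by
  classical
  obtain ⟨T, hTS, hTk⟩ := Finset.exists_subset_card_eq hk
  apply Nat.sInf_le
  refine ⟨T, hTk, ?_, fun a ha => hS a (hTS ha)⟩
  intro p hp
  obtain ⟨c, hc⟩ := h p hp
  refine ⟨(c : ZMod p), fun n hn hcon => hc n (hTS hn) ?_⟩
  rw [← ZMod.intCast_zmod_eq_zero_iff_dvd]
  push_cast
  rw [hcon, sub_self]

theorem A_le_free {w z N K j M k : ℕ} (hK : 1 ≤ K) (hz : N < (z + 1) * M)
    (hKz : K ^ (j + 1) ≤ z)
    (hk : (k : ℝ) ≤ V w * ((R1 w z N).card - (KK K j M N).card)) : A k ≤ N := by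
  classical
  set T : Finset ℕ := R1 w z N \ KK K j M N with hT
  obtain ⟨a, ha⟩ := exists_class (PP w) (PP_pos w) (T.image (fun n : ℕ => (n : ℤ)))
  have hinj : Function.Injective (fun n : ℕ => (n : ℤ)) := fun x y h => by simpa using h
  rw [Finset.card_image_of_injective _ hinj] at ha
  set S : Finset ℕ := T.filter (fun n : ℕ => Int.gcd ((n : ℤ) - a) (PP w) = 1) with hS
  have hcard : ((T.image (fun n : ℕ => (n : ℤ))).filter
      (fun n => Int.gcd (n - a) (PP w) = 1)).card = S.card := by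
    rw [Finset.filter_image, Finset.card_image_of_injective _ hinj]
  rw [hcard] at ha
  have hPP : (0 : ℝ) < PP w := by exact_mod_cast PP_pos w
  have hVS : V w * T.card ≤ S.card := by
    rw [V_eq]
    have h1 : (T.card : ℝ) * (PP w).totient ≤ PP w * S.card := by exact_mod_cast ha
    rw [div_mul_eq_mul_div, div_le_iff₀ hPP]
    linarith
  have hTc : ((R1 w z N).card : ℝ) - (KK K j M N).card ≤ T.card := by
    have h1 : (R1 w z N).card ≤ T.card + (KK K j M N).card := by
      have := Finset.card_le_card_sdiff_add_card (s := R1 w z N) (t := KK K j M N)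
      omega
    have h2 : ((R1 w z N).card : ℝ) ≤ T.card + (KK K j M N).card := by exact_mod_cast h1
    linarith
  have hkS : k ≤ S.card := by
    have h1 := mul_le_mul_of_nonneg_left hTc (V_pos w).le
    have h2 : (k : ℝ) ≤ S.card := by linarith
    exact_mod_cast h2
  apply A_le_of_classes S _ _ hkS
  · intro n hn
    rw [hS, mem_filter, hT, mem_sdiff, mem_R1] at hn
    exact hn.1.1.2.1
  · intro p hp
    by_cases h1 : p ≤ w
    · refine ⟨a, fun n hn hd => ?_⟩
      rw [hS, mem_filter] at hn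
      have hd2 : (p : ℤ) ∣ (PP w : ℤ) := by
        have : p ∣ PP w := Finset.dvd_prod_of_mem _ (Nat.mem_primesBelow.2 ⟨by omega, hp⟩)
        exact_mod_cast this
      have h5 := Int.dvd_coe_gcd hd hd2
      rw [hn.2] at h5
      have h6 : p ∣ 1 := by exact_mod_cast h5
      exact hp.one_lt.ne' (Nat.dvd_one.1 h6)
    by_cases h2 : p ≤ z
    · refine ⟨0, fun n hn hd => ?_⟩
      rw [hS, mem_filter, hT, mem_sdiff, mem_R1] at hn
      rw [sub_zero] at hd
      exact hn.1.1.2.2 p hp (by omega) h2 (by exact_mod_cast hd)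
    · refine ⟨(aa K j p : ℤ), fun n hn hd => ?_⟩
      rw [hS, mem_filter, hT, mem_sdiff, mem_KK] at hn
      obtain ⟨⟨hR, hKK⟩, _⟩ := hn
      rw [mem_R1] at hR
      apply hKK
      refine ⟨hR.2.1, p, ?_, ?_⟩
      · calc N < (z + 1) * M := hz
          _ ≤ p * M := Nat.mul_le_mul_right _ (by omega)
      · have h3 := aa_le hK j p
        have h4 : aa K j p < p := by omega
        have h5 : n ≡ aa K j p [MOD p] := (Nat.modEq_iff_dvd.2 (by
          have := Int.dvd_neg.2 hd
          rwa [neg_sub] at this))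
        have h6 : n % p = aa K j p % p := h5
        rw [h6, Nat.mod_eq_of_lt h4]

end Pool.Agent.E290
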