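import Pool.Agent.Lib.MP_e290cc_nt.CoreC

set_option autoImplicit false

/-!
Asymptotic facts about the parameters.
-/

namespace Pool.Agent.E290

open Finset Filter

/-- Few smooth numbers. -/
lemma SM_small {r1 M : ℕ} {L lam E1 E2 : ℝ} (hlL : lam = Real.log L) (hL : 16 ≤ L)
    (hlam : 1 ≤ lam) (hE1 : 1 ≤ E1) (hE2 : 2 ≤ E2) (hr1 : (r1 : ℝ) ≤ Real.exp E2)
    (hsmall : 1 + 128 * (1 + Real.log (4 * E2)) + Real.log lam ≤ lam / E2) (hM : L / 4 ≤ M) :
    ((SM r1 M).card : ℝ) ≤ M * (E1 / lam) := by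
  have hL0 : 0 < L := by linarith
  have hlam0 : 0 < lam := by linarith
  have hE20 : 0 < E2 := by linarith
  have hM0 : (0 : ℝ) < M := by linarith
  have hσ1 : 1 / 2 ≤ 1 - 1 / E2 := by
    have : 1 / E2 ≤ 1 / 2 := one_div_le_one_div_of_le (by norm_num) hE2
    linarith
  have hσ2 : 1 - 1 / E2 ≤ 1 := by
    have : 0 < 1 / E2 := by positivity
    linarith
  have h1 := Pool.Agent.MP49b85e.rankin (r1 + 1) (1 - 1 / E2) M hσ1 hσ2 hM0 (SM r1 M)
    (fun n hn => ⟨(mem_SM.1 hn).2.2, by exact_mod_cast (mem_SM.1 hn).2.1⟩)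
  have hG : ((r1 + 1 : ℕ) : ℝ) ≤ Real.exp (2 * E2) := by
    have h2 : Real.exp (2 * E2) = Real.exp E2 * Real.exp E2 := by
      rw [← Real.exp_add]
      congr 1
      ring
    have h3 := Real.add_one_le_exp E2
    push_cast
    nlinarith
  have h2 := Pool.Agent.MP49b85e.sum_primesBelow_le (r1 + 1) (4 * E2) (by linarith) (by
    rw [show 4 * E2 / 2 = 2 * E2 by ring]
    exact hG)
  have h3 : ((r1 + 1 : ℕ) : ℝ) ^ (1 - (1 - 1 / E2)) ≤ 8 := by
    rw [show 1 - (1 - 1 / E2) = 1 / E2 by ring]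
    calc ((r1 + 1 : ℕ) : ℝ) ^ (1 / E2) ≤ (Real.exp (2 * E2)) ^ (1 / E2) :=
          Real.rpow_le_rpow (by positivity) hG (by positivity)
      _ = Real.exp 2 := by
          rw [← Real.exp_mul]
          congr 1
          field_simp
      _ ≤ 8 := by
          have := Real.exp_one_lt_d9
          have h4 : Real.exp 2 = Real.exp 1 * Real.exp 1 := by
            rw [← Real.exp_add]
            norm_num
          rw [h4]
          nlinarith [Real.exp_pos 1]
  have h4 : (M : ℝ) ^ (1 - 1 / E2) ≤ M * Real.exp (1 - lam / E2) := by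
    rw [Real.rpow_sub hM0, Real.rpow_one, div_eq_mul_inv, ← Real.rpow_neg hM0.le]
    apply mul_le_mul_of_nonneg_left _ hM0.le
    rw [Real.rpow_def_of_pos hM0]
    apply Real.exp_le_exp.2
    have h5 : lam - 7 / 5 ≤ Real.log M := by
      have h6 := Real.log_le_log (by positivity) hM
      rw [Real.log_div hL0.ne' (by norm_num), ← hlL] at h6
      have := log_four_le'
      linarith
    have h7 : (lam - 7 / 5) * (1 / E2) ≤ Real.log M * (1 / E2) :=
      mul_le_mul_of_nonneg_right h5 (by positivity)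
    have h8 : 7 / 5 * (1 / E2) ≤ 1 := by
      rw [mul_one_div, div_le_one hE20]
      linarith
    have h9 : (lam - 7 / 5) * (1 / E2) = lam / E2 - 7 / 5 * (1 / E2) := by ring
    have h10 : Real.log M * -(1 / E2) = - (Real.log M * (1 / E2)) := by ring
    linarith
  have h5 : Real.exp (4 * ((r1 + 1 : ℕ) : ℝ) ^ (1 - (1 - 1 / E2)) *
      ∑ p ∈ (r1 + 1).primesBelow, (1 / (p : ℝ))) ≤ Real.exp (128 * (1 + Real.log (4 * E2))) := by
    apply Real.exp_le_exp.2
    have h6 : 0 ≤ ∑ p ∈ (r1 + 1).primesBelow, (1 / (p : ℝ)) :=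
      Finset.sum_nonneg fun _ _ => by positivity
    calc 4 * ((r1 + 1 : ℕ) : ℝ) ^ (1 - (1 - 1 / E2)) * ∑ p ∈ (r1 + 1).primesBelow, (1 / (p : ℝ))
        ≤ 4 * 8 * (4 * (1 + Real.log (4 * E2))) := by
          apply mul_le_mul _ h2 h6 (by norm_num)
          linarith
      _ = 128 * (1 + Real.log (4 * E2)) := by ring
  calc ((SM r1 M).card : ℝ) ≤ (M : ℝ) ^ (1 - 1 / E2) *
        Real.exp (4 * ((r1 + 1 : ℕ) : ℝ) ^ (1 - (1 - 1 / E2)) *
          ∑ p ∈ (r1 + 1).primesBelow, (1 / (p : ℝ))) := h1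
    _ ≤ (M * Real.exp (1 - lam / E2)) * Real.exp (128 * (1 + Real.log (4 * E2))) := by
        apply mul_le_mul h4 h5 (by positivity) (by positivity)
    _ = M * Real.exp (1 - lam / E2 + 128 * (1 + Real.log (4 * E2))) := by
        rw [mul_assoc, ← Real.exp_add]
    _ ≤ M * Real.exp (- Real.log lam) := by
        apply mul_le_mul_of_nonneg_left _ hM0.le
        apply Real.exp_le_exp.2
        linarith
    _ = M * (1 / lam) := by
        rw [Real.exp_neg, Real.exp_log hlam0, one_div]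
    _ ≤ M * (E1 / lam) := by
        apply mul_le_mul_of_nonneg_left _ hM0.le
        exact div_le_div_of_nonneg_right hE1 hlam0.le

/-- `log x` is eventually at most `ε x ^ a` -/
lemma ev_log_le {a b B : ℝ} (ha : 0 < a) :
    ∀ᶠ x : ℝ in atTop, B + b * Real.log x ≤ x ^ a := by
  have h1 : Tendsto (fun x : ℝ => x ^ (-a) * B + b * (Real.log x * x ^ (-a))) atTop (nhds 0) := by
    have h2 : Tendsto (fun x : ℝ => x ^ (-a)) atTop (nhds 0) := tendsto_rpow_neg_atTop ha
    have h3 : Tendsto (fun x : ℝ => Real.log x * x ^ (-a)) atTop (nhds 0) := by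
      have h4 := (isLittleO_log_rpow_atTop ha).tendsto_div_nhds_zero
      refine h4.congr' ?_
      filter_upwards [eventually_gt_atTop 0] with x hx
      rw [Real.rpow_neg hx.le, div_eq_mul_inv]
    have := (h2.mul_const B).add (h3.const_mul b)
    simpa using this
  filter_upwards [h1.eventually (ge_mem_nhds (by norm_num : (0 : ℝ) < 1)),
    eventually_gt_atTop 0] with x hx hx0
  have hpos : 0 < x ^ a := Real.rpow_pos_of_pos hx0 a
  have h5 : x ^ (-a) * B + b * (Real.log x * x ^ (-a)) = (B + b * Real.log x) / x ^ a := by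
    rw [Real.rpow_neg hx0.le]
    ring
  rw [h5, div_le_one hpos] at hx
  exact hx

/-- the parameter inequality for `w` -/
lemma ev_w {c0 c1 : ℝ} (h0 : 0 < c0) (h01 : c0 < c1) :
    ∀ᶠ lam : ℝ in atTop, 64 * (⌊lam ^ c0⌋₊ : ℝ) * (2 * lam) ^ ⌊lam ^ c0⌋₊ ≤
      Real.exp (lam ^ c1) := by
  -- log 64 + c0 log lam + lam^c0 (log 2 + log lam) ≤ lam ^ c1
  have e1 := ev_log_le (a := c1) (b := 2 * c0) (B := 2 * Real.log 64) (by linarith)
  have e2 := ev_log_le (a := c1 - c0) (b := 2) (B := 2 * Real.log 2) (by linarith)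
  filter_upwards [e1, e2, eventually_ge_atTop 1] with lam h1 h2 hlam
  have hlam0 : 0 < lam := by linarith
  have hp0 : 0 < lam ^ c0 := Real.rpow_pos_of_pos hlam0 _
  have hw : (⌊lam ^ c0⌋₊ : ℝ) ≤ lam ^ c0 := Nat.floor_le hp0.le
  have h3 : (2 * lam) ^ ⌊lam ^ c0⌋₊ ≤ Real.exp (lam ^ c0 * (Real.log 2 + Real.log lam)) := by
    rw [← Real.log_mul (by norm_num) hlam0.ne', mul_comm (lam ^ c0), Real.exp_mul,
      Real.exp_log (by positivity), ← Real.rpow_natCast]
    exact Real.rpow_le_rpow_of_exponent_le (by linarith) hw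
  have h4 : 64 * (⌊lam ^ c0⌋₊ : ℝ) ≤ Real.exp (Real.log 64 + c0 * Real.log lam) := by
    rw [Real.exp_add, Real.exp_log (by norm_num), mul_comm c0, Real.exp_mul, Real.exp_log hlam0]
    linarith
  calc 64 * (⌊lam ^ c0⌋₊ : ℝ) * (2 * lam) ^ ⌊lam ^ c0⌋₊
      ≤ Real.exp (Real.log 64 + c0 * Real.log lam) *
        Real.exp (lam ^ c0 * (Real.log 2 + Real.log lam)) :=
        mul_le_mul h4 h3 (by positivity) (by positivity)
    _ = Real.exp (Real.log 64 + c0 * Real.log lam + lam ^ c0 * (Real.log 2 + Real.log lam)) := by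
        rw [← Real.exp_add]
    _ ≤ Real.exp (lam ^ c1) := by
        apply Real.exp_le_exp.2
        have h5 : lam ^ c1 = lam ^ c0 * lam ^ (c1 - c0) := by
          rw [← Real.rpow_add hlam0]
          congr 1
          ring
        have h6 : lam ^ c0 * (2 * Real.log 2 + 2 * Real.log lam) ≤ lam ^ c1 := by
          rw [h5]
          exact mul_le_mul_of_nonneg_left h2 hp0.le
        nlinarith

/-- all the eventual facts about `lam` -/
lemma ev_all {c c0 c1 : ℝ} (hc : 0 < c) (hcc : c < c0) (h01 : c0 < c1) (h1 : c1 < 1 / 2)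
    (C Cm K J0 : ℝ) :
    ∀ᶠ lam : ℝ in atTop, 6 ≤ lam ∧ 2 ≤ lam ^ c1 ∧ lam ^ c1 ≤ lam ∧ 2 ≤ (lam ^ c1) ^ 2 ∧
      1 + 128 * (1 + Real.log (4 * (lam ^ c1) ^ 2)) + Real.log lam ≤ lam / (lam ^ c1) ^ 2 ∧
      Real.exp ((lam ^ c1) ^ 2) ≤ Real.exp lam / 4 - 1 ∧ 1 ≤ ⌊lam ^ c0⌋₊ ∧
      (⌊lam ^ c0⌋₊ : ℝ) ≤ (lam ^ c1) ^ 2 ∧
      64 * (⌊lam ^ c0⌋₊ : ℝ) * (2 * lam) ^ ⌊lam ^ c0⌋₊ ≤ Real.exp (lam ^ c1) ∧
      0 ≤ Real.log ⌊lam ^ c0⌋₊ - Cm ∧ Real.log ⌊lam ^ c0⌋₊ - Cm ≤ Real.exp lam ∧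
      4 * C ≤ Real.exp lam ∧ J0 ≤ Real.exp (Real.exp lam / 2) ∧
      2 * (Real.exp lam) ^ 2 * Real.exp (Real.exp lam / 2) ≤ Real.exp (13 / 20 * Real.exp lam) ∧
      c * Real.log lam ≤ Real.log ⌊lam ^ c0⌋₊ - Cm - 5 - K / 2 ∧ 16 ≤ Real.exp lam ∧
      c * Real.log lam ≤ Real.exp lam ∧ 0 ≤ Real.log lam := by
  have hc0 : 0 < c0 := by linarith
  have hc1 : 0 < c1 := by linarith
  have t1 : Tendsto (fun x : ℝ => x ^ c1) atTop atTop := tendsto_rpow_atTop hc1
  have t0 : Tendsto (fun x : ℝ => x ^ c0) atTop atTop := tendsto_rpow_atTop hc0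
  have te : Tendsto Real.exp atTop atTop := Real.tendsto_exp_atTop
  -- log of the floor
  have hfl : ∀ᶠ lam : ℝ in atTop, c0 * Real.log lam - Real.log 2 ≤ Real.log ⌊lam ^ c0⌋₊ := by
    filter_upwards [t0.eventually_ge_atTop 2, eventually_gt_atTop 0] with lam h2 hlam0
    have h3 : lam ^ c0 / 2 ≤ ⌊lam ^ c0⌋₊ := by
      have := Nat.lt_floor_add_one (lam ^ c0)
      linarith
    have h4 := Real.log_le_log (by positivity) h3
    rw [Real.log_div (by positivity) (by norm_num), Real.log_rpow hlam0] at h4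
    exact h4
  have hflup : ∀ᶠ lam : ℝ in atTop, Real.log ⌊lam ^ c0⌋₊ ≤ lam := by
    filter_upwards [t0.eventually_ge_atTop 1, eventually_ge_atTop 1] with lam h2 hlam1
    have h3 : (⌊lam ^ c0⌋₊ : ℝ) ≤ lam := by
      refine (Nat.floor_le (by positivity)).trans ?_
      calc lam ^ c0 ≤ lam ^ (1 : ℝ) := Real.rpow_le_rpow_of_exponent_le hlam1 (by linarith)
        _ = lam := Real.rpow_one _
    have h4 : (0 : ℝ) < ⌊lam ^ c0⌋₊ := by
      have : 0 < ⌊lam ^ c0⌋₊ := Nat.floor_pos.2 h2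
      exact_mod_cast this
    have h5 := Real.log_le_sub_one_of_pos h4
    linarith
  have tlog : Tendsto Real.log atTop atTop := Real.tendsto_log_atTop
  have g1 : ∀ᶠ lam : ℝ in atTop, Cm + 5 + |K| + Real.log 2 ≤ (c0 - c) * Real.log lam := by
    have := tlog.const_mul_atTop (show 0 < c0 - c by linarith)
    exact this.eventually_ge_atTop _
  have g2 : ∀ᶠ lam : ℝ in atTop,
      (1 + 128 * (1 + Real.log 4)) + (128 * (2 * c1) + 1) * Real.log lam ≤ lam ^ (1 - 2 * c1) :=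
    ev_log_le (by linarith)
  have g3 : ∀ᶠ lam : ℝ in atTop, (lam ^ c1) ^ 2 ≤ lam / 2 := by
    have h3 : ∀ᶠ lam : ℝ in atTop, 2 ≤ lam ^ (1 - 2 * c1) :=
      (tendsto_rpow_atTop (by linarith)).eventually_ge_atTop 2
    filter_upwards [h3, eventually_gt_atTop 0] with lam h3 hlam0
    have h4 : (lam ^ c1) ^ 2 * lam ^ (1 - 2 * c1) = lam := by
      rw [← Real.rpow_natCast (lam ^ c1) 2, ← Real.rpow_mul hlam0.le, ← Real.rpow_add hlam0]
      have : c1 * ((2 : ℕ) : ℝ) + (1 - 2 * c1) = 1 := by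
        push_cast
        ring
      rw [this, Real.rpow_one]
    have h5 : 0 ≤ (lam ^ c1) ^ 2 := by positivity
    nlinarith
  have g4 : ∀ᶠ lam : ℝ in atTop, 8 ≤ Real.exp (lam / 2) := by
    have : Tendsto (fun x : ℝ => Real.exp (x / 2)) atTop atTop :=
      te.comp (tendsto_id.atTop_div_const (by norm_num))
    exact this.eventually_ge_atTop 8
  have g5 : ∀ᶠ L : ℝ in atTop, 2 * L ^ 2 * Real.exp (L / 2) ≤ Real.exp (13 / 20 * L) := by
    have h3 : Tendsto (fun x : ℝ => Real.exp (3 / 20 * x) / x ^ 2) atTop atTop := by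
      have h4 := tendsto_exp_mul_div_rpow_atTop (2 : ℝ) (3 / 20 : ℝ) (by norm_num)
      refine h4.congr' ?_
      filter_upwards [eventually_gt_atTop 0] with x hx
      rw [← Real.rpow_natCast x 2]
      norm_num
    filter_upwards [h3.eventually_ge_atTop 2, eventually_gt_atTop 0] with L h5 hL
    rw [le_div_iff₀ (by positivity)] at h5
    have h6 : Real.exp (13 / 20 * L) = Real.exp (3 / 20 * L) * Real.exp (L / 2) := by
      rw [← Real.exp_add]
      congr 1
      ring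
    rw [h6]
    exact mul_le_mul_of_nonneg_right h5 (by positivity)
  have g6 : ∀ᶠ L : ℝ in atTop, J0 ≤ Real.exp (L / 2) := by
    have : Tendsto (fun x : ℝ => Real.exp (x / 2)) atTop atTop :=
      te.comp (tendsto_id.atTop_div_const (by norm_num))
    exact this.eventually_ge_atTop J0
  filter_upwards [eventually_ge_atTop 6, t1.eventually_ge_atTop 2, t0.eventually_ge_atTop 2, hfl,
    hflup, g1, g2, g3, g4, te.eventually g5, te.eventually g6, ev_w hc0 h01,
    te.eventually_ge_atTop (4 * C), te.eventually_ge_atTop 16,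
    eventually_ge_atTop (|Cm|)] with lam a1 a2 a3 a4 a5 a6 a7 a8 a9 a10 a11 a12 a13 a14 a15
  have hlam0 : 0 < lam := by linarith
  have hlog0 : 0 ≤ Real.log lam := Real.log_nonneg (by linarith)
  have hKabs : K / 2 ≤ |K| := by
    have h1 := le_abs_self K
    have h2 := abs_nonneg K
    linarith
  have hK0 := abs_nonneg K
  have hlog2 := Real.log_pos (by norm_num : (1 : ℝ) < 2)
  have hlexp : Real.log lam ≤ lam := by
    have := Real.log_le_sub_one_of_pos hlam0
    linarith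
  have hcl : c * Real.log lam ≤ lam := by
    have : c * Real.log lam ≤ 1 * Real.log lam := mul_le_mul_of_nonneg_right (by linarith) hlog0
    linarith
  have hex := Real.add_one_le_exp lam
  have hcl0 : 0 ≤ c * Real.log lam := by positivity
  refine ⟨a1, a2, ?_, by nlinarith, ?_, ?_, ?_, ?_, a12, ?_, ?_, a13, a11, a10, ?_, a14, ?_, hlog0⟩
  · calc lam ^ c1 ≤ lam ^ (1 : ℝ) := Real.rpow_le_rpow_of_exponent_le (by linarith) (by linarith)
      _ = lam := Real.rpow_one _
  · have hsq : (lam ^ c1) ^ 2 = lam ^ (2 * c1) := by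
      rw [← Real.rpow_natCast (lam ^ c1) 2, ← Real.rpow_mul hlam0.le]
      congr 1
      push_cast
      ring
    rw [hsq, Real.log_mul (by norm_num) (by positivity), Real.log_rpow hlam0]
    have e : lam / lam ^ (2 * c1) = lam ^ (1 - 2 * c1) := by
      rw [Real.rpow_sub hlam0, Real.rpow_one]
    rw [e]
    linarith
  · have h1 : Real.exp ((lam ^ c1) ^ 2) ≤ Real.exp (lam / 2) := Real.exp_le_exp.2 a8
    have h2 : Real.exp lam = Real.exp (lam / 2) * Real.exp (lam / 2) := by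
      rw [← Real.exp_add]
      congr 1
      ring
    rw [h2]
    nlinarith
  · exact Nat.floor_pos.2 (by linarith)
  · refine (Nat.floor_le (by positivity)).trans ?_
    calc lam ^ c0 ≤ lam ^ c1 := Real.rpow_le_rpow_of_exponent_le (by linarith) h01.le
      _ ≤ (lam ^ c1) ^ 2 := by nlinarith
  · linarith
  · have := neg_abs_le Cm
    have h2 := Real.quadratic_le_exp_of_nonneg hlam0.le
    nlinarith
  · linarith
  · linarith

end Pool.Agent.E290
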