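import Pool.Agent.Lib.MP_e290cc_nt.Kak

set_option autoImplicit false

/-!
The covering classes contain at most `2 N / (log N) ^ 3` integers.
-/

namespace Pool.Agent.E290

open Finset

lemma log_three_quarters : Real.log (3 / 4) ≤ -(2 / 7) := by
  -- exp (-(2/7)) ≥ 3/4
  have h4 : (3 / 4 : ℝ) ≤ Real.exp (-(2 / 7)) := by
    have h5 : Real.exp (2 / 7) ≤ 4 / 3 := by
      have h6 : Real.exp (2 / 7) ^ 7 ≤ (4 / 3) ^ 7 := by
        rw [← Real.exp_nat_mul]
        have h7 : ((7 : ℕ) : ℝ) * (2 / 7) = 2 := by norm_num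
        rw [h7]
        have h8 := Real.exp_one_lt_d9
        have h9 : Real.exp 2 = Real.exp 1 * Real.exp 1 := by
          rw [← Real.exp_add]
          norm_num
        rw [h9]
        have h10 := Real.exp_pos 1
        nlinarith
      exact le_of_pow_le_pow_left₀ (by norm_num) (by norm_num) h6
    rw [Real.exp_neg, show (3 / 4 : ℝ) = (4 / 3)⁻¹ by norm_num]
    exact inv_anti₀ (Real.exp_pos _) h5
  have h11 := Real.log_le_log (by norm_num) h4
  rwa [Real.log_exp] at h11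

theorem KK_small {j K M N : ℕ} {l1 l2 : ℝ} (hl1e : l1 = Real.exp l2) (hl2 : 1 ≤ l2)
    (hK : 8 ≤ K) (hM1 : 1 ≤ M) (hM4 : 4 * M ≤ K) (hKjM : K ^ j * M ≤ N) (hj1 : 14 * l2 ≤ j)
    (hLml1 : Real.log M ≤ l1) :
    ((KK K j M N).card : ℝ) ≤ 2 * N / l1 ^ 3 := by
  have l10 : 0 < l1 := by rw [hl1e]; exact Real.exp_pos _
  have hl12 : 2 ≤ l1 := by
    have := Real.add_one_le_exp l2
    linarith
  have hN0 : (0 : ℝ) ≤ N := Nat.cast_nonneg N
  have hKK := card_KK hK hM1 hM4 hKjM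
  have h1 : ((3 : ℝ) / 4) ^ j ≤ 1 / l1 ^ 4 := by
    have h2 : ((3 : ℝ) / 4) ^ j = Real.exp (j * Real.log (3 / 4)) := by
      rw [Real.exp_nat_mul, Real.exp_log (by norm_num)]
    have h4 : (j : ℝ) * Real.log (3 / 4) ≤ -(4 * l2) := by
      have h5 : (j : ℝ) * Real.log (3 / 4) ≤ j * (-(2 / 7)) :=
        mul_le_mul_of_nonneg_left log_three_quarters (by positivity)
      linarith
    have h6 : Real.exp (-(4 * l2)) = 1 / l1 ^ 4 := by
      rw [hl1e, ← Real.exp_nat_mul, Real.exp_neg, one_div]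
      norm_num
    rw [h2, ← h6]
    exact Real.exp_le_exp.2 h4
  have h2 : (N : ℝ) * (2 + Real.log M) ≤ N * (2 * l1) :=
    mul_le_mul_of_nonneg_left (by linarith) hN0
  refine hKK.trans ?_
  have hlm0 : 0 ≤ (N : ℝ) * (2 + Real.log M) := by
    have : 0 ≤ Real.log M := Real.log_nonneg (by exact_mod_cast hM1)
    positivity
  calc ((3 : ℝ) / 4) ^ j * (N * (2 + Real.log M)) ≤ 1 / l1 ^ 4 * (N * (2 * l1)) :=
        mul_le_mul h1 h2 hlm0 (by positivity)
    _ = 2 * N / l1 ^ 3 := by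
        field_simp

end Pool.Agent.E290
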