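import Mathlib

set_option autoImplicit false

/-!
The choice of the parameters.
-/

namespace Pool.Agent.E290

open Finset

/-- a floor is at least half -/
lemma half_le_floor {x : ℝ} (hx : 1 ≤ x) : x / 2 ≤ (⌊x⌋₊ : ℝ) := by
  have h1 := Nat.lt_floor_add_one x
  have h2 : 1 ≤ ⌊x⌋₊ := Nat.le_floor (by exact_mod_cast hx)
  have h3 : (1 : ℝ) ≤ ⌊x⌋₊ := by exact_mod_cast h2
  linarith

lemma log_two_le : Real.log 2 ≤ 1 := by
  have := Real.log_two_lt_d9
  linarith

theorem params {N : ℕ} {l1 l2 l3 l4 : ℝ} (e1 : l1 = Real.log N) (e2 : l2 = Real.log l1)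
    (e3 : l3 = Real.log l2) (b1 : 2 ≤ l4) (b3 : 100 ≤ l2)
    (b4 : l2 ^ 6 ≤ l1) (b6 : l4 ≤ l3) (b7 : l3 ≤ l2) :
    ∃ j K M z X w : ℕ, 8 ≤ K ∧ 1 ≤ M ∧ 4 * M ≤ K ∧ K ^ j * M ≤ N ∧ N < (z + 1) * M ∧
      K ^ (j + 1) ≤ z ∧ N ≤ z ^ 2 ∧ X * z ≤ N ∧ 2 ≤ z ∧ w ≤ z ∧ 1 ≤ w ∧ w ≤ X ∧
      14 * l2 ≤ j ∧ Real.log M ≤ l1 ∧ l4 ≤ Real.log w ∧ (X : ℝ) ≤ M / l1 ^ 2 ∧
      (z : ℝ) ≤ N / M ∧ l1 * l4 / (192 * l2 * l3) - 1 ≤ Real.log w ∧
      5 * l3 ≤ (l4 / 2) * Real.log ((X / w : ℕ) : ℝ) / Real.log w := by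
  -- signs
  have l20 : 0 < l2 := by linarith
  have l30 : 0 < l3 := by linarith
  have l40 : 0 < l4 := by linarith
  have hl1big : 10 ^ 8 * l2 ^ 2 ≤ l1 := by
    have h1 : (100 : ℝ) ^ 4 ≤ l2 ^ 4 := pow_le_pow_left₀ (by norm_num) b3 4
    have h2 : l2 ^ 6 = l2 ^ 4 * l2 ^ 2 := by ring
    have h3 : (100 : ℝ) ^ 4 * l2 ^ 2 ≤ l2 ^ 4 * l2 ^ 2 :=
      mul_le_mul_of_nonneg_right h1 (by positivity)
    have h4 : (100 : ℝ) ^ 4 = 10 ^ 8 := by norm_num
    rw [h4] at h3
    linarith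
  have l22 : 100 * l2 ≤ l2 ^ 2 := by nlinarith
  have l10 : 0 < l1 := by nlinarith
  have hN0 : (0 : ℝ) < N := by
    by_contra hcon
    have h1 : (N : ℝ) = 0 := le_antisymm (by linarith) (Nat.cast_nonneg N)
    rw [h1, Real.log_zero] at e1
    linarith
  have hNe : (N : ℝ) = Real.exp l1 := by rw [e1, Real.exp_log hN0]
  have hl1e : l1 = Real.exp l2 := by rw [e2, Real.exp_log l10]
  -- the number of digits
  set j : ℕ := ⌈14 * l2⌉₊ with hj
  have hj1 : 14 * l2 ≤ j := Nat.le_ceil _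
  have hj2 : (j : ℝ) < 14 * l2 + 1 := Nat.ceil_lt_add_one (by positivity)
  have hj15 : (j : ℝ) + 2 ≤ 15 * l2 := by linarith
  have hj0 : (0 : ℝ) < (j : ℝ) + 2 := by positivity
  set y : ℝ := l1 / ((j : ℝ) + 2) with hy
  have hy1 : l1 / (15 * l2) ≤ y :=
    div_le_div_of_nonneg_left l10.le hj0 hj15
  have hy2 : y ≤ l1 / 14 := by
    apply div_le_div_of_nonneg_left l10.le (by norm_num)
    linarith
  have hy3 : 10 ^ 6 * l2 ≤ l1 / (15 * l2) := by
    rw [le_div_iff₀ (by positivity)]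
    nlinarith
  have hybig : 10 ^ 6 * l2 ≤ y := hy3.trans hy1
  set K : ℕ := ⌊Real.exp y⌋₊ with hK
  have hexpy : 1 ≤ Real.exp y := Real.one_le_exp (by nlinarith)
  have hK1 : (K : ℝ) ≤ Real.exp y := Nat.floor_le (Real.exp_pos y).le
  have hK2 : Real.exp y / 2 ≤ K := half_le_floor hexpy
  have hexpy2 : y + 1 ≤ Real.exp y := Real.add_one_le_exp y
  have hK8' : (100 : ℝ) ≤ K := by nlinarith
  have hK8 : 100 ≤ K := by exact_mod_cast hK8'
  -- K ^ (j + 2) ≤ N
  have hKN : K ^ (j + 2) ≤ N := by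
    have h1 : (K : ℝ) ^ (j + 2) ≤ N := by
      calc (K : ℝ) ^ (j + 2) ≤ (Real.exp y) ^ (j + 2) := pow_le_pow_left₀ (by positivity) hK1 _
        _ = Real.exp (((j + 2 : ℕ) : ℝ) * y) := by rw [Real.exp_nat_mul]
        _ = N := by
            rw [hNe, hy]
            congr 1
            push_cast
            field_simp
    exact_mod_cast h1
  set M : ℕ := K / 4 with hM
  have hM4 : 4 * M ≤ K := by omega
  have hM1 : 1 ≤ M := by omega
  have hM8 : K ≤ 8 * M := by omega
  have hM0 : (0 : ℝ) < M := by exact_mod_cast hM1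
  have hKpos : 0 < K := by omega
  have hKj : 1 ≤ K ^ j := Nat.one_le_pow _ _ hKpos
  have hKjM : K ^ j * M ≤ N := by
    calc K ^ j * M ≤ K ^ j * K := Nat.mul_le_mul_left _ (by omega)
      _ = K ^ (j + 1) := by ring
      _ ≤ K ^ (j + 2) := Nat.pow_le_pow_right hKpos (by omega)
      _ ≤ N := hKN
  set z : ℕ := N / M with hz
  have hz1 : N < (z + 1) * M := by
    rw [hz, mul_comm]
    exact Nat.lt_mul_div_succ N hM1
  have hKz : K ^ (j + 1) ≤ z := by
    rw [hz, Nat.le_div_iff_mul_le hM1]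
    calc K ^ (j + 1) * M ≤ K ^ (j + 1) * K := Nat.mul_le_mul_left _ (by omega)
      _ = K ^ (j + 2) := by ring
      _ ≤ N := hKN
  have hKz' : K ≤ z := by
    calc K = K ^ 1 := (pow_one K).symm
      _ ≤ K ^ (j + 1) := Nat.pow_le_pow_right hKpos (by omega)
      _ ≤ z := hKz
  have hzN : N ≤ z ^ 2 := by
    have h1 : (z + 1) * M ≤ (z + 1) * (z / 4) := Nat.mul_le_mul_left _ (by omega)
    have h2 : (z + 1) * (z / 4) * 4 ≤ (z + 1) * z := by
      have : z / 4 * 4 ≤ z := Nat.div_mul_le_self z 4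
      calc (z + 1) * (z / 4) * 4 = (z + 1) * (z / 4 * 4) := by ring
        _ ≤ (z + 1) * z := Nat.mul_le_mul_left _ this
    have h3 : (z + 1) * z ≤ 4 * z ^ 2 := by nlinarith
    omega
  -- log M
  set Lm : ℝ := Real.log M with hLm
  have hLm1 : y - 4 ≤ Lm := by
    have h1 : Real.exp y / 16 ≤ M := by
      have h2 : (K : ℝ) ≤ 8 * M := by exact_mod_cast hM8
      linarith
    have h3 := Real.log_le_log (by positivity) h1
    rw [Real.log_div (Real.exp_pos y).ne' (by norm_num), Real.log_exp] at h3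
    have h4 : Real.log 16 ≤ 4 := by
      rw [show (16 : ℝ) = 2 ^ 4 by norm_num, Real.log_pow]
      have := log_two_le
      push_cast
      linarith
    linarith
  have hLm2 : Lm ≤ y := by
    have h2 : (M : ℝ) ≤ Real.exp y := by
      have : (M : ℝ) ≤ K := by exact_mod_cast (by omega : M ≤ K)
      linarith
    have h3 := Real.log_le_log hM0 h2
    rwa [Real.log_exp] at h3
  have hLm3 : l1 / (16 * l2) ≤ Lm := by
    have h1 : l1 / (16 * l2) + 4 ≤ l1 / (15 * l2) := by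
      have h2 : l1 / (15 * l2) - l1 / (16 * l2) = l1 / (15 * l2) / 16 := by
        field_simp
        norm_num
      have h3 : 4 ≤ l1 / (15 * l2) / 16 := by nlinarith
      linarith
    linarith
  have hLmbig : 10 ^ 5 * l2 ≤ Lm := by nlinarith
  have hLm0 : 0 < Lm := by nlinarith
  have hLml1 : Lm ≤ l1 := by linarith
  -- X
  set X : ℕ := ⌊(M : ℝ) / l1 ^ 2⌋₊ with hX
  have hMexp : (M : ℝ) = Real.exp Lm := by rw [hLm, Real.exp_log hM0]
  have hl1sq : l1 ^ 2 = Real.exp (2 * l2) := by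
    rw [hl1e, ← Real.exp_nat_mul]
    norm_num
  have hMX : (M : ℝ) / l1 ^ 2 = Real.exp (Lm - 2 * l2) := by
    rw [Real.exp_sub, ← hMexp, ← hl1sq]
  have hX1 : (X : ℝ) ≤ Real.exp (Lm - 2 * l2) := by
    rw [← hMX]
    exact Nat.floor_le (by positivity)
  have hX2 : Real.exp (Lm - 2 * l2) / 2 ≤ X := by
    rw [hX, hMX]
    exact half_le_floor (Real.one_le_exp (by nlinarith))
  have hXM : (X : ℝ) ≤ M := by
    rw [hMexp]
    exact hX1.trans (Real.exp_le_exp.2 (by linarith))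
  have hXMn : X ≤ M := by exact_mod_cast hXM
  have hXz : X * z ≤ N := by
    calc X * z ≤ M * z := Nat.mul_le_mul_right _ hXMn
      _ ≤ N := Nat.mul_div_le N M
  -- w
  set q : ℝ := Lm * l4 / (12 * l3) with hq
  have hr : l4 / (12 * l3) ≤ 1 / 12 := by
    rw [div_le_div_iff₀ (by positivity) (by norm_num)]
    linarith
  have hq12 : q ≤ Lm / 12 := by
    have : q = Lm * (l4 / (12 * l3)) := by rw [hq]; ring
    rw [this]
    have := mul_le_mul_of_nonneg_left hr hLm0.le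
    linarith
  have hq1 : l1 * l4 / (192 * l2 * l3) ≤ q := by
    have h1 : l1 * l4 / (192 * l2 * l3) = l1 / (16 * l2) * (l4 / (12 * l3)) := by
      field_simp
      norm_num
    have h2 : q = Lm * (l4 / (12 * l3)) := by rw [hq]; ring
    rw [h1, h2]
    exact mul_le_mul_of_nonneg_right hLm3 (by positivity)
  have hqbig : l2 ≤ l1 * l4 / (192 * l2 * l3) := by
    rw [le_div_iff₀ (by positivity)]
    have h1 : l2 * (192 * l2 * l3) ≤ 192 * l2 ^ 3 := by
      have : l2 * (192 * l2 * l3) = 192 * l2 ^ 2 * l3 := by ring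
      rw [this, show 192 * l2 ^ 3 = 192 * l2 ^ 2 * l2 by ring]
      exact mul_le_mul_of_nonneg_left b7 (by positivity)
    have h2 : 192 * l2 ^ 3 ≤ l2 ^ 6 := by
      have h3 : (192 : ℝ) ≤ l2 ^ 3 := by nlinarith
      have h4 : l2 ^ 6 = l2 ^ 3 * l2 ^ 3 := by ring
      rw [h4]
      exact mul_le_mul_of_nonneg_right h3 (by positivity)
    have h5 : l1 * 1 ≤ l1 * l4 := mul_le_mul_of_nonneg_left (by linarith) l10.le
    linarith
  set w : ℕ := ⌊Real.exp q⌋₊ with hw
  have hq0 : 0 < q := by linarith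
  have hw1 : (w : ℝ) ≤ Real.exp q := Nat.floor_le (Real.exp_pos q).le
  have hw2 : Real.exp q / 2 ≤ w := half_le_floor (Real.one_le_exp hq0.le)
  have hw0 : (0 : ℝ) < w := by
    have := Real.exp_pos q
    linarith
  have hwn : 1 ≤ w := by
    have : 0 < w := by exact_mod_cast hw0
    omega
  have hlogw1 : Real.log w ≤ q := by
    have := Real.log_le_log hw0 hw1
    rwa [Real.log_exp] at this
  have hlogw2 : q - 1 ≤ Real.log w := by
    have := Real.log_le_log (by positivity) hw2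
    rw [Real.log_div (Real.exp_pos q).ne' (by norm_num), Real.log_exp] at this
    have := log_two_le
    linarith
  have hl2w : 90 ≤ Real.log w := by linarith
  have hwX' : 2 * (w : ℝ) ≤ X := by
    have h1 : 2 * Real.exp q ≤ Real.exp (Lm - 2 * l2) / 2 := by
      have h2 : Real.exp (q + 2) ≤ Real.exp (Lm - 2 * l2) := by
        apply Real.exp_le_exp.2
        nlinarith
      have h3 : 4 * Real.exp q ≤ Real.exp (q + 2) := by
        rw [Real.exp_add, mul_comm]
        apply mul_le_mul_of_nonneg_left _ (Real.exp_pos q).le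
        have h4 : Real.exp 2 = Real.exp 1 * Real.exp 1 := by
          rw [← Real.exp_add]
          norm_num
        have h5 := Real.add_one_le_exp 1
        rw [h4]
        nlinarith
      linarith
    linarith
  have hwX : w ≤ X := by
    have : (w : ℝ) ≤ X := by linarith
    exact_mod_cast this
  have hwz : w ≤ z := by
    have h1 : X ≤ M := hXMn
    omega
  -- log (X / w)
  set X' : ℕ := X / w with hX'
  have hX'1 : Real.exp (Lm - 2 * l2 - q - 2) ≤ X' := by
    have h1 : (X : ℝ) / w - 1 ≤ X' := by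
      have h2 : X < w * (X' + 1) := Nat.lt_mul_div_succ X hwn
      have h3 : (X : ℝ) < w * (X' + 1) := by exact_mod_cast h2
      rw [sub_le_iff_le_add, div_le_iff₀ hw0]
      linarith
    have h2 : (2 : ℝ) ≤ X / w := by
      rw [le_div_iff₀ hw0]
      linarith
    have h3 : (X : ℝ) / w / 2 ≤ X' := by linarith
    refine le_trans ?_ h3
    have h4 : Real.exp (Lm - 2 * l2) / 2 / Real.exp q / 2 ≤ (X : ℝ) / w / 2 := by
      apply div_le_div_of_nonneg_right _ (by norm_num)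
      exact div_le_div₀ (by positivity) hX2 hw0 hw1
    refine le_trans ?_ h4
    have h5 : Real.exp (Lm - 2 * l2 - q - 2) = Real.exp (Lm - 2 * l2) / Real.exp q / Real.exp 2 := by
      rw [← Real.exp_sub, ← Real.exp_sub]
    rw [h5]
    have h6 : (4 : ℝ) ≤ Real.exp 2 := by
      have h4 : Real.exp 2 = Real.exp 1 * Real.exp 1 := by
        rw [← Real.exp_add]
        norm_num
      have h5 := Real.add_one_le_exp 1
      rw [h4]
      nlinarith
    have h7 : Real.exp (Lm - 2 * l2) / 2 / Real.exp q / 2 =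
        Real.exp (Lm - 2 * l2) / Real.exp q / 4 := by ring
    rw [h7]
    exact div_le_div_of_nonneg_left (by positivity) (by norm_num) h6
  have hlogX' : 5 / 6 * Lm ≤ Real.log X' := by
    have h1 := Real.log_le_log (Real.exp_pos _) hX'1
    rw [Real.log_exp] at h1
    nlinarith
  have hX0 : (X : ℝ) ≤ M / l1 ^ 2 := Nat.floor_le (by positivity)
  have hz0 : (z : ℝ) ≤ N / M := by
    rw [hz]
    exact Nat.cast_div_le
  have hl4w : l4 ≤ Real.log w := by
    have h1 := Real.log_le_sub_one_of_pos l20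
    linarith
  have hlast : 5 * l3 ≤ (l4 / 2) * Real.log (X' : ℝ) / Real.log w := by
    rw [le_div_iff₀ (by linarith)]
    have h3 : 5 * l3 * Real.log w ≤ 5 * l3 * q := mul_le_mul_of_nonneg_left hlogw1 (by positivity)
    have h4 : 5 * l3 * q = (l4 / 2) * (5 / 6 * Lm) := by
      rw [hq]
      field_simp
      norm_num
    have h5 : (l4 / 2) * (5 / 6 * Lm) ≤ (l4 / 2) * Real.log (X' : ℝ) :=
      mul_le_mul_of_nonneg_left hlogX' (by positivity)
    linarith
  exact ⟨j, K, M, z, X, w, by omega, hM1, hM4, hKjM, hz1, hKz, hzN, hXz, by omega, hwz, hwn, hwX,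
    hj1, hLml1, hl4w, hX0, hz0, by linarith, hlast⟩

end Pool.Agent.E290
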