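import Pool.Agent.Lib.MP_e290cc_nt.Rank2
import Pool.Agent.Lib.MP_e290cc_nt.Adm2
import Pool.Agent.Lib.MP_e290cc_nt.Par2
import Pool.Agent.Lib.MP_e290cc_nt.KKb

set_option autoImplicit false

/-!
The main bound for one `N`, with explicit parameters.
-/

namespace Pool.Agent.E290

open Finset N6026a1c6

/-- The sum over the smooth numbers. -/
lemma smooth_sum {Cm c : ℝ} (hCm : 0 ≤ Cm) (hc : 1 ≤ c) {w X : ℕ} {l1 : ℝ} (hl1 : 0 < l1)
    (hw : 1 ≤ w) (hwX : w ≤ X) (hcw : 2 * c ≤ Real.log w)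
    (hm1 : Real.log w - Cm ≤ ∑ p ∈ (Icc 1 w).filter Nat.Prime, Real.log p / p)
    (hm2 : ∑ p ∈ (Icc 1 w).filter Nat.Prime, Real.log p / p ≤ Real.log w + Cm)
    (hpos : 0 ≤ Real.log w - Cm) {ε : ℝ} (hε1 : ε ≤ 1)
    (hε : Real.exp (4 * (1 + Cm) * c * Real.exp c - c * Real.log ((X / w : ℕ) : ℝ) / Real.log w)
      ≤ ε) :
    (V w)⁻¹ * ((1 - ε) * (1 + (Real.log w - Cm) / l1)) ≤
      ∑ s ∈ SM w X, 1 / (s : ℝ) * (1 + Real.log s / l1) := by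
  have hX1 : 1 ≤ X := hw.trans hwX
  have hXw : 1 ≤ X / w := (Nat.one_le_div_iff (by omega)).2 hwX
  have hVi : 0 < (V w)⁻¹ := inv_pos.2 (V_pos w)
  have hlogw : 0 < Real.log w := by linarith
  have h1 := sum_SM_ge2 hCm hc hXw hcw hm2
  have h1' : (V w)⁻¹ * (1 - ε) ≤ ∑ s ∈ SM w (X / w), 1 / (s : ℝ) := by
    refine le_trans ?_ h1
    apply mul_le_mul_of_nonneg_left _ hVi.le
    linarith
  have hsub : SM w (X / w) ⊆ SM w X := by
    intro s hs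
    rw [mem_SM] at hs ⊢
    exact ⟨hs.1, hs.2.1.trans (Nat.div_le_self _ _), hs.2.2⟩
  have h2 : (V w)⁻¹ * (1 - ε) ≤ ∑ s ∈ SM w X, 1 / (s : ℝ) := by
    refine h1'.trans ?_
    exact Finset.sum_le_sum_of_subset_of_nonneg hsub (fun _ _ _ => by positivity)
  have h3 := sum_log_SM_ge w X hw
  have h4 : (Real.log w - Cm) * ((V w)⁻¹ * (1 - ε)) ≤ ∑ s ∈ SM w X, Real.log s / s := by
    refine le_trans ?_ h3
    have h5 : 0 ≤ (V w)⁻¹ * (1 - ε) := mul_nonneg hVi.le (by linarith)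
    exact mul_le_mul hm1 h1' h5 (hpos.trans hm1)
  have h6 : ∑ s ∈ SM w X, 1 / (s : ℝ) * (1 + Real.log s / l1) =
      ∑ s ∈ SM w X, 1 / (s : ℝ) + (∑ s ∈ SM w X, Real.log s / s) / l1 := by
    rw [Finset.sum_div, ← Finset.sum_add_distrib]
    apply Finset.sum_congr rfl
    intro s _
    ring
  rw [h6]
  have h7 : (Real.log w - Cm) * ((V w)⁻¹ * (1 - ε)) / l1 ≤
      (∑ s ∈ SM w X, Real.log s / s) / l1 := div_le_div_of_nonneg_right h4 hl1.le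
  have h8 : (V w)⁻¹ * ((1 - ε) * (1 + (Real.log w - Cm) / l1)) =
      (V w)⁻¹ * (1 - ε) + (Real.log w - Cm) * ((V w)⁻¹ * (1 - ε)) / l1 := by ring
  rw [h8]
  linarith

/-- The last elementary inequality of the main bound. -/
lemma last_ineq {a ε g G e : ℝ} (ha0 : 0 ≤ a) (ha1 : a ≤ 1) (hε0 : 0 ≤ ε) (hε1 : ε ≤ 1)
    (hG0 : 0 ≤ G) (hG1 : G ≤ 1) (hg : G ≤ g) (h : 2 * (a + ε) + e ≤ 2 / 3 * G) :
    1 + G / 3 ≤ (1 - a) * ((1 - ε) * (1 + g)) - e := by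
  have h1 : (1 - a) * ((1 - ε) * (1 + G)) ≤ (1 - a) * ((1 - ε) * (1 + g)) := by
    apply mul_le_mul_of_nonneg_left _ (by linarith)
    exact mul_le_mul_of_nonneg_left (by linarith) (by linarith)
  have h2 : 1 + G - 2 * (a + ε) ≤ (1 - a) * ((1 - ε) * (1 + G)) := by
    have h3 : (1 - a) * ((1 - ε) * (1 + G)) =
        1 + G - (a + ε) * (1 + G) + a * ε * (1 + G) := by ring
    have h4 : (a + ε) * (1 + G) ≤ (a + ε) * 2 :=
      mul_le_mul_of_nonneg_left (by linarith) (by linarith)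
    have h5 : 0 ≤ a * ε * (1 + G) := by positivity
    linarith
  linarith

/-- The errors are small compared with the gain. -/
lemma small_errors {C l1 l2 l3 l4 : ℝ} (b1 : 2 ≤ l4) (b3 : 100 ≤ l2)
    (b4 : l2 ^ 6 ≤ l1) (b5 : 4 * C ≤ l2) (b7 : l3 ≤ l2) (l30 : 0 < l3) :
    2 * (4 * C / l1 ^ 2 + 1 / l2 ^ 4) + 6 / l1 ^ 2 ≤ 2 / 3 * (l4 / (200 * l2 * l3)) := by
  have l20 : 0 < l2 := by linarith
  have hl23 : (10 : ℝ) ^ 6 ≤ l2 ^ 3 := by
    calc (10 : ℝ) ^ 6 = 100 ^ 3 := by norm_num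
      _ ≤ l2 ^ 3 := pow_le_pow_left₀ (by norm_num) b3 3
  have hl22 : (10 : ℝ) ^ 4 ≤ l2 ^ 2 := by
    calc (10 : ℝ) ^ 4 = 100 ^ 2 := by norm_num
      _ ≤ l2 ^ 2 := pow_le_pow_left₀ (by norm_num) b3 2
  have hl6 : l2 ^ 6 = l2 ^ 3 * l2 ^ 3 := by ring
  have hl16 : 10 ^ 6 * l2 ^ 3 ≤ l1 := by
    have := mul_le_mul_of_nonneg_right hl23 (show 0 ≤ l2 ^ 3 by positivity)
    linarith
  have hl1 : 1 ≤ l1 := by
    have : 0 ≤ l2 ^ 3 := by positivity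
    nlinarith
  have l10 : 0 < l1 := by linarith
  have hsq : l1 ≤ l1 ^ 2 := by nlinarith
  set u : ℝ := 1 / (10 ^ 4 * l2 ^ 2) with hu
  have hu0 : 0 < u := by positivity
  have h1 : 100 * u ≤ l4 / (200 * l2 * l3) := by
    have h2 : 100 * u = 1 / (100 * l2 ^ 2) := by
      rw [hu]
      field_simp
      norm_num
    rw [h2, div_le_div_iff₀ (by positivity) (by positivity)]
    have h2 : 200 * l2 * l3 ≤ 200 * l2 * l2 :=
      mul_le_mul_of_nonneg_left b7 (by positivity)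
    have h3 : 2 * (100 * l2 ^ 2) ≤ l4 * (100 * l2 ^ 2) :=
      mul_le_mul_of_nonneg_right b1 (by positivity)
    linarith
  have h2 : 1 / l2 ^ 4 ≤ u := by
    apply one_div_le_one_div_of_le (by positivity)
    have h4 : l2 ^ 4 = l2 ^ 2 * l2 ^ 2 := by ring
    rw [h4]
    exact mul_le_mul_of_nonneg_right hl22 (by positivity)
  have h3 : 4 * C / l1 ^ 2 ≤ u := by
    have h5 : 4 * C / l1 ^ 2 ≤ l2 / l1 ^ 2 := div_le_div_of_nonneg_right b5 (by positivity)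
    refine h5.trans ?_
    rw [hu, div_le_div_iff₀ (by positivity) (by positivity)]
    have h6 : l2 * (10 ^ 4 * l2 ^ 2) = 10 ^ 4 * l2 ^ 3 := by ring
    rw [h6]
    have : 0 ≤ l2 ^ 3 := by positivity
    linarith
  have h4 : 6 / l1 ^ 2 ≤ 6 * u := by
    rw [← mul_one_div]
    apply mul_le_mul_of_nonneg_left _ (by norm_num)
    apply one_div_le_one_div_of_le (by positivity)
    have h5 : l2 ^ 2 ≤ l2 ^ 3 := by
      have : l2 ^ 3 = l2 ^ 2 * l2 := by ring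
      nlinarith [sq_nonneg l2]
    have : 0 ≤ l2 ^ 3 := by positivity
    linarith
  linarith

/-- The gain. -/
lemma gain_ge {Cm l1 l2 l3 l4 lw : ℝ} (hCm : 0 ≤ Cm) (b1 : 2 ≤ l4) (b3 : 100 ≤ l2)
    (b4 : l2 ^ 6 ≤ l1) (b5 : 1 + (1 + Cm) ≤ l2) (b7 : l3 ≤ l2) (l30 : 0 < l3)
    (hlw : l1 * l4 / (192 * l2 * l3) - 1 ≤ lw) :
    l4 / (200 * l2 * l3) ≤ (lw - Cm) / l1 := by
  have l20 : 0 < l2 := by linarith
  have hl23 : (10 : ℝ) ^ 6 ≤ l2 ^ 3 := by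
    calc (10 : ℝ) ^ 6 = 100 ^ 3 := by norm_num
      _ ≤ l2 ^ 3 := pow_le_pow_left₀ (by norm_num) b3 3
  have hl6 : l2 ^ 6 = l2 ^ 3 * l2 ^ 3 := by ring
  have hl16 : 10 ^ 6 * l2 ^ 3 ≤ l1 := by
    have := mul_le_mul_of_nonneg_right hl23 (show 0 ≤ l2 ^ 3 by positivity)
    linarith
  have h30 : 0 < l2 ^ 3 := by positivity
  have l10 : 0 < l1 := by linarith
  rw [le_div_iff₀ l10]
  have h1 : l4 / (200 * l2 * l3) * l1 + l1 * l4 / (4800 * l2 * l3) =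
      l1 * l4 / (192 * l2 * l3) := by
    field_simp
    norm_num
  have h2 : 1 + Cm ≤ l1 * l4 / (4800 * l2 * l3) := by
    rw [le_div_iff₀ (by positivity)]
    have h3 : (1 + Cm) * (4800 * l2 * l3) ≤ l2 * (4800 * l2 * l2) := by
      apply mul_le_mul (by linarith) _ (by positivity) l20.le
      exact mul_le_mul_of_nonneg_left b7 (by positivity)
    have h4 : l2 * (4800 * l2 * l2) = 4800 * l2 ^ 3 := by ring
    have h5 : l1 * 1 ≤ l1 * l4 := mul_le_mul_of_nonneg_left (by linarith) l10.le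
    linarith
  linarith

/-- The count, from the parameters. -/
theorem count2 {C Cm : ℝ}
    (hC : ∀ t : ℝ, 2 ≤ t → t - C * t / (Real.log t) ^ 2 ≤ Chebyshev.theta t) (hC0 : 0 ≤ C)
    (hCm : 0 ≤ Cm)
    (hm1 : ∀ w : ℕ, 1 ≤ w →
      Real.log w - Cm ≤ ∑ p ∈ (Icc 1 w).filter Nat.Prime, Real.log p / p)
    (hm2 : ∀ w : ℕ, 1 ≤ w →
      ∑ p ∈ (Icc 1 w).filter Nat.Prime, Real.log p / p ≤ Real.log w + Cm)
    {N : ℕ} {l1 l2 l3 l4 : ℝ} (e1 : l1 = Real.log N) (hl1 : 2 ≤ l1)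
    (l30 : 0 < l3) (hl2e : l2 = Real.exp l3) (b1 : 2 ≤ l4)
    (b2 : 2 * (1 + Cm) * l4 * Real.exp (l4 / 2) ≤ l3)
    (h4C : 4 * C ≤ l1 ^ 2)
    {M z X w : ℕ} (hM1 : 1 ≤ M) (hzN : N ≤ z ^ 2) (hXz : X * z ≤ N) (hz2 : 2 ≤ z)
    (hwz : w ≤ z) (hwn : 1 ≤ w) (hwX : w ≤ X) (hl4w : l4 ≤ Real.log w)
    (hX0 : (X : ℝ) ≤ M / l1 ^ 2) (hz0 : (z : ℝ) ≤ N / M)
    (hlast : 5 * l3 ≤ (l4 / 2) * Real.log ((X / w : ℕ) : ℝ) / Real.log w)
    (hwCm : 0 ≤ Real.log w - Cm) :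
    (N / l1) * ((1 - 4 * C / l1 ^ 2) * ((V w)⁻¹ * ((1 - 1 / l2 ^ 4) *
      (1 + (Real.log w - Cm) / l1)))) - 4 * N / l1 ^ 3 ≤ (R1 w z N).card := by
  have l10 : 0 < l1 := by linarith
  have hM0 : (0 : ℝ) < M := by exact_mod_cast hM1
  have hN0 : (0 : ℝ) ≤ N := Nat.cast_nonneg N
  have hlw0 : 0 < Real.log w := by linarith
  set ε : ℝ := 1 / l2 ^ 4 with hε
  have hε4 : Real.exp (-(4 * l3)) = ε := by
    rw [hε, hl2e, ← Real.exp_nat_mul, Real.exp_neg, one_div]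
    norm_num
  have hε1 : ε ≤ 1 := by
    rw [← hε4, Real.exp_le_one_iff]
    linarith
  have hεle : Real.exp (4 * (1 + Cm) * (l4 / 2) * Real.exp (l4 / 2) -
      (l4 / 2) * Real.log ((X / w : ℕ) : ℝ) / Real.log w) ≤ ε := by
    rw [← hε4]
    apply Real.exp_le_exp.2
    have h1 : 4 * (1 + Cm) * (l4 / 2) * Real.exp (l4 / 2) =
        2 * (1 + Cm) * l4 * Real.exp (l4 / 2) := by ring
    rw [h1]
    linarith
  have hsum := smooth_sum (ε := ε) hCm (c := l4 / 2) (by linarith) l10 hwn hwX (by linarith)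
    (hm1 w hwn) (hm2 w hwn) hwCm hε1 hεle
  have hN2 : 2 ≤ N := by
    have h1 : 1 ≤ X := hwn.trans hwX
    calc 2 ≤ z := hz2
      _ = 1 * z := (one_mul z).symm
      _ ≤ X * z := Nat.mul_le_mul_right _ h1
      _ ≤ N := hXz
  have h4C' : 4 * C ≤ Real.log N ^ 2 := by rw [← e1]; exact h4C
  have hR := R1_ge hC hC0 hwz hz2 hzN hXz hN2 h4C'
  rw [← e1] at hR
  have ha1 : 4 * C / l1 ^ 2 ≤ 1 := by
    rw [div_le_one (by positivity)]
    exact h4C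
  have hSMc : ((SM w X).card : ℝ) * (4 * z / l1) ≤ 4 * N / l1 ^ 3 := by
    have h1 : (SM w X).card ≤ X := by
      have h2 : SM w X ⊆ Icc 1 X := by
        intro s hs
        rw [mem_SM] at hs
        exact mem_Icc.2 ⟨hs.1, hs.2.1⟩
      simpa using card_le_card h2
    have h2 : ((SM w X).card : ℝ) ≤ M / l1 ^ 2 := by
      have h3 : ((SM w X).card : ℝ) ≤ X := by exact_mod_cast h1
      exact h3.trans hX0
    calc ((SM w X).card : ℝ) * (4 * z / l1) ≤ (M / l1 ^ 2) * (4 * (N / M) / l1) := by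
          apply mul_le_mul h2 _ (by positivity) (by positivity)
          apply div_le_div_of_nonneg_right _ l10.le
          linarith
      _ = 4 * N / l1 ^ 3 := by
          field_simp
  have h2 : (N / l1) * ((1 - 4 * C / l1 ^ 2) * ((V w)⁻¹ * ((1 - ε) *
      (1 + (Real.log w - Cm) / l1)))) ≤
      (N / l1) * ((1 - 4 * C / l1 ^ 2) * ∑ s ∈ SM w X, 1 / (s : ℝ) * (1 + Real.log s / l1)) := by
    apply mul_le_mul_of_nonneg_left _ (by positivity)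
    exact mul_le_mul_of_nonneg_left hsum (by linarith)
  linarith

theorem core2 {C Cm : ℝ}
    (hC : ∀ t : ℝ, 2 ≤ t → t - C * t / (Real.log t) ^ 2 ≤ Chebyshev.theta t) (hC0 : 0 ≤ C)
    (hCm : 0 ≤ Cm)
    (hm1 : ∀ w : ℕ, 1 ≤ w →
      Real.log w - Cm ≤ ∑ p ∈ (Icc 1 w).filter Nat.Prime, Real.log p / p)
    (hm2 : ∀ w : ℕ, 1 ≤ w →
      ∑ p ∈ (Icc 1 w).filter Nat.Prime, Real.log p / p ≤ Real.log w + Cm)
    {N : ℕ} {l1 l2 l3 l4 : ℝ} (e1 : l1 = Real.log N) (e2 : l2 = Real.log l1)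
    (e3 : l3 = Real.log l2) (b1 : 2 ≤ l4)
    (b2 : 2 * (1 + Cm) * l4 * Real.exp (l4 / 2) ≤ l3) (b3 : 100 ≤ l2)
    (b4 : l2 ^ 6 ≤ l1) (b5 : 4 * C + Cm + 8 ≤ l2) (b6 : l4 ≤ l3) (b7 : l3 ≤ l2) {k : ℕ}
    (hk : (k : ℝ) ≤ (N / l1) * (1 + l4 / (600 * l2 * l3))) : A k ≤ N := by
  have l20 : 0 < l2 := by linarith
  have l30 : 0 < l3 := by linarith
  have l40 : 0 < l4 := by linarith
  have hl23 : (10 : ℝ) ^ 6 ≤ l2 ^ 3 := by
    calc (10 : ℝ) ^ 6 = 100 ^ 3 := by norm_num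
      _ ≤ l2 ^ 3 := pow_le_pow_left₀ (by norm_num) b3 3
  have hl6 : l2 ^ 6 = l2 ^ 3 * l2 ^ 3 := by ring
  have hl16 : 10 ^ 6 * l2 ^ 3 ≤ l1 := by
    have := mul_le_mul_of_nonneg_right hl23 (show 0 ≤ l2 ^ 3 by positivity)
    linarith
  have hl3l : l2 ≤ l2 ^ 3 := by
    have h1 : (1 : ℝ) ≤ l2 := by linarith
    calc l2 = l2 ^ 1 := (pow_one l2).symm
      _ ≤ l2 ^ 3 := pow_le_pow_right₀ h1 (by norm_num)
  have l12 : l2 ≤ l1 := by linarith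
  have hl1 : 2 ≤ l1 := by linarith
  have l10 : 0 < l1 := by linarith
  have hl1e : l1 = Real.exp l2 := by rw [e2, Real.exp_log l10]
  have hl2e : l2 = Real.exp l3 := by rw [e3, Real.exp_log l20]
  have h4C : 4 * C ≤ l1 ^ 2 := by nlinarith
  obtain ⟨j, K, M, z, X, w, hK, hM1, hM4, hKjM, hz1, hKz, hzN, hXz, hz2, hwz, hwn, hwX, hj1,
    hLml1, hl4w, hX0, hz0, hlw, hlast⟩ := params e1 e2 e3 b1 b3 b4 b6 b7
  have hN0 : (0 : ℝ) ≤ N := Nat.cast_nonneg N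
  have hg := gain_ge hCm b1 b3 b4 (by linarith) b7 l30 hlw
  have hG0 : 0 ≤ l4 / (200 * l2 * l3) := by positivity
  have hwCm : 0 ≤ Real.log w - Cm := by
    have h1 : 0 ≤ (Real.log w - Cm) / l1 := hG0.trans hg
    by_contra hcon
    push Not at hcon
    have := div_neg_of_neg_of_pos hcon l10
    linarith
  have hcount := count2 hC hC0 hCm hm1 hm2 e1 hl1 l30 hl2e b1 b2 h4C hM1 hzN hXz hz2 hwz hwn hwX
    hl4w hX0 hz0 hlast hwCm
  have hKK2 := KK_small hl1e (by linarith) hK hM1 hM4 hKjM hj1 hLml1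
  apply A_le_free (w := w) (z := z) (K := K) (j := j) (M := M) (by omega) hz1 hKz
  refine hk.trans ?_
  have hV0 := V_pos w
  have hV1 := V_le_one w
  have herr := small_errors (C := C) b1 b3 b4 (by linarith) b7 l30
  have hG1 : l4 / (200 * l2 * l3) ≤ 1 := by
    rw [div_le_one (by positivity)]
    have h1 : l3 * 1 ≤ l3 * (200 * l2) := mul_le_mul_of_nonneg_left (by linarith) l30.le
    linarith
  generalize hgg : (Real.log w - Cm) / l1 = g at hg hcount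
  generalize hGG : l4 / (200 * l2 * l3) = G at hg hG0 hG1 herr
  generalize ha : 4 * C / l1 ^ 2 = a at hcount herr
  generalize hε : 1 / l2 ^ 4 = ε at hcount herr
  have ha0 : 0 ≤ a := by rw [← ha]; positivity
  have ha1 : a ≤ 1 := by
    rw [← ha, div_le_one (by positivity)]
    exact h4C
  have hε0 : 0 ≤ ε := by rw [← hε]; positivity
  have hε1 : ε ≤ 1 := by
    rw [← hε, div_le_one (by positivity)]
    exact one_le_pow₀ (by linarith)
  have hfinal := last_ineq ha0 ha1 hε0 hε1 hG0 hG1 hg herr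
  -- V (R1 - KK)
  have hfin : (N / l1) * ((1 - a) * ((1 - ε) * (1 + g))) - 6 * N / l1 ^ 3 ≤
      V w * ((R1 w z N).card - (KK K j M N).card) := by
    have h2 : V w * ((N / l1) * ((1 - a) * ((V w)⁻¹ * ((1 - ε) * (1 + g)))) - 4 * N / l1 ^ 3
        - 2 * N / l1 ^ 3) ≤ V w * ((R1 w z N).card - (KK K j M N).card) := by
      apply mul_le_mul_of_nonneg_left _ hV0.le
      linarith
    refine le_trans ?_ h2
    have h3 : V w * ((N / l1) * ((1 - a) * ((V w)⁻¹ * ((1 - ε) * (1 + g)))) - 4 * N / l1 ^ 3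
        - 2 * N / l1 ^ 3) = (V w * (V w)⁻¹) * ((N / l1) * ((1 - a) * ((1 - ε) * (1 + g)))) -
          V w * (6 * N / l1 ^ 3) := by
      ring
    rw [h3, mul_inv_cancel₀ hV0.ne', one_mul]
    have h4 : V w * (6 * N / l1 ^ 3) ≤ 1 * (6 * N / l1 ^ 3) :=
      mul_le_mul_of_nonneg_right hV1 (by positivity)
    linarith
  refine le_trans ?_ hfin
  have h1 : l4 / (600 * l2 * l3) = G / 3 := by
    rw [← hGG]
    field_simp
    norm_num
  rw [h1]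
  have h2 : (N / l1) * ((1 - a) * ((1 - ε) * (1 + g))) - 6 * N / l1 ^ 3 =
      (N / l1) * ((1 - a) * ((1 - ε) * (1 + g)) - 6 / l1 ^ 2) := by
    field_simp
  rw [h2]
  exact mul_le_mul_of_nonneg_left hfinal (by positivity)

end Pool.Agent.E290
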