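import Pool.Agent.Lib.MP_e290cc_nt.Rough

set_option autoImplicit false

/-!
The lower bound for the size of the sifted set, with explicit hypotheses on the parameters.
-/

namespace Pool.Agent.E290

open Finset

/-- the tail estimate -/
lemma tail_le {lam L D : ℝ} {w Y : ℕ} (hlam : 1 ≤ lam) (hL : 1 ≤ L) (hD : 0 < D) (hw : 1 ≤ w)
    (h8 : (L * D) ^ (1 / lam) ≤ 8) (hbig : 64 * w * (2 * lam) ^ w ≤ D)
    (hY1 : L * D / (8 * w) ≤ Y) (hY2 : (Y : ℝ) ≤ L * D) :
    (Y : ℝ) ^ (-(1 - 1 / lam)) * (2 / (1 / lam)) ^ w ≤ 1 / L := by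
  have hw' : (1 : ℝ) ≤ w := by exact_mod_cast hw
  have hLD : 0 < L * D := by positivity
  have hY0 : (0 : ℝ) < Y := lt_of_lt_of_le (by positivity) hY1
  have e1 : (Y : ℝ) ^ (-(1 - 1 / lam)) = (Y : ℝ) ^ (1 / lam) / Y := by
    rw [show -(1 - 1 / lam) = 1 / lam - 1 by ring, Real.rpow_sub hY0, Real.rpow_one]
  have e2 : (Y : ℝ) ^ (1 / lam) ≤ 8 :=
    (Real.rpow_le_rpow hY0.le hY2 (by positivity)).trans h8
  have e3 : 2 / (1 / lam) = 2 * lam := by
    have : lam ≠ 0 := by positivity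
    field_simp
  rw [e1, e3]
  calc (Y : ℝ) ^ (1 / lam) / Y * (2 * lam) ^ w ≤ 8 / (L * D / (8 * w)) * (2 * lam) ^ w := by
        apply mul_le_mul_of_nonneg_right _ (by positivity)
        exact div_le_div₀ (by norm_num) e2 (by positivity) hY1
    _ = (64 * w * (2 * lam) ^ w) / (L * D) := by
        field_simp
        ring
    _ ≤ D / (L * D) := div_le_div_of_nonneg_right hbig hLD.le
    _ = 1 / L := by field_simp

/-- the main lower bound -/
theorem coreA {C Cm : ℝ}
    (hC : ∀ t : ℝ, 2 ≤ t → t - C * t / (Real.log t) ^ 2 ≤ Chebyshev.theta t)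
    (hC0 : 0 ≤ C)
    (hCm : ∀ w : ℕ, 1 ≤ w →
      Real.log w - Cm ≤ ∑ p ∈ (Icc 1 w).filter Nat.Prime, Real.log p / p)
    {N w X z : ℕ} {L lam D : ℝ} (hLN : L = Real.log N) (hlam : 1 ≤ lam) (hL : 1 ≤ L)
    (hD : 0 < D) (hw : 1 ≤ w)
    (h8 : (L * D) ^ (1 / lam) ≤ 8) (hbig : 64 * w * (2 * lam) ^ w ≤ D)
    (hwz : w ≤ z) (hz : 2 ≤ z) (hzN : N ≤ z ^ 2) (hXz : X * z ≤ N) (hN : 2 ≤ N)
    (hX1 : L * D / 4 ≤ X) (hX2 : (X : ℝ) ≤ L * D) (hzle : (z : ℝ) ≤ 2 * N / (L * D))
    (h4C : 4 * C ≤ L) (ht0 : 0 ≤ Real.log w - Cm) (ht1 : Real.log w - Cm ≤ L) :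
    (N / L) * (1 + (Real.log w - Cm - 5) / L) ≤ V w * (R1 w z N).card := by
  have hw' : (1 : ℝ) ≤ w := by exact_mod_cast hw
  have hN0 : (0 : ℝ) < N := by
    have : 0 < N := by omega
    exact_mod_cast this
  have hL0 : 0 < L := by linarith
  have hV0 := V_pos w
  have hV1 := V_le_one w
  have hpow : (1 : ℝ) ≤ (2 * lam) ^ w := one_le_pow₀ (by linarith)
  have hDw : 64 * (w : ℝ) ≤ D := by
    refine le_trans ?_ hbig
    have : (0 : ℝ) ≤ 64 * w := by positivity
    nlinarith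
  have hLD : D ≤ L * D := by nlinarith
  have hX16 : 16 * (w : ℝ) ≤ X := by linarith
  have hXpos : 1 ≤ X := by
    have : (0 : ℝ) < X := by linarith
    exact_mod_cast this
  have h4CL : 4 * C ≤ L ^ 2 := by nlinarith
  have hR := R1_ge (w := w) (z := z) (X := X) (N := N) hC hC0 hwz hz hzN hXz hN
    (by rw [← hLN]; exact h4CL)
  rw [← hLN] at hR
  -- the sums
  have hδ0 : 0 < 1 / lam := by positivity
  have hδ1 : 1 / lam ≤ 1 := by
    rw [div_le_one (by linarith)]
    exact hlam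
  have s1 : (V w)⁻¹ - 1 / L ≤ ∑ s ∈ SM w X, 1 / (s : ℝ) := by
    have h1 := sum_SM_ge hδ0 hδ1 w X hXpos
    have h2 := tail_le (Y := X) hlam hL hD hw h8 hbig (by
      refine le_trans ?_ hX1
      apply div_le_div_of_nonneg_left (by positivity) (by norm_num)
      linarith) hX2
    linarith
  have hdiv : L * D / (8 * w) ≤ ((X / w : ℕ) : ℝ) := by
    have h1 : (X : ℝ) / w - 1 ≤ ((X / w : ℕ) : ℝ) := by
      have h2 : X < w * (X / w + 1) := Nat.lt_mul_div_succ X (by omega)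
      have h3 : (X : ℝ) < w * ((X / w : ℕ) + 1) := by exact_mod_cast h2
      have h4 : (X : ℝ) / w < ((X / w : ℕ) : ℝ) + 1 := by
        rw [div_lt_iff₀ (by linarith)]
        linarith
      linarith
    have h2 : (X : ℝ) / (2 * w) ≤ (X : ℝ) / w - 1 := by
      have e : (X : ℝ) / w = 2 * (X / (2 * w)) := by field_simp
      have e2 : (1 : ℝ) ≤ X / (2 * w) := by
        rw [le_div_iff₀ (by positivity)]
        linarith
      linarith
    have h3 : L * D / (8 * w) ≤ (X : ℝ) / (2 * w) := by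
      rw [div_le_div_iff₀ (by positivity) (by positivity)]
      have : 0 ≤ ((X : ℝ) - L * D / 4) * w := mul_nonneg (by linarith) (by linarith)
      nlinarith
    linarith
  have hdiv1 : 1 ≤ X / w := by
    rw [Nat.one_le_div_iff (by omega)]
    have : (w : ℝ) ≤ X := by linarith
    exact_mod_cast this
  have s2 : (V w)⁻¹ - 1 / L ≤ ∑ s ∈ SM w (X / w), 1 / (s : ℝ) := by
    have h1 := sum_SM_ge hδ0 hδ1 w (X / w) hdiv1
    have h2 := tail_le (Y := X / w) hlam hL hD hw h8 hbig hdiv (by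
      refine le_trans (Nat.cast_div_le) ?_
      refine le_trans ?_ hX2
      exact div_le_self (by positivity) hw')
    linarith
  have s3 : (Real.log w - Cm) * ((V w)⁻¹ - 1 / L) ≤ ∑ s ∈ SM w X, Real.log s / s := by
    refine le_trans ?_ (sum_log_SM_ge w X hw)
    have hnn : 0 ≤ (V w)⁻¹ - 1 / L := by
      have h1 : 1 ≤ (V w)⁻¹ := (one_le_inv₀ hV0).2 hV1
      have h2 : 1 / L ≤ 1 := by
        rw [div_le_one hL0]
        exact hL
      linarith
    apply mul_le_mul (hCm w hw) s2 hnn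
    exact le_trans ht0 (hCm w hw)
  have s4 : ((V w)⁻¹ - 1 / L) * (1 + (Real.log w - Cm) / L) ≤
      ∑ s ∈ SM w X, 1 / (s : ℝ) * (1 + Real.log s / L) := by
    have e : ∑ s ∈ SM w X, 1 / (s : ℝ) * (1 + Real.log s / L) =
        ∑ s ∈ SM w X, 1 / (s : ℝ) + (∑ s ∈ SM w X, Real.log s / s) / L := by
      rw [Finset.sum_div, ← Finset.sum_add_distrib]
      apply Finset.sum_congr rfl
      intro s _
      ring
    rw [e]
    have h1 : (Real.log w - Cm) * ((V w)⁻¹ - 1 / L) / L ≤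
        (∑ s ∈ SM w X, Real.log s / s) / L := div_le_div_of_nonneg_right s3 hL0.le
    have h2 : ((V w)⁻¹ - 1 / L) * (1 + (Real.log w - Cm) / L) =
        ((V w)⁻¹ - 1 / L) + (Real.log w - Cm) * ((V w)⁻¹ - 1 / L) / L := by ring
    linarith
  -- the cardinality term
  have s5 : ((SM w X).card : ℝ) * (4 * z / L) ≤ N / L ^ 2 := by
    have h1 := card_SM_le hδ0 hδ1 w X
    have e3 : 2 / (1 / lam) = 2 * lam := by
      have : lam ≠ 0 := by positivity
      field_simp
    rw [e3] at h1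
    have e2 : (X : ℝ) ^ (1 / lam) ≤ 8 :=
      (Real.rpow_le_rpow (by positivity) hX2 (by positivity)).trans h8
    have h2 : ((SM w X).card : ℝ) ≤ 8 * (2 * lam) ^ w :=
      h1.trans (mul_le_mul_of_nonneg_right e2 (by positivity))
    calc ((SM w X).card : ℝ) * (4 * z / L) ≤ (8 * (2 * lam) ^ w) * (4 * (2 * N / (L * D)) / L) := by
          apply mul_le_mul h2 _ (by positivity) (by positivity)
          apply div_le_div_of_nonneg_right _ hL0.le
          linarith
      _ = (N / L ^ 2) * (64 * (2 * lam) ^ w / D) := by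
          field_simp
          ring
      _ ≤ (N / L ^ 2) * 1 := by
          apply mul_le_mul_of_nonneg_left _ (by positivity)
          rw [div_le_one hD]
          refine le_trans ?_ hbig
          have : (0 : ℝ) ≤ 64 * (2 * lam) ^ w := by positivity
          nlinarith
      _ = N / L ^ 2 := mul_one _
  -- assembling
  set t : ℝ := Real.log w - Cm with ht
  have hV : V w * ((V w)⁻¹ - 1 / L) = 1 - V w / L := by
    have := hV0.ne'
    field_simp
  have h6 : 1 - 1 / L ≤ V w * ((V w)⁻¹ - 1 / L) := by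
    rw [hV]
    have : V w / L ≤ 1 / L := div_le_div_of_nonneg_right hV1 hL0.le
    linarith
  have hκ0 : 0 ≤ 1 - 4 * C / L ^ 2 := by
    have : 4 * C / L ^ 2 ≤ 1 := by
      rw [div_le_one (by positivity)]
      exact h4CL
    linarith
  have hκ1 : 1 - 1 / L ≤ 1 - 4 * C / L ^ 2 := by
    have : 4 * C / L ^ 2 ≤ 1 / L := by
      rw [div_le_div_iff₀ (by positivity) hL0]
      nlinarith
    linarith
  have h1L : 0 ≤ 1 - 1 / L := by
    have : 1 / L ≤ 1 := by
      rw [div_le_one hL0]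
      exact hL
    linarith
  have h7 : (1 - 1 / L) * ((1 - 1 / L) * (1 + t / L)) ≤
      (1 - 4 * C / L ^ 2) * (V w * ∑ s ∈ SM w X, 1 / (s : ℝ) * (1 + Real.log s / L)) := by
    have htL : 0 ≤ 1 + t / L := by positivity
    have h8' : (1 - 1 / L) * (1 + t / L) ≤
        V w * ∑ s ∈ SM w X, 1 / (s : ℝ) * (1 + Real.log s / L) := by
      calc (1 - 1 / L) * (1 + t / L) ≤ (V w * ((V w)⁻¹ - 1 / L)) * (1 + t / L) :=
            mul_le_mul_of_nonneg_right h6 htL
        _ = V w * (((V w)⁻¹ - 1 / L) * (1 + t / L)) := by ring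
        _ ≤ _ := mul_le_mul_of_nonneg_left s4 hV0.le
    apply mul_le_mul hκ1 h8' (mul_nonneg h1L htL) hκ0
  have h9 : 1 + (t - 4) / L ≤ (1 - 1 / L) * ((1 - 1 / L) * (1 + t / L)) := by
    have hu0 : 0 ≤ t / L := by positivity
    have hu1 : t / L ≤ 1 := by
      rw [div_le_one hL0]
      exact ht1
    have hv0 : 0 < 1 / L := by positivity
    have e : (t - 4) / L = t / L - 4 * (1 / L) := by ring
    rw [e]
    set u := t / L
    set v := 1 / L
    have : (1 - v) * ((1 - v) * (1 + u)) - (1 + (u - 4 * v)) =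
        2 * v * (1 - u) + v ^ 2 * (1 + u) := by ring
    have h10 : 0 ≤ 2 * v * (1 - u) + v ^ 2 * (1 + u) := by
      have : 0 ≤ 1 - u := by linarith
      positivity
    linarith
  have h11 : V w * ((N / L) * ((1 - 4 * C / L ^ 2) *
      ∑ s ∈ SM w X, 1 / (s : ℝ) * (1 + Real.log s / L)) - (SM w X).card * (4 * z / L)) ≤
      V w * (R1 w z N).card := mul_le_mul_of_nonneg_left hR hV0.le
  refine le_trans ?_ h11
  have h12 : V w * ((SM w X).card * (4 * z / L)) ≤ N / L ^ 2 := by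
    calc V w * ((SM w X).card * (4 * z / L)) ≤ 1 * ((SM w X).card * (4 * z / L)) :=
          mul_le_mul_of_nonneg_right hV1 (by positivity)
      _ ≤ N / L ^ 2 := by rw [one_mul]; exact s5
  have h13 : (N / L) * (1 + (t - 4) / L) ≤ V w * ((N / L) * ((1 - 4 * C / L ^ 2) *
      ∑ s ∈ SM w X, 1 / (s : ℝ) * (1 + Real.log s / L))) := by
    have e : V w * ((N / L) * ((1 - 4 * C / L ^ 2) *
        ∑ s ∈ SM w X, 1 / (s : ℝ) * (1 + Real.log s / L))) =
        (N / L) * ((1 - 4 * C / L ^ 2) *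
        (V w * ∑ s ∈ SM w X, 1 / (s : ℝ) * (1 + Real.log s / L))) := by ring
    rw [e]
    exact mul_le_mul_of_nonneg_left (h9.trans h7) (by positivity)
  have e14 : (N / L) * (1 + (t - 5) / L) = (N / L) * (1 + (t - 4) / L) - N / L ^ 2 := by
    field_simp
    ring
  rw [e14]
  have e15 : V w * ((N / L) * ((1 - 4 * C / L ^ 2) *
      ∑ s ∈ SM w X, 1 / (s : ℝ) * (1 + Real.log s / L)) - (SM w X).card * (4 * z / L)) =
      V w * ((N / L) * ((1 - 4 * C / L ^ 2) *
      ∑ s ∈ SM w X, 1 / (s : ℝ) * (1 + Real.log s / L))) -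
      V w * ((SM w X).card * (4 * z / L)) := by ring
  rw [e15]
  linarith

end Pool.Agent.E290
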