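import Pool.Agent.Lib.MP_e290cc_nt.Cover
import Pool.Agent.Lib.MP_49b85e_nt.Rankin

set_option autoImplicit false

/-!
The number of integers up to `M` without prime factors in `(r1, x]`.
-/

namespace Pool.Agent.E290

open Finset

lemma log_four_le : Real.log 4 ≤ 2 := by
  have : Real.log 4 = 2 * Real.log 2 := by
    rw [show (4 : ℝ) = 2 ^ 2 by norm_num, Real.log_pow]; norm_num
  have h2' := Real.log_two_lt_d9
  linarith

lemma card_PR_le {x y : ℕ} {t : ℝ} (hx : 2 ≤ x) (ht : 0 ≤ t) (hy : (y : ℝ) ≤ t) :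
    ((PR x y).card : ℝ) ≤ 2 * t / Real.log x := by
  have hx2 : (2 : ℝ) ≤ x := by exact_mod_cast hx
  have hlog : 0 < Real.log x := Real.log_pos (by linarith)
  rw [le_div_iff₀ hlog]
  have h1 : ((PR x y).card : ℝ) * Real.log x ≤ ∑ q ∈ PR x y, Real.log q := by
    rw [← nsmul_eq_mul, ← sum_const]
    apply Finset.sum_le_sum
    intro q hq
    rw [mem_PR] at hq
    apply Real.log_le_log (by linarith)
    exact_mod_cast hq.1.le
  have h2 : ∑ q ∈ PR x y, Real.log q ≤ Chebyshev.theta y := by
    rw [Chebyshev.theta, Nat.floor_natCast]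
    apply Finset.sum_le_sum_of_subset_of_nonneg
    · intro q hq
      rw [mem_PR] at hq
      rw [mem_filter, mem_Ioc]
      exact ⟨⟨hq.2.2.pos, hq.2.1⟩, hq.2.2⟩
    · intro q hq _
      rw [mem_filter] at hq
      exact Real.log_nonneg (by exact_mod_cast hq.2.one_lt.le)
  have h3 := Chebyshev.theta_le_log4_mul_x (x := (y : ℝ)) (by positivity)
  have h4 : Real.log 4 * (y : ℝ) ≤ 2 * t := by
    have h5 : Real.log 4 * (y : ℝ) ≤ 2 * y := mul_le_mul_of_nonneg_right log_four_le (by positivity)
    linarith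
  linarith

/-- splitting according to whether there is a prime factor `> x` -/
theorem MM_card (r1 x M : ℕ) (hx : 1 ≤ x) :
    (MM r1 x M).card ≤ (SM r1 M).card + ∑ s ∈ Icc 1 (M / x), (PR x (M / s)).card := by
  classical
  have hsub : MM r1 x M ⊆ SM r1 M ∪
      ((Icc 1 (M / x)).sigma (fun s => PR x (M / s))).image
        (fun y : (_ : ℕ) × ℕ => y.1 * y.2) := by
    intro m hm
    unfold MM at hm
    rw [mem_R1] at hm
    obtain ⟨h1, h2, h3⟩ := hm
    rw [mem_union]
    by_cases hs : m ∈ Nat.smoothNumbers (r1 + 1)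
    · exact Or.inl (mem_SM.2 ⟨h1, h2, hs⟩)
    · right
      rw [Nat.mem_smoothNumbers'] at hs
      push Not at hs
      obtain ⟨t, ht, htm, htr⟩ := hs
      have htx : x < t := by
        by_contra hcon
        push Not at hcon
        exact h3 t ht (by omega) hcon htm
      obtain ⟨s, hs⟩ := htm
      rw [mem_image]
      refine ⟨⟨s, t⟩, ?_, by simp only; rw [hs, mul_comm]⟩
      rw [mem_sigma, mem_Icc]
      simp only
      have hs1 : 1 ≤ s := by
        rcases Nat.eq_zero_or_pos s with h0 | h0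
        · rw [h0, mul_zero] at hs
          omega
        · exact h0
      refine ⟨⟨hs1, ?_⟩, mem_PR.2 ⟨htx, ?_, ht⟩⟩
      · rw [Nat.le_div_iff_mul_le (by omega)]
        calc s * x ≤ s * t := Nat.mul_le_mul_left _ htx.le
          _ = m := by rw [hs, mul_comm]
          _ ≤ M := h2
      · rw [Nat.le_div_iff_mul_le hs1]
        rw [← hs]
        exact h2
  refine (card_le_card hsub).trans ((card_union_le _ _).trans ?_)
  apply Nat.add_le_add_left
  refine card_image_le.trans ?_
  rw [card_sigma]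

/-- the explicit bound -/
theorem MM_card_le (r1 x M : ℕ) (hx : 2 ≤ x) (hxM : x ≤ M) :
    ((MM r1 x M).card : ℝ) ≤ (SM r1 M).card +
      2 * M / Real.log x * (1 + Real.log (M / x)) := by
  have hx0 : (0 : ℝ) < x := by
    have : 0 < x := by omega
    exact_mod_cast this
  have hlog : 0 < Real.log x := Real.log_pos (by exact_mod_cast (by omega : 1 < x))
  have h1 : ((MM r1 x M).card : ℝ) ≤
      (SM r1 M).card + ∑ s ∈ Icc 1 (M / x), ((PR x (M / s)).card : ℝ) := by
    exact_mod_cast MM_card r1 x M (by omega)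
  refine h1.trans (add_le_add_right ?_ _)
  have h2 : ∀ s ∈ Icc 1 (M / x), ((PR x (M / s)).card : ℝ) ≤ 2 * M / Real.log x * (1 / (s : ℝ)) := by
    intro s hs
    rw [mem_Icc] at hs
    have hs0 : (0 : ℝ) < s := by exact_mod_cast hs.1
    have := card_PR_le (x := x) (y := M / s) (t := (M : ℝ) / s) hx (by positivity) Nat.cast_div_le
    refine this.trans (le_of_eq ?_)
    ring
  refine (Finset.sum_le_sum h2).trans ?_
  rw [← Finset.mul_sum]
  apply mul_le_mul_of_nonneg_left _ (by positivity)
  have h3 : (1 : ℝ) ≤ (M : ℝ) / x := by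
    rw [le_div_iff₀ hx0, one_mul]
    exact_mod_cast hxM
  have h4 := harmonic_floor_le_one_add_log ((M : ℝ) / x) h3
  rw [harmonic_eq_sum_Icc] at h4
  have h5 : ⌊(M : ℝ) / x⌋₊ = M / x := by rw [Nat.floor_div_natCast, Nat.floor_natCast]
  rw [h5] at h4
  push_cast at h4
  refine le_trans (le_of_eq ?_) h4
  apply Finset.sum_congr rfl
  intro s _
  rw [one_div]

end Pool.Agent.E290
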