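import Pool.Agent.Lib.MP_e290cc_nt.Cover
import Pool.Agent.Lib.MP_e290cc_nt.Mcount

set_option autoImplicit false

/-!
The cost of the cheapest residue class modulo a large prime, with explicit hypotheses.
-/

namespace Pool.Agent.E290

open Finset

lemma prod_PR_le (r1 x : ℕ) : ∏ r ∈ PR r1 x, r ≤ 4 ^ x := by
  classical
  refine le_trans ?_ (primorial_le_four_pow x)
  unfold primorial
  apply Finset.prod_le_prod_of_subset_of_one_le'
  · intro r hr
    rw [mem_PR] at hr
    rw [mem_filter, mem_range]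
    exact ⟨by omega, hr.2.2⟩
  · intro r hr _
    rw [mem_filter] at hr
    exact hr.2.one_lt.le

lemma log_four_le' : Real.log 4 ≤ 7 / 5 := by
  have h : Real.log 4 = 2 * Real.log 2 := by
    rw [show (4 : ℝ) = 2 ^ 2 by norm_num, Real.log_pow]
    norm_num
  have := Real.log_two_lt_d9
  rw [h]
  linarith

lemma four_pow_le {x : ℕ} {L : ℝ} (hx : (x : ℝ) ≤ L / 4) :
    (4 : ℝ) ^ x ≤ Real.exp (7 / 20 * L) := by
  have h1 : (4 : ℝ) ^ x = Real.exp (x * Real.log 4) := by
    rw [mul_comm, Real.exp_mul, Real.exp_log (by norm_num), Real.rpow_natCast]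
  rw [h1]
  apply Real.exp_le_exp.2
  have h2 := log_four_le'
  have h3 : (0 : ℝ) ≤ x := by positivity
  have h4 : 0 ≤ Real.log 4 := Real.log_nonneg (by norm_num)
  have : (x : ℝ) * Real.log 4 ≤ (L / 4) * (7 / 5) := by
    apply mul_le_mul hx h2 h4
    linarith
  linarith

/-- the quotient `p / Q` is at least `√N` -/
lemma J_ge {N p r1 x : ℕ} {L D : ℝ} (hLN : L = Real.log N) (hN : 1 ≤ N) (hL : 1 ≤ L)
    (hD : 0 < D) (hDL : D ≤ L)
    (hx : (x : ℝ) ≤ L / 4) (hp : N / (L * D) ≤ (p : ℝ))
    (hbig : 2 * L ^ 2 * Real.exp (L / 2) ≤ Real.exp (13 / 20 * L)) :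
    Real.exp (L / 2) ≤ ((p / (∏ r ∈ PR r1 x, r) : ℕ) : ℝ) := by
  set Q : ℕ := ∏ r ∈ PR r1 x, r with hQ
  have hQpos : 0 < Q := Finset.prod_pos fun r hr => (mem_PR.1 hr).2.2.pos
  have hQ0 : (0 : ℝ) < Q := by exact_mod_cast hQpos
  have hN0 : (0 : ℝ) < N := by exact_mod_cast hN
  have hQle : (Q : ℝ) ≤ Real.exp (7 / 20 * L) := by
    have h1 : (Q : ℝ) ≤ (4 : ℝ) ^ x := by exact_mod_cast prod_PR_le r1 x
    exact h1.trans (four_pow_le hx)
  have hNe : (N : ℝ) = Real.exp L := by rw [hLN, Real.exp_log hN0]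
  have h1 : (p : ℝ) / Q - 1 ≤ ((p / Q : ℕ) : ℝ) := by
    have h2 : p < Q * (p / Q + 1) := Nat.lt_mul_div_succ p hQpos
    have h3 : (p : ℝ) < Q * ((p / Q : ℕ) + 1) := by exact_mod_cast h2
    have h4 : (p : ℝ) / Q < ((p / Q : ℕ) : ℝ) + 1 := by
      rw [div_lt_iff₀ hQ0]
      linarith
    linarith
  have h2 : 2 * Real.exp (L / 2) ≤ (p : ℝ) / Q := by
    rw [le_div_iff₀ hQ0]
    calc 2 * Real.exp (L / 2) * Q ≤ 2 * Real.exp (L / 2) * Real.exp (7 / 20 * L) :=
          mul_le_mul_of_nonneg_left hQle (by positivity)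
      _ ≤ N / (L * D) := by
          rw [le_div_iff₀ (by positivity), hNe]
          calc 2 * Real.exp (L / 2) * Real.exp (7 / 20 * L) * (L * D)
              ≤ 2 * Real.exp (L / 2) * Real.exp (7 / 20 * L) * (L * L) := by
                apply mul_le_mul_of_nonneg_left _ (by positivity)
                exact mul_le_mul_of_nonneg_left hDL (by linarith)
            _ = (2 * L ^ 2 * Real.exp (L / 2)) * Real.exp (7 / 20 * L) := by ring
            _ ≤ Real.exp (13 / 20 * L) * Real.exp (7 / 20 * L) :=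
                mul_le_mul_of_nonneg_right hbig (by positivity)
            _ = Real.exp L := by
                rw [← Real.exp_add]
                congr 1
                ring
      _ ≤ p := hp
  have h3 : 1 ≤ Real.exp (L / 2) := Real.one_le_exp (by linarith)
  linarith

/-- the product over the primes between `r1` and `x` -/
lemma exp_sum_le {C2 : ℝ} (hC20 : 0 ≤ C2)
    (hC2 : ∀ a b : ℕ, 2 ≤ a → a ≤ b → ∑ p ∈ (Ioc a b).filter Nat.Prime, (1 : ℝ) / p ≤
      Real.log (Real.log b / Real.log a) + C2 / Real.log a)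
    {r1 x : ℕ} {L lam E2 : ℝ} (hlL : lam = Real.log L) (hL : 1 ≤ L) (hE2 : 2 ≤ E2)
    (hr1 : Real.exp E2 - 1 ≤ r1) (hr1x : r1 ≤ x) (hx : (x : ℝ) ≤ L / 4) (hlam : 0 < lam) :
    Real.exp (∑ r ∈ PR r1 x, (1 : ℝ) / r) ≤ 2 * (lam / E2) * Real.exp C2 := by
  have he : Real.exp (E2 / 2) ≤ r1 := by
    have h1 : Real.exp E2 = Real.exp (E2 / 2) * Real.exp (E2 / 2) := by
      rw [← Real.exp_add]
      congr 1
      ring
    have h2 : 2 ≤ Real.exp (E2 / 2) := by
      have := Real.add_one_le_exp (E2 / 2)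
      linarith
    nlinarith
  have hr2 : (2 : ℝ) ≤ r1 := by
    have := Real.add_one_le_exp (E2 / 2)
    linarith
  have hr2' : 2 ≤ r1 := by exact_mod_cast hr2
  have hlogr : E2 / 2 ≤ Real.log r1 := by
    have := Real.log_le_log (Real.exp_pos _) he
    rwa [Real.log_exp] at this
  have hlogr0 : 0 < Real.log r1 := by linarith
  have hx2 : (2 : ℝ) ≤ x := by
    have : (r1 : ℝ) ≤ x := by exact_mod_cast hr1x
    linarith
  have hlogx : Real.log x ≤ lam := by
    rw [hlL]
    apply Real.log_le_log (by linarith)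
    linarith
  have hlogx0 : 0 < Real.log x := Real.log_pos (by linarith)
  have h1 := hC2 r1 x hr2' hr1x
  have h2 : Real.exp (∑ r ∈ PR r1 x, (1 : ℝ) / r) ≤
      Real.exp (Real.log (Real.log x / Real.log r1) + C2 / Real.log r1) :=
    Real.exp_le_exp.2 h1
  refine h2.trans ?_
  rw [Real.exp_add, Real.exp_log (by positivity)]
  apply mul_le_mul _ _ (by positivity) (by positivity)
  · calc Real.log x / Real.log r1 ≤ lam / (E2 / 2) := by
          apply div_le_div₀ hlam.le hlogx (by linarith) hlogr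
      _ = 2 * (lam / E2) := by
          field_simp
  · apply Real.exp_le_exp.2
    apply div_le_self hC20
    linarith

/-- the number of possible cofactors -/
lemma MM_le {N p z Z r1 x : ℕ} {L lam E1 : ℝ} (hlL : lam = Real.log L) (hL0 : 16 ≤ L)
    (hlam : 6 ≤ lam) (hE1 : 1 ≤ E1)
    (hz : N / (L * Real.exp E1) ≤ (z : ℝ)) (hZ : (Z : ℝ) ≤ 4 * N / L)
    (hx : (x : ℝ) ≤ L / 4) (hx' : L / 4 - 1 ≤ x)
    (hsm : ∀ M : ℕ, L / 4 ≤ M → ((SM r1 M).card : ℝ) ≤ M * (E1 / lam))
    (hp : p ∈ PR z Z) :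
    ((MM r1 x (N / p + 1)).card : ℝ) ≤ 42 * ((N : ℝ) / p) * (E1 / lam) := by
  rw [mem_PR] at hp
  obtain ⟨hp1, hp2, hp3⟩ := hp
  have hp0 : (0 : ℝ) < p := by exact_mod_cast hp3.pos
  have hpZ : (p : ℝ) ≤ Z := by exact_mod_cast hp2
  have hpz : (z : ℝ) ≤ p := by exact_mod_cast hp1.le
  have hLpos : 0 < L := by linarith
  have hpN : (p : ℝ) * L ≤ 4 * N := by
    have := hpZ.trans hZ
    rwa [le_div_iff₀ hLpos] at this
  have hN0 : (0 : ℝ) < N := by nlinarith
  have hratio : L / 4 ≤ (N : ℝ) / p := by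
    rw [le_div_iff₀ hp0]
    linarith
  set M : ℕ := N / p + 1 with hM
  have hMlo : (N : ℝ) / p ≤ M := by
    have h2 : N < p * (N / p + 1) := Nat.lt_mul_div_succ N hp3.pos
    have h3 : (N : ℝ) < p * M := by
      rw [hM]
      exact_mod_cast h2
    rw [div_le_iff₀ hp0]
    linarith
  have hMhi : (M : ℝ) ≤ 2 * (N / p) := by
    have h1 : ((N / p : ℕ) : ℝ) ≤ N / p := Nat.cast_div_le
    rw [hM]
    push_cast
    linarith
  have hML : (M : ℝ) ≤ 2 * (L * Real.exp E1) := by
    refine hMhi.trans ?_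
    apply mul_le_mul_of_nonneg_left _ (by norm_num)
    rw [div_le_iff₀ hp0]
    have h1 : (N : ℝ) ≤ (L * Real.exp E1) * z := by
      have := hz
      rw [div_le_iff₀ (by positivity)] at this
      linarith
    refine h1.trans ?_
    exact mul_le_mul_of_nonneg_left hpz (by positivity)
  have hx8 : L / 8 ≤ x := by linarith
  have hx2 : 2 ≤ x := by
    have : (2 : ℝ) ≤ x := by linarith
    exact_mod_cast this
  have hx0 : (0 : ℝ) < x := by linarith
  have hxM : x ≤ M := by
    have : (x : ℝ) ≤ M := by linarith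
    exact_mod_cast this
  have hlogx : lam / 2 ≤ Real.log x := by
    have h1 : Real.log (L / 8) ≤ Real.log x := Real.log_le_log (by positivity) hx8
    have h8 : Real.log 8 = 3 * Real.log 2 := by
      rw [show (8 : ℝ) = 2 ^ 3 by norm_num, Real.log_pow]
      norm_num
    rw [Real.log_div (by linarith) (by norm_num), ← hlL, h8] at h1
    have := Real.log_two_lt_d9
    linarith
  have h1 := MM_card_le r1 x M hx2 hxM
  have h2 := hsm M (by linarith)
  have hlogM : Real.log ((M : ℝ) / x) ≤ 3 + E1 := by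
    have hM0 : (0 : ℝ) < M := by linarith [show (0 : ℝ) < N / p by positivity]
    have e1 : (M : ℝ) / x ≤ 16 * Real.exp E1 := by
      rw [div_le_iff₀ hx0]
      calc (M : ℝ) ≤ 2 * (L * Real.exp E1) := hML
        _ = 16 * Real.exp E1 * (L / 8) := by ring
        _ ≤ 16 * Real.exp E1 * x := mul_le_mul_of_nonneg_left hx8 (by positivity)
    have e2 := Real.log_le_log (by positivity) e1
    rw [Real.log_mul (by norm_num) (by positivity), Real.log_exp] at e2
    have e3 : Real.log 16 = 4 * Real.log 2 := by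
      rw [show (16 : ℝ) = 2 ^ 4 by norm_num, Real.log_pow]
      norm_num
    have := Real.log_two_lt_d9
    linarith
  have h3 : 2 * M / Real.log x * (1 + Real.log (M / x)) ≤ 20 * M * (E1 / lam) := by
    have hlogx0 : 0 < Real.log x := by linarith
    calc 2 * M / Real.log x * (1 + Real.log (M / x)) ≤ 2 * M / (lam / 2) * (5 * E1) := by
          apply mul_le_mul
          · apply div_le_div_of_nonneg_left (by positivity) (by linarith) hlogx
          · linarith
          · have hh : (1 : ℝ) ≤ (M : ℝ) / x := by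
              rw [le_div_iff₀ hx0, one_mul]
              exact_mod_cast hxM
            have := Real.log_nonneg hh
            linarith
          · have : 0 < lam := by linarith
            positivity
      _ = 20 * M * (E1 / lam) := by
          have : lam ≠ 0 := by linarith
          field_simp
          ring
  have h4 : ((MM r1 x M).card : ℝ) ≤ 21 * M * (E1 / lam) := by
    have : (21 : ℝ) * M * (E1 / lam) = M * (E1 / lam) + 20 * M * (E1 / lam) := by ring
    linarith
  refine h4.trans ?_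
  have hE : 0 ≤ E1 / lam := by
    have : 0 < lam := by linarith
    positivity
  calc 21 * (M : ℝ) * (E1 / lam) ≤ 21 * (2 * (N / p)) * (E1 / lam) := by
        apply mul_le_mul_of_nonneg_right _ hE
        linarith
    _ = 42 * ((N : ℝ) / p) * (E1 / lam) := by ring

end Pool.Agent.E290
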