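import Pool.Agent.Lib.MP_e290cc_nt.CoreB

set_option autoImplicit false

/-!
The total cost of the large primes, with explicit hypotheses.
-/

namespace Pool.Agent.E290

open Finset

lemma sum_inv_PR {C2 : ℝ} (hC20 : 0 ≤ C2)
    (hC2 : ∀ a b : ℕ, 2 ≤ a → a ≤ b → ∑ p ∈ (Ioc a b).filter Nat.Prime, (1 : ℝ) / p ≤
      Real.log (Real.log b / Real.log a) + C2 / Real.log a)
    {N z Z : ℕ} {L E1 : ℝ} (hLN : L = Real.log N) (hN : 1 ≤ N) (hL : 16 ≤ L) (hE1 : 1 ≤ E1)
    (hz2 : 2 ≤ z) (hzN : N ≤ z ^ 2)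
    (hz : N / (L * Real.exp E1) ≤ (z : ℝ)) (hZ : (Z : ℝ) ≤ 4 * N / L) :
    ∑ p ∈ PR z Z, (1 : ℝ) / p ≤ (6 + 2 * C2) * (E1 / L) := by
  have hL0 : 0 < L := by linarith
  have hN0 : (0 : ℝ) < N := by exact_mod_cast hN
  by_cases hzZ : z ≤ Z
  · have h1 := hC2 z Z hz2 hzZ
    have hz0 : (0 : ℝ) < z := by
      have : 0 < z := by omega
      exact_mod_cast this
    have hZ0 : (0 : ℝ) < Z := by
      have : 0 < Z := by omega
      exact_mod_cast this
    have hLz : L / 2 ≤ Real.log z := by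
      have : L ≤ Real.log ((z : ℝ) ^ 2) := by
        rw [hLN]
        exact Real.log_le_log hN0 (by exact_mod_cast hzN)
      rw [Real.log_pow] at this
      push_cast at this
      linarith
    have hLz0 : 0 < Real.log z := by linarith
    have hZz : (Z : ℝ) ≤ 4 * Real.exp E1 * z := by
      refine hZ.trans ?_
      have h2 : 4 * (N : ℝ) / L = 4 * Real.exp E1 * (N / (L * Real.exp E1)) := by
        field_simp
      rw [h2]
      exact mul_le_mul_of_nonneg_left hz (by positivity)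
    have hlogZ : Real.log Z ≤ Real.log z + (2 + E1) := by
      have h2 := Real.log_le_log hZ0 hZz
      rw [Real.log_mul (by positivity) (by positivity), Real.log_mul (by norm_num) (by positivity),
        Real.log_exp] at h2
      have := log_four_le'
      linarith
    have h3 : Real.log (Real.log Z / Real.log z) ≤ (2 + E1) / Real.log z := by
      have h4 : Real.log Z / Real.log z ≤ 1 + (2 + E1) / Real.log z := by
        rw [div_le_iff₀ hLz0, add_mul, div_mul_cancel₀ _ hLz0.ne']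
        linarith
      have h5 : 0 < Real.log Z / Real.log z := by
        apply div_pos _ hLz0
        have : Real.log z ≤ Real.log Z := Real.log_le_log hz0 (by exact_mod_cast hzZ)
        linarith
      have h6 := Real.log_le_sub_one_of_pos h5
      linarith
    have h7 : (2 + E1) / Real.log z ≤ (2 + E1) / (L / 2) :=
      div_le_div_of_nonneg_left (by linarith) (by linarith) hLz
    have h8 : C2 / Real.log z ≤ C2 / (L / 2) :=
      div_le_div_of_nonneg_left hC20 (by linarith) hLz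
    have h9 : (2 + E1) / (L / 2) + C2 / (L / 2) ≤ (6 + 2 * C2) * (E1 / L) := by
      have e : (2 + E1) / (L / 2) + C2 / (L / 2) = (2 * (2 + E1) + 2 * C2) / L := by
        field_simp
      have e2 : (6 + 2 * C2) * (E1 / L) = ((6 + 2 * C2) * E1) / L := by ring
      rw [e, e2]
      apply div_le_div_of_nonneg_right _ hL0.le
      nlinarith
    have h10 : ∑ p ∈ PR z Z, (1 : ℝ) / p ≤
        Real.log (Real.log Z / Real.log z) + C2 / Real.log z := h1
    linarith
  · have : PR z Z = ∅ := by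
      unfold PR
      rw [Finset.Ioc_eq_empty (by omega), Finset.filter_empty]
    rw [this, Finset.sum_empty]
    positivity

/-- total cost of the large primes -/
theorem coreC {C2 : ℝ} (hC20 : 0 ≤ C2)
    (hC2 : ∀ a b : ℕ, 2 ≤ a → a ≤ b → ∑ p ∈ (Ioc a b).filter Nat.Prime, (1 : ℝ) / p ≤
      Real.log (Real.log b / Real.log a) + C2 / Real.log a) :
    ∃ K : ℝ, 0 < K ∧ ∃ J0 : ℕ, ∀ (w r1 x z Z N : ℕ) (a : ℤ) (S : Finset ℤ) (L lam E1 E2 : ℝ),
      L = Real.log N → lam = Real.log L → 16 ≤ L → 6 ≤ lam → 1 ≤ E1 → E1 ≤ lam → 2 ≤ E2 →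
      E1 ^ 2 ≤ E2 → Real.exp E2 - 1 ≤ r1 → r1 ≤ x → L / 4 - 1 ≤ x → (x : ℝ) ≤ L / 4 →
      N / (L * Real.exp E1) ≤ (z : ℝ) → (Z : ℝ) ≤ 4 * N / L → 2 ≤ z → w ≤ r1 → x ≤ z →
      (∀ M : ℕ, L / 4 ≤ M → ((SM r1 M).card : ℝ) ≤ M * (E1 / lam)) →
      (J0 : ℝ) ≤ Real.exp (L / 2) → 2 * L ^ 2 * Real.exp (L / 2) ≤ Real.exp (13 / 20 * L) →
      N ≤ z ^ 2 → 1 ≤ N → S ⊆ Icc (-(N : ℤ)) N → Sifted w z a S →
      ∃ b : ℕ → ℤ, (S.card : ℝ) - K * (N / L ^ 2) ≤
        ((S.filter (fun n => ∀ p ∈ PR z Z, ¬ (p : ℤ) ∣ n - b p)).card : ℝ) := by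
  classical
  obtain ⟨C, hC, J0, hcheap⟩ := cheap_class
  refine ⟨C * (168 * Real.exp C2) * (6 + 2 * C2), by positivity, J0, ?_⟩
  intro w r1 x z Z N a S L lam E1 E2 hLN hlL hL hlam hE1 hE1' hE2 hEE hr1 hr1x hx' hx hz hZ hz2
    hwr hxz hsm hJ0 hbig hzN hN hSN hsift
  have hL0 : 0 < L := by linarith
  have hN0 : (0 : ℝ) < N := by exact_mod_cast hN
  have hlam0 : 0 < lam := by linarith
  have hexpE1 : Real.exp E1 ≤ L := by
    have h1 : Real.exp E1 ≤ Real.exp lam := Real.exp_le_exp.2 hE1'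
    rwa [hlL, Real.exp_log hL0] at h1
  have key : ∀ p ∈ PR z Z, ∃ b : ℤ, ((S.filter (fun n => (p : ℤ) ∣ n - b)).card : ℝ) ≤
      (C * (168 * Real.exp C2) * (N / L) * (E1 / E2)) * (1 / (p : ℝ)) := by
    intro p hp
    have hp' := mem_PR.1 hp
    obtain ⟨hp1, hp2, hp3⟩ := hp'
    have hp0 : (0 : ℝ) < p := by exact_mod_cast hp3.pos
    have hpz : (z : ℝ) ≤ p := by exact_mod_cast hp1.le
    have hJ := J_ge (p := p) (r1 := r1) (x := x) (D := Real.exp E1) hLN hN (by linarith)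
      (Real.exp_pos _) hexpE1 hx (hz.trans hpz) hbig
    set J : ℕ := p / ∏ r ∈ PR r1 x, r with hJdef
    have hJ1 : J0 ≤ J := by
      have : (J0 : ℝ) ≤ J := hJ0.trans hJ
      exact_mod_cast this
    have hJ2 : 2 ≤ J := by
      have h1 := Real.add_one_le_exp (L / 2)
      have : (2 : ℝ) ≤ J := by linarith
      exact_mod_cast this
    have hJQ : J * (∏ r ∈ PR r1 x, r) ≤ p := Nat.div_mul_le_self _ _
    have hJz : J ≤ z ^ 2 := by
      have h1 : J ≤ p := Nat.div_le_self _ _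
      have h2 : (p : ℝ) ≤ N := by
        have h3 : (p : ℝ) ≤ Z := by exact_mod_cast hp2
        have h4 : 4 * (N : ℝ) / L ≤ N := by
          rw [div_le_iff₀ hL0]
          nlinarith
        linarith
      have h3 : p ≤ N := by exact_mod_cast h2
      omega
    obtain ⟨b, hb⟩ := hcheap w r1 x z N p J a S hJ1 hJ2 hwr hxz hJQ hJz hp3 hSN hsift hN
    refine ⟨b, hb.trans ?_⟩
    have hMM := MM_le (N := N) (p := p) (z := z) (Z := Z) (r1 := r1) (x := x) hlL hL hlam hE1 hz
      hZ hx hx' hsm hp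
    have hexp := exp_sum_le hC20 hC2 (r1 := r1) (x := x) hlL (by linarith) hE2 hr1 hr1x hx hlam0
    have hlogJ : L / 2 ≤ Real.log J := by
      have := Real.log_le_log (Real.exp_pos _) hJ
      rwa [Real.log_exp] at this
    have hE20 : 0 < E2 := by linarith
    calc C * ((MM r1 x (N / p + 1)).card / Real.log J) *
          Real.exp (∑ r ∈ PR r1 x, (1 : ℝ) / r)
        ≤ C * ((42 * ((N : ℝ) / p) * (E1 / lam)) / (L / 2)) * (2 * (lam / E2) * Real.exp C2) := by
          apply mul_le_mul _ hexp (by positivity) (by positivity)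
          apply mul_le_mul_of_nonneg_left _ hC.le
          exact div_le_div₀ (by positivity) hMM (by linarith) hlogJ
      _ = (C * (168 * Real.exp C2) * (N / L) * (E1 / E2)) * (1 / (p : ℝ)) := by
          field_simp
          ring
  choose! b hb using key
  refine ⟨b, ?_⟩
  have hE20 : 0 < E2 := by linarith
  have hsplit : S.card ≤ (S.filter (fun n => ∀ p ∈ PR z Z, ¬ (p : ℤ) ∣ n - b p)).card +
      ∑ p ∈ PR z Z, (S.filter (fun n => (p : ℤ) ∣ n - b p)).card := by
    have h1 : S ⊆ (S.filter (fun n => ∀ p ∈ PR z Z, ¬ (p : ℤ) ∣ n - b p)) ∪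
        (PR z Z).biUnion (fun p => S.filter (fun n => (p : ℤ) ∣ n - b p)) := by
      intro n hn
      rw [mem_union, mem_filter, mem_biUnion]
      by_cases h : ∀ p ∈ PR z Z, ¬ (p : ℤ) ∣ n - b p
      · exact Or.inl ⟨hn, h⟩
      · right
        push Not at h
        obtain ⟨p, hp, hd⟩ := h
        exact ⟨p, hp, mem_filter.2 ⟨hn, hd⟩⟩
    refine (card_le_card h1).trans ((card_union_le _ _).trans ?_)
    exact Nat.add_le_add_left card_biUnion_le _
  have hsplit' : (S.card : ℝ) ≤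
      ((S.filter (fun n => ∀ p ∈ PR z Z, ¬ (p : ℤ) ∣ n - b p)).card : ℝ) +
      ∑ p ∈ PR z Z, ((S.filter (fun n => (p : ℤ) ∣ n - b p)).card : ℝ) := by
    exact_mod_cast hsplit
  have hsum : ∑ p ∈ PR z Z, ((S.filter (fun n => (p : ℤ) ∣ n - b p)).card : ℝ) ≤
      C * (168 * Real.exp C2) * (6 + 2 * C2) * (N / L ^ 2) := by
    refine (Finset.sum_le_sum hb).trans ?_
    rw [← Finset.mul_sum]
    have hs := sum_inv_PR hC20 hC2 (z := z) (Z := Z) hLN hN hL hE1 hz2 hzN hz hZ
    calc C * (168 * Real.exp C2) * (N / L) * (E1 / E2) * ∑ p ∈ PR z Z, (1 : ℝ) / p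
        ≤ C * (168 * Real.exp C2) * (N / L) * (E1 / E2) * ((6 + 2 * C2) * (E1 / L)) :=
          mul_le_mul_of_nonneg_left hs (by positivity)
      _ = C * (168 * Real.exp C2) * (6 + 2 * C2) * (N / L ^ 2) * (E1 ^ 2 / E2) := by
          field_simp
      _ ≤ C * (168 * Real.exp C2) * (6 + 2 * C2) * (N / L ^ 2) * 1 := by
          apply mul_le_mul_of_nonneg_left _ (by positivity)
          rw [div_le_one hE20]
          exact hEE
      _ = _ := mul_one _
  linarith

end Pool.Agent.E290
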