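import Pool.Agent.Lib.MP_e290cc_nt.Avg
import Pool.Agent.Lib.MP_bca3e5_nt.Up

set_option autoImplicit false

/-!
The cheapest class modulo a large prime.
-/

namespace Pool.Agent.E290

open Finset

/-- integers in `[1, M]` without prime factors in `(r1, x]` -/
noncomputable def MM (r1 x M : ℕ) : Finset ℕ := R1 r1 x M

/-- the excluded class of a small prime: `a` for `r ≤ w`, `0` otherwise -/
def al (w : ℕ) (a : ℤ) (r : ℕ) : ℤ := if r ≤ w then a else 0

lemma Sifted.not_dvd {w z : ℕ} {a : ℤ} {S : Finset ℤ} (h : Sifted w z a S) {n : ℤ} (hn : n ∈ S)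
    {r : ℕ} (hr : r.Prime) (hrz : r ≤ z) : ¬ (r : ℤ) ∣ n - al w a r := by
  unfold al
  split_ifs with h1
  · exact (h n hn).2.2 r hr h1
  · rw [sub_zero]
    exact (h n hn).2.1 r hr (by omega) hrz

/-- the sieve predicate in the variable `j` -/
def Qp (w : ℕ) (a : ℤ) (p Q : ℕ) (m : ℤ) (r : ℕ) (j : ℕ) : Prop :=
  ¬ r ∣ Q * p ∧ (r : ℤ) ∣ Q * j + p * m - al w a r

lemma Qp_mod (w : ℕ) (a : ℤ) (p Q : ℕ) (m : ℤ) (r j : ℕ) :
    Qp w a p Q m r (j % r) ↔ Qp w a p Q m r j := by
  unfold Qp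
  apply and_congr_right
  intro _
  have h : (Q : ℤ) * j + p * m - al w a r =
      ((Q : ℤ) * (j % r : ℕ) + p * m - al w a r) + r * (Q * (j / r : ℕ)) := by
    have := Nat.mod_add_div j r
    have h2 : (j : ℤ) = (j % r : ℕ) + r * (j / r : ℕ) := by exact_mod_cast this.symm
    rw [h2]
    push_cast
    ring_nf
  rw [h]
  exact (Int.dvd_add_left (dvd_mul_right _ _)).symm

open Classical in
lemma om_le_one (w : ℕ) (a : ℤ) (p Q : ℕ) (m : ℤ) (r : ℕ) (hr : r.Prime) :
    Pool.Agent.MPbca.om (Qp w a p Q m) r ≤ 1 := by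
  unfold Pool.Agent.MPbca.om
  rw [Finset.card_le_one]
  intro j hj j' hj'
  rw [mem_filter, mem_range] at hj hj'
  obtain ⟨hjr, hn, hd⟩ := hj
  obtain ⟨hjr', _, hd'⟩ := hj'
  have h1 : (r : ℤ) ∣ Q * ((j : ℤ) - j') := by
    have := dvd_sub hd hd'
    have e : (Q : ℤ) * j + p * m - al w a r - (Q * j' + p * m - al w a r) = Q * ((j : ℤ) - j') := by
      ring
    rwa [e] at this
  have hrp : Prime (r : ℤ) := Nat.prime_iff_prime_int.1 hr
  rcases hrp.dvd_or_dvd h1 with h2 | h2
  · exfalso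
    apply hn
    have : r ∣ Q := by exact_mod_cast h2
    exact this.mul_right p
  · have h3 : ((j : ℤ) - j') = 0 := by
      apply Int.eq_zero_of_abs_lt_dvd h2
      rw [abs_lt]
      constructor <;> omega
    omega

open Classical in
lemma one_le_om (w : ℕ) (a : ℤ) (p Q : ℕ) (m : ℤ) (r : ℕ) (hr : r.Prime) (hn : ¬ r ∣ Q * p) :
    1 ≤ Pool.Agent.MPbca.om (Qp w a p Q m) r := by
  have : Fact r.Prime := ⟨hr⟩
  have hQ : (Q : ZMod r) ≠ 0 := by
    intro h
    rw [ZMod.natCast_eq_zero_iff] at h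
    exact hn (h.mul_right p)
  unfold Pool.Agent.MPbca.om
  rw [Nat.one_le_iff_ne_zero, Ne, Finset.card_eq_zero, ← Ne, ← Finset.nonempty_iff_ne_empty]
  set u : ZMod r := ((al w a r - p * m : ℤ) : ZMod r) * (Q : ZMod r)⁻¹ with hu
  refine ⟨u.val, ?_⟩
  rw [mem_filter, mem_range]
  refine ⟨ZMod.val_lt u, hn, ?_⟩
  rw [← ZMod.intCast_zmod_eq_zero_iff_dvd]
  push_cast
  rw [ZMod.natCast_zmod_val, hu]
  push_cast
  field_simp
  ring

/-- **The cheapest class modulo `p`.** -/
theorem cheap_class : ∃ C : ℝ, 0 < C ∧ ∃ J0 : ℕ, ∀ (w r1 x z N p J : ℕ) (a : ℤ) (S : Finset ℤ),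
    J0 ≤ J → 2 ≤ J → w ≤ r1 → x ≤ z → J * (∏ r ∈ PR r1 x, r) ≤ p → J ≤ z ^ 2 → p.Prime →
    S ⊆ Icc (-(N : ℤ)) N → Sifted w z a S → 1 ≤ N →
    ∃ b : ℤ, ((S.filter (fun n => (p : ℤ) ∣ n - b)).card : ℝ) ≤
      C * ((MM r1 x (N / p + 1)).card / Real.log J) *
        Real.exp (∑ r ∈ PR r1 x, (1 : ℝ) / r) := by
  classical
  obtain ⟨C, hC, X0, hup⟩ := Pool.Agent.MPbca.upper_uniform 1 le_rfl
  refine ⟨3 * C * Real.exp 1, by positivity, X0, ?_⟩
  intro w r1 x z N p J a S hJ0 hJ2 hwr hxz hJQ hJz hp hSN hsift hN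
  set Q : ℕ := ∏ r ∈ PR r1 x, r with hQ
  set M : ℕ := N / p + 1 with hM
  have hQpos : 0 < Q := Finset.prod_pos fun r hr => (mem_PR.1 hr).2.2.pos
  have hJpos : (0 : ℝ) < J := by
    have : 0 < J := by omega
    exact_mod_cast this
  have hlogJ : 0 < Real.log J := Real.log_pos (by
    have : 1 < J := by omega
    exact_mod_cast this)
  set EX : ℝ := Real.exp (∑ r ∈ PR r1 x, (1 : ℝ) / r) with hEX
  -- divisors of Q
  have hdQ : ∀ r : ℕ, r.Prime → r ∣ Q → r ∈ PR r1 x := by
    intro r hr hd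
    rw [hQ] at hd
    obtain ⟨q, hq, hd2⟩ := (Prime.dvd_finsetProd_iff hr.prime _).1 hd
    have : r = q := (Nat.prime_dvd_prime_iff_eq hr (mem_PR.1 hq).2.2).1 hd2
    rw [this]
    exact hq
  -- the possible values of m
  set MS : Finset ℤ := (insert 0 ((MM r1 x M).image (fun n : ℕ => (n : ℤ)))) ∪
    (MM r1 x M).image (fun n : ℕ => -(n : ℤ)) with hMS
  have h1M : 1 ∈ MM r1 x M := by
    unfold MM
    rw [mem_R1]
    refine ⟨le_rfl, Nat.le_add_left _ _, fun q hq _ _ hd => ?_⟩
    exact hq.one_lt.ne' (Nat.dvd_one.1 hd)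
  have hMScard : (MS.card : ℝ) ≤ 3 * (MM r1 x M).card := by
    have h1 : MS.card ≤ ((MM r1 x M).card + 1) + (MM r1 x M).card := by
      refine (card_union_le _ _).trans (add_le_add ?_ card_image_le)
      exact (card_insert_le _ _).trans (Nat.add_le_add_right card_image_le 1)
    have h2 : 1 ≤ (MM r1 x M).card := Finset.card_pos.2 ⟨1, h1M⟩
    have h3 : MS.card ≤ 3 * (MM r1 x M).card := by omega
    exact_mod_cast h3
  -- sieve bound for one m
  have hone : ∀ m : ℤ, (((Icc 1 J).filter (fun j : ℕ => (Q : ℤ) * j + p * m ∈ S)).card : ℝ) ≤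
      C * (J / Real.log J) * (EX * Real.exp 1) := by
    intro m
    have h := hup J hJ0 (Qp w a p Q m) (fun r j => Qp_mod w a p Q m r j)
      (fun r hr => om_le_one w a p Q m r hr)
      (fun r hr => lt_of_le_of_lt (om_le_one w a p Q m r hr) hr.one_lt)
      (insert p (PR r1 x)) (by
        intro r hr _ hbad
        apply one_le_om w a p Q m r hr
        intro hd
        rcases hr.dvd_mul.1 hd with h1 | h1
        · exact hbad (mem_insert_of_mem (hdQ r hr h1))
        · have : r = p := (Nat.prime_dvd_prime_iff_eq hr hp).1 h1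
          exact hbad (by rw [this]; exact mem_insert_self _ _))
      ((Icc 1 J).filter (fun j : ℕ => (Q : ℤ) * j + p * m ∈ S)) (filter_subset _ _) (by
        intro j hj r hr hrJ hq
        rw [mem_filter] at hj
        have hrz : r ≤ z := by
          have : r ^ 2 ≤ z ^ 2 := hrJ.trans hJz
          exact (Nat.pow_le_pow_iff_left (by norm_num)).1 this
        exact hsift.not_dvd hj.2 hr hrz hq.2)
    refine h.trans ?_
    rw [pow_one, Nat.cast_one, one_mul]
    apply mul_le_mul_of_nonneg_left _ (by positivity)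
    rw [hEX, ← Real.exp_add]
    apply Real.exp_le_exp.2
    have hpinv : (1 : ℝ) / p ≤ 1 := by
      rw [div_le_one (by exact_mod_cast hp.pos)]
      exact_mod_cast hp.one_lt.le
    by_cases hmem : p ∈ PR r1 x
    · rw [Finset.insert_eq_of_mem hmem]
      linarith
    · rw [Finset.sum_insert hmem]
      linarith
  -- double counting
  have hcount : ∑ j ∈ Icc 1 J, (S.filter (fun n => (p : ℤ) ∣ n - Q * (j : ℤ))).card ≤
      ∑ m ∈ MS, ((Icc 1 J).filter (fun j : ℕ => (Q : ℤ) * j + p * m ∈ S)).card := by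
    rw [← Finset.card_sigma, ← Finset.card_sigma]
    apply Finset.card_le_card_of_injOn
      (fun y : (_ : ℕ) × ℤ => (⟨(y.2 - Q * (y.1 : ℤ)) / p, y.1⟩ : (_ : ℤ) × ℕ))
    · rintro ⟨j, n⟩ hy
      simp only [coe_sigma, Set.mem_sigma_iff, mem_coe] at hy
      simp only [coe_sigma, Set.mem_sigma_iff, mem_coe]
      obtain ⟨hj, hn⟩ := hy
      rw [mem_filter] at hn
      obtain ⟨hnS, hd⟩ := hn
      have hj' := hj
      rw [mem_Icc] at hj
      obtain ⟨m, hm⟩ := hd
      have hp0 : (p : ℤ) ≠ 0 := by exact_mod_cast hp.ne_zero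
      have hppos : (0 : ℤ) < p := by exact_mod_cast hp.pos
      have hdiv : (n - Q * (j : ℤ)) / p = m := by
        rw [hm, Int.mul_ediv_cancel_left _ hp0]
      rw [hdiv]
      have hnm : (Q : ℤ) * j + p * m = n := by rw [← hm]; ring
      constructor
      · -- m ∈ MS
        have hnb := mem_Icc.1 (hSN hnS)
        have hQj : (Q : ℤ) * j ≤ p := by
          have h1 : Q * j ≤ Q * J := Nat.mul_le_mul_left _ hj.2
          have h2 : Q * j ≤ p := h1.trans (by rw [mul_comm]; exact hJQ)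
          exact_mod_cast h2
        have hQj0 : 0 ≤ (Q : ℤ) * j := by positivity
        have hNdiv : (N : ℤ) < p * (N / p : ℕ) + p := by
          have := Nat.lt_mul_div_succ N hp.pos
          have h2 : N < p * (N / p) + p := by
            calc N < p * (N / p + 1) := this
              _ = _ := by ring
          exact_mod_cast h2
        have hm1 : m ≤ M := by
          by_contra hcon
          push Not at hcon
          have h3 : (M : ℤ) + 1 ≤ m := hcon
          have h4 : (p : ℤ) * (M + 1) ≤ p * m := mul_le_mul_of_nonneg_left h3 hppos.le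
          rw [hM] at h4
          push_cast at h4 hNdiv
          nlinarith
        have hm2 : -(M : ℤ) ≤ m := by
          by_contra hcon
          push Not at hcon
          have h3 : m ≤ -(M : ℤ) - 1 := by omega
          have h4 : (p : ℤ) * m ≤ p * (-(M : ℤ) - 1) := mul_le_mul_of_nonneg_left h3 hppos.le
          rw [hM] at h4
          push_cast at h4 hNdiv
          nlinarith
        by_cases hm0 : m = 0
        · rw [hm0, hMS]
          exact mem_union_left _ (mem_insert_self _ _)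
        have habs : m.natAbs ∈ MM r1 x M := by
          unfold MM
          rw [mem_R1]
          refine ⟨by omega, by omega, ?_⟩
          intro r hr hr1 hrx hd
          have hd2 : (r : ℤ) ∣ m := Int.natCast_dvd.2 hd
          have hd3 : (r : ℤ) ∣ (Q : ℤ) := by
            have : r ∣ Q := Finset.dvd_prod_of_mem _ (mem_PR.2 ⟨hr1, hrx, hr⟩)
            exact_mod_cast this
          have hd4 : (r : ℤ) ∣ n := by
            rw [← hnm]
            exact dvd_add (hd3.mul_right _) (hd2.mul_left _)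
          exact (hsift n hnS).2.1 r hr (by omega) (by omega) hd4
        rw [hMS]
        rcases Int.natAbs_eq m with h1 | h1
        · apply mem_union_left
          apply mem_insert_of_mem
          rw [mem_image]
          exact ⟨_, habs, h1.symm⟩
        · apply mem_union_right
          rw [mem_image]
          exact ⟨_, habs, h1.symm⟩
      · rw [mem_filter]
        exact ⟨hj', by rw [hnm]; exact hnS⟩
    · rintro ⟨j, n⟩ hy ⟨j', n'⟩ hy' h
      simp only [coe_sigma, Set.mem_sigma_iff, mem_coe] at hy hy'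
      simp only [Sigma.mk.injEq, heq_eq_eq] at h
      obtain ⟨h1, h2⟩ := h
      subst h2
      rw [mem_filter] at hy hy'
      obtain ⟨m, hm⟩ := hy.2.2
      obtain ⟨m', hm'⟩ := hy'.2.2
      have hp0 : (p : ℤ) ≠ 0 := by exact_mod_cast hp.ne_zero
      rw [hm, hm', Int.mul_ediv_cancel_left _ hp0, Int.mul_ediv_cancel_left _ hp0] at h1
      subst h1
      have : n = n' := by linarith
      rw [this]
  -- conclusion by averaging
  have htot : (∑ j ∈ Icc 1 J, ((S.filter (fun n => (p : ℤ) ∣ n - Q * (j : ℤ))).card : ℝ)) ≤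
      (3 * (MM r1 x M).card) * (C * (J / Real.log J) * (EX * Real.exp 1)) := by
    have h1 : (∑ j ∈ Icc 1 J, ((S.filter (fun n => (p : ℤ) ∣ n - Q * (j : ℤ))).card : ℝ)) ≤
        ∑ m ∈ MS, (((Icc 1 J).filter (fun j : ℕ => (Q : ℤ) * j + p * m ∈ S)).card : ℝ) := by
      exact_mod_cast hcount
    refine h1.trans ((Finset.sum_le_sum fun m _ => hone m).trans ?_)
    rw [sum_const, nsmul_eq_mul]
    exact mul_le_mul_of_nonneg_right hMScard (by positivity)
  by_contra hcon
  push Not at hcon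
  have h2 : ∑ _j ∈ Icc 1 J, (3 * C * Real.exp 1 * ((MM r1 x M).card / Real.log J) * EX) <
      ∑ j ∈ Icc 1 J, ((S.filter (fun n => (p : ℤ) ∣ n - Q * (j : ℤ))).card : ℝ) := by
    apply Finset.sum_lt_sum_of_nonempty
    · exact ⟨1, mem_Icc.2 ⟨le_rfl, by omega⟩⟩
    · intro j _
      exact hcon _
  rw [sum_const, Nat.card_Icc, nsmul_eq_mul] at h2
  have h3 : ((J + 1 - 1 : ℕ) : ℝ) = J := by norm_num
  rw [h3] at h2
  have h4 : (J : ℝ) * (3 * C * Real.exp 1 * ((MM r1 x M).card / Real.log J) * EX) =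
      (3 * (MM r1 x M).card) * (C * (J / Real.log J) * (EX * Real.exp 1)) := by
    ring
  rw [h4] at h2
  linarith

end Pool.Agent.E290
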