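import Pool.Agent.Lib.MP_e290cc_nt.Main1

set_option autoImplicit false

/-!
The bound for `A k`.
-/

namespace Pool.Agent.E290

open Finset Filter N6026a1c6

/-- the final elementary inequality -/
lemma final_ineq {k P l3 c c' N2 : ℝ} (hk : 0 < k) (hP : 0 < P) (hc : 0 < c) (hcc : c < c')
    (hc' : c' < 1) (hl3 : 0 ≤ l3)
    (hu : l3 ≤ (c' - c) / 2 * P) (hk8 : 8 ≤ k * ((c' - c) * l3))
    (hN : k * P - c * k * l3 - 2 ≤ N2) :
    k ≤ (N2 / P) * (1 + c' * l3 / P) := by
  have hd : 0 < c' - c := by linarith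
  set u : ℝ := l3 / P with hu'
  have hl : l3 = u * P := by rw [hu']; field_simp
  have hu0 : 0 ≤ u := by positivity
  have hu1 : u ≤ (c' - c) / 2 := by
    rw [hu', div_le_iff₀ hP]
    exact hu
  have h1 : k * (1 - c * u) - 2 / P ≤ N2 / P := by
    rw [le_div_iff₀ hP]
    have : (k * (1 - c * u) - 2 / P) * P = k * P - c * k * (u * P) - 2 := by
      field_simp
    rw [this, ← hl]
    exact hN
  have e : c' * l3 / P = c' * u := by rw [hu']; ring
  rw [e]
  have hcu : 0 ≤ 1 + c' * u := by
    have : 0 < c' := by linarith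
    positivity
  refine le_trans ?_ (mul_le_mul_of_nonneg_right h1 hcu)
  have h2 : 2 / P * (1 + c' * u) ≤ 4 / P := by
    have h3 : c' * u ≤ 1 := by nlinarith
    have h4 : 0 < 2 / P := by positivity
    have h5 : 2 / P * (1 + c' * u) ≤ 2 / P * 2 := mul_le_mul_of_nonneg_left (by linarith) h4.le
    have h6 : 2 / P * 2 = 4 / P := by ring
    linarith
  have h7 : 4 / P ≤ k * ((c' - c) * u) / 2 := by
    rw [div_le_iff₀ hP]
    have : k * ((c' - c) * u) / 2 * P = k * ((c' - c) * (u * P)) / 2 := by ring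
    rw [this, ← hl]
    linarith
  have h8 : k * (c * c' * u ^ 2) ≤ k * ((c' - c) * u) / 2 := by
    have h9 : c * c' ≤ 1 := by nlinarith
    have h10 : c * c' * u ^ 2 ≤ (c' - c) / 2 * u := by
      have h11 : c * c' * u ^ 2 ≤ 1 * u ^ 2 := mul_le_mul_of_nonneg_right h9 (by positivity)
      have h12 : u ^ 2 ≤ (c' - c) / 2 * u := by
        rw [sq]
        exact mul_le_mul_of_nonneg_right hu1 hu0
      linarith
    have := mul_le_mul_of_nonneg_left h10 hk.le
    linarith
  have h13 : (k * (1 - c * u) - 2 / P) * (1 + c' * u) =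
      k + k * ((c' - c) * u) - k * (c * c' * u ^ 2) - 2 / P * (1 + c' * u) := by ring
  rw [h13]
  linarith

theorem A_bound_pos {c : ℝ} (hc0 : 0 < c) (hc : c < 1 / 2) :
    ∀ᶠ k : ℕ in atTop, (A k : ℝ) ≤ k * Real.log k + k * Real.log (Real.log k) -
      c * k * Real.log (Real.log (Real.log k)) := by
  set c' : ℝ := (c + 1 / 2) / 2 with hc'def
  have hcc : c < c' := by rw [hc'def]; linarith
  have hc' : c' < 1 / 2 := by rw [hc'def]; linarith
  obtain ⟨N0, hN0⟩ := eventually_atTop.1 (main1 (show 0 < c' by linarith) hc')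
  have tk : Tendsto (fun k : ℕ => (k : ℝ)) atTop atTop := tendsto_natCast_atTop_atTop
  have t1 : Tendsto (fun k : ℕ => Real.log (k : ℝ)) atTop atTop := Real.tendsto_log_atTop.comp tk
  have t2 : Tendsto (fun k : ℕ => Real.log (Real.log (k : ℝ))) atTop atTop :=
    Real.tendsto_log_atTop.comp t1
  have t3 : Tendsto (fun k : ℕ => Real.log (Real.log (Real.log (k : ℝ)))) atTop atTop :=
    Real.tendsto_log_atTop.comp t2
  have g1 : ∀ᶠ l : ℝ in atTop, Real.log l ≤ (c' - c) / 2 * l := by
    have h := Real.isLittleO_log_id_atTop.bound (show 0 < (c' - c) / 2 by linarith)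
    filter_upwards [h, eventually_ge_atTop 1] with l hl hl1
    have h1 : 0 ≤ Real.log l := Real.log_nonneg hl1
    simpa [Real.norm_eq_abs, abs_of_nonneg h1, abs_of_nonneg (show (0 : ℝ) ≤ l by linarith)]
      using hl
  filter_upwards [eventually_ge_atTop N0, t1.eventually_ge_atTop 8, t2.eventually_ge_atTop 1,
    t3.eventually_ge_atTop 1, t1.eventually g1, tk.eventually_ge_atTop (8 / (c' - c)),
    eventually_ge_atTop 1] with k b1 b2 b3 b4 b5 b6 b7
  set l1 : ℝ := Real.log k with hl1
  set l2 : ℝ := Real.log l1 with hl2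
  set l3 : ℝ := Real.log l2 with hl3
  have hk0 : (1 : ℝ) ≤ k := by exact_mod_cast b7
  have hkpos : (0 : ℝ) < k := by linarith
  have hd : 0 < c' - c := by linarith
  have hl32 : l3 ≤ l2 := by
    have := Real.log_le_sub_one_of_pos (show 0 < l2 by linarith)
    rw [← hl3] at this
    linarith
  have hl21 : l2 ≤ l1 := by
    have := Real.log_le_sub_one_of_pos (show 0 < l1 by linarith)
    rw [← hl2] at this
    linarith
  set T : ℝ := k * l1 + k * l2 - c * k * l3 with hT
  have hcl : c * k * l3 ≤ k * l2 := by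
    calc c * k * l3 ≤ 1 * k * l2 := by
          apply mul_le_mul _ hl32 (by linarith) (by linarith)
          exact mul_le_mul_of_nonneg_right (by linarith) hkpos.le
      _ = k * l2 := by ring
  have hT1 : k * l1 ≤ T := by linarith
  have hT2 : T ≤ 2 * (k * l1) := by
    have h1 : k * l2 ≤ k * l1 := mul_le_mul_of_nonneg_left hl21 hkpos.le
    have h2 : 0 ≤ c * k * l3 := by
      have : 0 ≤ l3 := by linarith
      positivity
    linarith
  have h8k : 8 * (k : ℝ) ≤ k * l1 := by
    have := mul_le_mul_of_nonneg_left b2 hkpos.le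
    linarith
  set N : ℕ := ⌊T / 2⌋₊ with hN
  have hN1 : (N : ℝ) ≤ T / 2 := Nat.floor_le (by linarith)
  have hN2 : T / 2 - 1 ≤ N := by
    have := Nat.lt_floor_add_one (T / 2)
    rw [← hN] at this
    linarith
  have hkN' : (k : ℝ) ≤ N := by linarith
  have hkN : k ≤ N := by exact_mod_cast hkN'
  have hNpos : (0 : ℝ) < N := by linarith
  -- logarithms of `N`
  have hL1 : l1 ≤ Real.log N := Real.log_le_log hkpos hkN'
  have hL2 : l2 ≤ Real.log (Real.log N) := Real.log_le_log (by linarith) hL1
  have hL3 : l3 ≤ Real.log (Real.log (Real.log N)) := Real.log_le_log (by linarith) hL2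
  have hLP : Real.log N ≤ l1 + l2 := by
    have h1 : (N : ℝ) ≤ k * l1 := by linarith
    have h2 := Real.log_le_log hNpos h1
    rwa [Real.log_mul hkpos.ne' (by linarith), ← hl1, ← hl2] at h2
  have hfin : (k : ℝ) ≤ (2 * N / (l1 + l2)) * (1 + c' * l3 / (l1 + l2)) := by
    apply final_ineq (c := c) hkpos (by linarith) hc0 hcc (by linarith) (by linarith)
    · have h1 : 0 ≤ (c' - c) / 2 * l2 := by
        have : 0 ≤ l2 := by linarith
        positivity
      have h2 : (c' - c) / 2 * (l1 + l2) = (c' - c) / 2 * l1 + (c' - c) / 2 * l2 := by ring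
      linarith
    · have h1 : 8 ≤ k * (c' - c) := by
        rwa [div_le_iff₀ hd] at b6
      calc (8 : ℝ) ≤ k * (c' - c) * 1 := by linarith
        _ ≤ k * (c' - c) * l3 := mul_le_mul_of_nonneg_left b4 (by positivity)
        _ = k * ((c' - c) * l3) := by ring
    · have : (k : ℝ) * (l1 + l2) - c * k * l3 = T := by rw [hT]; ring
      linarith
  have hA := hN0 N (b1.trans hkN) k (by
    refine hfin.trans ?_
    have hlogN : 0 < Real.log N := by linarith
    have hc'0 : 0 < c' := by linarith
    have hl30 : 0 ≤ l3 := by linarith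
    have hl12 : 0 < l1 + l2 := by linarith
    apply mul_le_mul _ _ (by positivity) (by positivity)
    · exact div_le_div_of_nonneg_left (by positivity) hlogN hLP
    · have h1 : c' * l3 / (l1 + l2) ≤ c' * Real.log (Real.log (Real.log N)) / Real.log N := by
        apply div_le_div₀ _ _ hlogN hLP
        · have : 0 ≤ Real.log (Real.log (Real.log N)) := hl30.trans hL3
          positivity
        · exact mul_le_mul_of_nonneg_left hL3 hc'0.le
      linarith)
  have hA' : (A k : ℝ) ≤ 2 * N := by exact_mod_cast hA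
  linarith

theorem A_bound {c : ℝ} (hc : c < 1 / 2) :
    ∀ᶠ k : ℕ in atTop, (A k : ℝ) ≤ k * Real.log k + k * Real.log (Real.log k) -
      c * k * Real.log (Real.log (Real.log k)) := by
  have hm : max c (1 / 4) < 1 / 2 := max_lt hc (by norm_num)
  have hm0 : 0 < max c (1 / 4) := lt_of_lt_of_le (by norm_num) (le_max_right _ _)
  have t3 : Tendsto (fun k : ℕ => Real.log (Real.log (Real.log (k : ℝ)))) atTop atTop :=
    Real.tendsto_log_atTop.comp (Real.tendsto_log_atTop.comp
      (Real.tendsto_log_atTop.comp tendsto_natCast_atTop_atTop))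
  filter_upwards [A_bound_pos hm0 hm, t3.eventually_ge_atTop 0] with k h1 h2
  refine h1.trans ?_
  have h3 : c * k * Real.log (Real.log (Real.log k)) ≤
      max c (1 / 4) * k * Real.log (Real.log (Real.log k)) := by
    apply mul_le_mul_of_nonneg_right _ h2
    exact mul_le_mul_of_nonneg_right (le_max_left _ _) (by positivity)
  linarith

end Pool.Agent.E290
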