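import Pool.Agent.Lib.MP_d610d0_nt.CH.P.Main
import Mathlib.NumberTheory.Chebyshev

set_option autoImplicit false

/-!
The prime number theorem for `θ`, lower bound, and Mertens' theorems.
-/

namespace Pool.Agent.E290

open Finset

theorem theta_ge : ∃ C : ℝ, 0 ≤ C ∧
    ∀ t : ℝ, 2 ≤ t → t - C * t / (Real.log t) ^ 2 ≤ Chebyshev.theta t := by
  obtain ⟨C, hC⟩ := Pool.Agent.CH.P.h_PNT 2
  refine ⟨4 * |C| + 436, by positivity, fun t ht => ?_⟩
  set M : ℕ := ⌊t⌋₊ with hM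
  have ht0 : 0 < t := by linarith
  have hM2 : 2 ≤ M := Nat.le_floor (by exact_mod_cast ht)
  have hMt : (M : ℝ) ≤ t := Nat.floor_le ht0.le
  have hMt1 : t - 1 < M := by
    have := Nat.lt_floor_add_one t
    linarith
  have hM2' : (2 : ℝ) ≤ M := by exact_mod_cast hM2
  have hlogt : 0 < Real.log t := Real.log_pos (by linarith)
  have hlogM : 0 < Real.log M := Real.log_pos (by linarith)
  -- log M ≥ (log t) / 2
  have hlog2 : Real.log t / 2 ≤ Real.log M := by
    have h1 : t ≤ (M : ℝ) ^ 2 := by nlinarith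
    have h2 := Real.log_le_log ht0 h1
    rw [Real.log_pow] at h2
    push_cast at h2
    linarith
  have h1 := hC M hM2
  have hpsi : Chebyshev.psi t = ∑ n ∈ Icc 1 M, ArithmeticFunction.vonMangoldt n := by
    rw [Chebyshev.psi, ← hM]
    rfl
  rw [← hpsi] at h1
  have h2 := (abs_le.1 h1).1
  have h3 := Chebyshev.psi_sub_theta_le (x := t) (by linarith)
  -- error terms
  have e1 : C * M / (Real.log M) ^ 2 ≤ 4 * |C| * t / (Real.log t) ^ 2 := by
    have hle : (Real.log t) ^ 2 / 4 ≤ (Real.log M) ^ 2 := by nlinarith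
    calc C * M / (Real.log M) ^ 2 ≤ |C| * t / (Real.log M) ^ 2 := by
          apply div_le_div_of_nonneg_right _ (by positivity)
          exact mul_le_mul (le_abs_self C) hMt (by positivity) (abs_nonneg C)
      _ ≤ |C| * t / ((Real.log t) ^ 2 / 4) := by
          apply div_le_div_of_nonneg_left (by positivity) (by positivity) hle
      _ = 4 * |C| * t / (Real.log t) ^ 2 := by
          field_simp
  have e2 : 1 ≤ 4 * t / (Real.log t) ^ 2 := by
    rw [le_div_iff₀ (by positivity), one_mul]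
    have h4 := Real.log_le_rpow_div (x := t) ht0.le (ε := 1 / 2) (by norm_num)
    have h5 : (Real.log t) ^ 2 ≤ (t ^ (1 / 2 : ℝ) / (1 / 2)) ^ 2 :=
      pow_le_pow_left₀ hlogt.le h4 2
    have h6 : (t ^ (1 / 2 : ℝ) / (1 / 2)) ^ 2 = 4 * t := by
      rw [div_pow, ← Real.rpow_natCast (t ^ (1 / 2 : ℝ)) 2, ← Real.rpow_mul ht0.le]
      norm_num
      ring
    linarith
  have e3 : 2 * √t * Real.log t ≤ 432 * t / (Real.log t) ^ 2 := by
    rw [le_div_iff₀ (by positivity)]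
    have h4 := Real.log_le_rpow_div (x := t) ht0.le (ε := 1 / 6) (by norm_num)
    have h5 : (Real.log t) ^ 3 ≤ (t ^ (1 / 6 : ℝ) / (1 / 6)) ^ 3 :=
      pow_le_pow_left₀ hlogt.le h4 3
    have h6 : (t ^ (1 / 6 : ℝ) / (1 / 6)) ^ 3 = 216 * √t := by
      rw [div_pow, ← Real.rpow_natCast (t ^ (1 / 6 : ℝ)) 3, ← Real.rpow_mul ht0.le,
        Real.sqrt_eq_rpow]
      norm_num
      ring
    rw [h6] at h5
    have h7 : √t * √t = t := Real.mul_self_sqrt ht0.le
    calc 2 * √t * Real.log t * (Real.log t) ^ 2 = 2 * √t * (Real.log t) ^ 3 := by ring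
      _ ≤ 2 * √t * (216 * √t) := mul_le_mul_of_nonneg_left h5 (by positivity)
      _ = 432 * (√t * √t) := by ring
      _ = 432 * t := by rw [h7]
  have hsum : (4 * |C| + 436) * t / (Real.log t) ^ 2 =
      4 * |C| * t / (Real.log t) ^ 2 + 4 * t / (Real.log t) ^ 2 + 432 * t / (Real.log t) ^ 2 := by
    ring
  rw [hsum]
  linarith

theorem mertens1 : ∃ C : ℝ, 0 ≤ C ∧ ∀ w : ℕ, 1 ≤ w →
    Real.log w - C ≤ ∑ p ∈ (Icc 1 w).filter Nat.Prime, Real.log p / p := by
  obtain ⟨C, hC⟩ := Pool.Agent.CH.P.h_mer1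
  refine ⟨|C|, abs_nonneg C, fun w hw => ?_⟩
  have := (abs_le.1 (hC w hw)).1
  have := le_abs_self C
  linarith

theorem mertens2 : ∃ C : ℝ, 0 ≤ C ∧ ∀ a b : ℕ, 2 ≤ a → a ≤ b →
    ∑ p ∈ (Ioc a b).filter Nat.Prime, (1 : ℝ) / p ≤
      Real.log (Real.log b / Real.log a) + C / Real.log a := by
  obtain ⟨C, hC⟩ := Pool.Agent.CH.P.h_mer2
  refine ⟨|C|, abs_nonneg C, fun a b ha hab => ?_⟩
  have h1 := (abs_le.1 (hC a b ha hab)).2
  have hlog : 0 < Real.log a := Real.log_pos (by exact_mod_cast (by omega : 1 < a))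
  have h2 : C / Real.log a ≤ |C| / Real.log a :=
    div_le_div_of_nonneg_right (le_abs_self C) hlog.le
  linarith

end Pool.Agent.E290
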