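import Pool.Agent.Lib.MP_e290cc_nt.Core2
import Pool.Agent.Lib.MP_e290cc_nt.Pnt

set_option autoImplicit false

/-!
The new upper bound for `A k`.
-/

namespace Pool.Agent.E290

open Finset Filter N6026a1c6

theorem mertens1_up : ∃ C : ℝ, 0 ≤ C ∧ ∀ w : ℕ, 1 ≤ w →
    ∑ p ∈ (Icc 1 w).filter Nat.Prime, Real.log p / p ≤ Real.log w + C := by
  obtain ⟨C, hC⟩ := Pool.Agent.CH.P.h_mer1
  refine ⟨|C|, abs_nonneg C, fun w hw => ?_⟩
  have := (abs_le.1 (hC w hw)).2
  have := le_abs_self C
  linarith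

/-- `b log x √x ≤ x` for large `x` -/
lemma ev_sqrt (b : ℝ) : ∀ᶠ x : ℝ in atTop, b * Real.log x * Real.exp (Real.log x / 2) ≤ x := by
  have h1 : Tendsto (fun x : ℝ => b * (Real.log x * x ^ (-(1 / 2) : ℝ))) atTop (nhds 0) := by
    have h4 := (isLittleO_log_rpow_atTop (show (0 : ℝ) < 1 / 2 by norm_num)).tendsto_div_nhds_zero
    have h5 : Tendsto (fun x : ℝ => Real.log x * x ^ (-(1 / 2) : ℝ)) atTop (nhds 0) := by
      refine h4.congr' ?_
      filter_upwards [eventually_gt_atTop 0] with x hx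
      rw [Real.rpow_neg hx.le, div_eq_mul_inv]
    have := h5.const_mul b
    simpa using this
  filter_upwards [h1.eventually (ge_mem_nhds (by norm_num : (0 : ℝ) < 1)),
    eventually_gt_atTop 0] with x hx hx0
  have e1 : Real.exp (Real.log x / 2) = x ^ (1 / 2 : ℝ) := by
    rw [Real.rpow_def_of_pos hx0]
    congr 1
    ring
  rw [e1]
  have h2 : b * Real.log x * x ^ (1 / 2 : ℝ) = b * (Real.log x * x ^ (-(1 / 2) : ℝ)) * x := by
    have h3 : x ^ (1 / 2 : ℝ) = x ^ (-(1 / 2) : ℝ) * x := by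
      nth_rewrite 3 [← Real.rpow_one x]
      rw [← Real.rpow_add hx0]
      norm_num
    rw [h3]
    ring
  rw [h2]
  have := mul_le_mul_of_nonneg_right hx hx0.le
  linarith

/-- `b x ^ n ≤ exp x` for large `x` -/
lemma ev_pow (b : ℝ) (n : ℕ) : ∀ᶠ x : ℝ in atTop, b * x ^ n ≤ Real.exp x := by
  have h1 := Real.tendsto_pow_mul_exp_neg_atTop_nhds_zero n
  have h2 := h1.const_mul b
  rw [mul_zero] at h2
  filter_upwards [h2.eventually (ge_mem_nhds (by norm_num : (0 : ℝ) < 1))] with x hx
  have h3 : b * x ^ n = (b * (x ^ n * Real.exp (-x))) * Real.exp x := by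
    rw [Real.exp_neg]
    field_simp
  rw [h3]
  have := mul_le_mul_of_nonneg_right hx (Real.exp_pos x).le
  linarith

theorem main2 : ∀ᶠ N : ℕ in atTop, ∀ k : ℕ,
    (k : ℝ) ≤ (N / Real.log N) * (1 + Real.log (Real.log (Real.log (Real.log N))) /
      (600 * Real.log (Real.log N) * Real.log (Real.log (Real.log N)))) → A k ≤ N := by
  obtain ⟨C, hC0, hC⟩ := theta_ge
  obtain ⟨Ca, hCa, hm1⟩ := mertens1
  obtain ⟨Cb, hCb, hm2⟩ := mertens1_up
  have tN : Tendsto (fun N : ℕ => (N : ℝ)) atTop atTop := tendsto_natCast_atTop_atTop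
  have t1 : Tendsto (fun N : ℕ => Real.log (N : ℝ)) atTop atTop := Real.tendsto_log_atTop.comp tN
  have t2 : Tendsto (fun N : ℕ => Real.log (Real.log (N : ℝ))) atTop atTop :=
    Real.tendsto_log_atTop.comp t1
  have t3 : Tendsto (fun N : ℕ => Real.log (Real.log (Real.log (N : ℝ)))) atTop atTop :=
    Real.tendsto_log_atTop.comp t2
  have t4 : Tendsto (fun N : ℕ => Real.log (Real.log (Real.log (Real.log (N : ℝ))))) atTop atTop :=
    Real.tendsto_log_atTop.comp t3
  filter_upwards [t4.eventually_ge_atTop 2, t3.eventually (ev_sqrt (2 * (1 + (Ca + Cb)))),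
    t2.eventually_ge_atTop 100, t2.eventually (ev_pow 1 6),
    t2.eventually_ge_atTop (4 * C + (Ca + Cb) + 8), t1.eventually_gt_atTop 0,
    t2.eventually_gt_atTop 0, t3.eventually_gt_atTop 0] with N h1 h2 h3 h4 h5 h6 h7 h8 k hk
  have hm1' : ∀ w : ℕ, 1 ≤ w →
      Real.log w - (Ca + Cb) ≤ ∑ p ∈ (Icc 1 w).filter Nat.Prime, Real.log p / p :=
    fun w hw => by
      have := hm1 w hw
      linarith
  have hm2' : ∀ w : ℕ, 1 ≤ w →
      ∑ p ∈ (Icc 1 w).filter Nat.Prime, Real.log p / p ≤ Real.log w + (Ca + Cb) :=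
    fun w hw => by
      have := hm2 w hw
      linarith
  have b4 : Real.log (Real.log (N : ℝ)) ^ 6 ≤ Real.log (N : ℝ) := by
    rw [Real.exp_log h6, one_mul] at h4
    exact h4
  have b6 : Real.log (Real.log (Real.log (Real.log (N : ℝ)))) ≤
      Real.log (Real.log (Real.log (N : ℝ))) := by
    have := Real.log_le_sub_one_of_pos h8
    linarith
  have b7 : Real.log (Real.log (Real.log (N : ℝ))) ≤ Real.log (Real.log (N : ℝ)) := by
    have := Real.log_le_sub_one_of_pos h7
    linarith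
  exact core2 hC hC0 (by linarith) hm1' hm2' rfl rfl rfl h1 h2 h3 b4 h5 b6 b7 hk

/-- the final elementary inequality -/
lemma final_ineq2 {k L1 L2 H Nr : ℝ} (hk : 1 ≤ k) (hL1 : 0 < L1) (hL2 : 0 ≤ L2) (hH0 : 0 ≤ H)
    (hH1 : H ≤ 1) (hLH : L2 + 2 ≤ L1 * H / 5000) (hN : k * L1 * (1 - H / 5000) - 1 ≤ Nr) :
    k ≤ (Nr / (L1 + L2)) * (1 + H / 2400) := by
  rw [div_mul_eq_mul_div, le_div_iff₀ (by linarith)]
  have h1 : (k * L1 * (1 - H / 5000) - 1) * (1 + H / 2400) ≤ Nr * (1 + H / 2400) :=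
    mul_le_mul_of_nonneg_right hN (by positivity)
  have h2 : (k * L1 * (1 - H / 5000) - 1) * (1 + H / 2400) =
      k * L1 * ((1 - H / 5000) * (1 + H / 2400)) - (1 + H / 2400) := by ring
  have h3 : 1 + H / 5000 ≤ (1 - H / 5000) * (1 + H / 2400) := by
    have h4 : (1 - H / 5000) * (1 + H / 2400) =
        1 + H / 5000 + (H / 60000 - H * H / 12000000) := by ring
    have h5 : H * H ≤ H * 1 := mul_le_mul_of_nonneg_left hH1 hH0
    rw [h4]
    linarith
  have h4 : k * L1 * (1 + H / 5000) ≤ k * L1 * ((1 - H / 5000) * (1 + H / 2400)) :=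
    mul_le_mul_of_nonneg_left h3 (by positivity)
  have h5 : k * (L2 + 2) ≤ k * (L1 * H / 5000) := mul_le_mul_of_nonneg_left hLH (by linarith)
  have h6 : k * L1 * (1 + H / 5000) = k * L1 + k * (L1 * H / 5000) := by ring
  have h7 : k * (L1 + L2) = k * L1 + k * L2 := by ring
  have h8 : k * (L2 + 2) = k * L2 + 2 * k := by ring
  linarith

theorem A_bound2 : ∀ᶠ k : ℕ in atTop, (A k : ℝ) ≤ k * Real.log k *
    (1 - Real.log (Real.log (Real.log (Real.log k))) /
      (5000 * Real.log (Real.log k) * Real.log (Real.log (Real.log k)))) := by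
  obtain ⟨N0, hN0⟩ := eventually_atTop.1 main2
  have tk : Tendsto (fun k : ℕ => (k : ℝ)) atTop atTop := tendsto_natCast_atTop_atTop
  have t1 : Tendsto (fun k : ℕ => Real.log (k : ℝ)) atTop atTop := Real.tendsto_log_atTop.comp tk
  have t2 : Tendsto (fun k : ℕ => Real.log (Real.log (k : ℝ))) atTop atTop :=
    Real.tendsto_log_atTop.comp t1
  have t3 : Tendsto (fun k : ℕ => Real.log (Real.log (Real.log (k : ℝ)))) atTop atTop :=
    Real.tendsto_log_atTop.comp t2
  have t4 : Tendsto (fun N : ℕ => Real.log (Real.log (Real.log (Real.log (N : ℝ))))) atTop atTop :=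
    Real.tendsto_log_atTop.comp t3
  filter_upwards [eventually_ge_atTop N0, t1.eventually_ge_atTop 8, t2.eventually_ge_atTop 2,
    t3.eventually_ge_atTop 2, t4.eventually_ge_atTop 1, t2.eventually (ev_pow 10000 3),
    eventually_ge_atTop 1] with k c1 c2 c3 c4 c5 c6 c7
  set L1 : ℝ := Real.log k with hL1
  set L2 : ℝ := Real.log L1 with hL2
  set L3 : ℝ := Real.log L2 with hL3
  set L4 : ℝ := Real.log L3 with hL4
  have hk1 : (1 : ℝ) ≤ k := by exact_mod_cast c7
  have hk0 : (0 : ℝ) < k := by linarith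
  have hL43 : L4 ≤ L3 := by
    have := Real.log_le_sub_one_of_pos (show 0 < L3 by linarith)
    rw [← hL4] at this
    linarith
  have hL32 : L3 ≤ L2 := by
    have := Real.log_le_sub_one_of_pos (show 0 < L2 by linarith)
    rw [← hL3] at this
    linarith
  have hL21 : L2 ≤ L1 := by
    have := Real.log_le_sub_one_of_pos (show 0 < L1 by linarith)
    rw [← hL2] at this
    linarith
  have hL20 : 0 < L2 := by linarith
  have hL30 : 0 < L3 := by linarith
  have hL10 : 0 < L1 := by linarith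
  set H : ℝ := L4 / (L2 * L3) with hH
  have hH0 : 0 ≤ H := by positivity
  have hH1 : H ≤ 1 := by
    rw [hH, div_le_one (by positivity)]
    nlinarith
  have hHe : L4 / (5000 * L2 * L3) = H / 5000 := by
    rw [hH]
    field_simp
  rw [hHe]
  have hLH : L2 + 2 ≤ L1 * H / 5000 := by
    have h1 : 10000 * L2 ^ 3 ≤ L1 := by
      rw [hL2, Real.exp_log hL10, ← hL2] at c6
      exact c6
    rw [hH, le_div_iff₀ (by norm_num), mul_div_assoc', le_div_iff₀ (by positivity)]
    have h2 : (L2 + 2) * 5000 * (L2 * L3) ≤ (2 * L2) * 5000 * (L2 * L2) := by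
      apply mul_le_mul _ _ (by positivity) (by positivity)
      · linarith
      · exact mul_le_mul_of_nonneg_left hL32 hL20.le
    have h3 : (2 * L2) * 5000 * (L2 * L2) = 10000 * L2 ^ 3 := by ring
    have h4 : L1 * 1 ≤ L1 * L4 := mul_le_mul_of_nonneg_left c5 hL10.le
    linarith
  set T : ℝ := k * L1 * (1 - H / 5000) with hT
  have hkL : 8 * (k : ℝ) ≤ k * L1 := by
    have := mul_le_mul_of_nonneg_left c2 hk0.le
    linarith
  have hT1 : k * L1 / 2 ≤ T := by
    have : k * L1 * (1 / 2) ≤ k * L1 * (1 - H / 5000) :=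
      mul_le_mul_of_nonneg_left (by linarith) (by positivity)
    linarith
  have hT2 : T ≤ k * L1 := by
    have : k * L1 * (1 - H / 5000) ≤ k * L1 * 1 :=
      mul_le_mul_of_nonneg_left (by linarith) (by positivity)
    linarith
  set N : ℕ := ⌊T⌋₊ with hN
  have hN1 : (N : ℝ) ≤ T := Nat.floor_le (by linarith)
  have hN2 : T - 1 ≤ N := by
    have := Nat.lt_floor_add_one T
    rw [← hN] at this
    linarith
  have hkN' : (k : ℝ) ≤ N := by linarith
  have hkN : k ≤ N := by exact_mod_cast hkN'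
  have hNpos : (0 : ℝ) < N := by linarith
  -- logarithms of `N`
  have g1 : L1 ≤ Real.log N := Real.log_le_log hk0 hkN'
  have g2 : L2 ≤ Real.log (Real.log N) := Real.log_le_log hL10 g1
  have g3 : L3 ≤ Real.log (Real.log (Real.log N)) := Real.log_le_log hL20 g2
  have g4 : L4 ≤ Real.log (Real.log (Real.log (Real.log N))) := Real.log_le_log hL30 g3
  have u1 : Real.log N ≤ L1 + L2 := by
    have h1 : (N : ℝ) ≤ k * L1 := by linarith
    have h2 := Real.log_le_log hNpos h1
    rwa [Real.log_mul hk0.ne' hL10.ne', ← hL1, ← hL2] at h2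
  have hlogN : 0 < Real.log N := by linarith
  have hlog2N : 0 < Real.log (Real.log N) := by linarith
  have hlog3N : 0 < Real.log (Real.log (Real.log N)) := by linarith
  have hlog2 : Real.log 2 ≤ 1 := log_two_le
  have u2 : Real.log (Real.log N) ≤ 2 * L2 := by
    have h1 : Real.log N ≤ 2 * L1 := by linarith
    have h2 := Real.log_le_log hlogN h1
    rw [Real.log_mul (by norm_num) hL10.ne', ← hL2] at h2
    linarith
  have u3 : Real.log (Real.log (Real.log N)) ≤ 2 * L3 := by
    have h2 := Real.log_le_log hlog2N u2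
    rw [Real.log_mul (by norm_num) hL20.ne', ← hL3] at h2
    linarith
  have hfin : (k : ℝ) ≤ (N / (L1 + L2)) * (1 + H / 2400) :=
    final_ineq2 hk1 hL10 hL20.le hH0 hH1 hLH hN2
  have hA := hN0 N (c1.trans hkN) k (by
    refine hfin.trans ?_
    apply mul_le_mul _ _ (by positivity) (by positivity)
    · exact div_le_div_of_nonneg_left hNpos.le hlogN u1
    · have h1 : H / 2400 ≤ Real.log (Real.log (Real.log (Real.log N))) /
          (600 * Real.log (Real.log N) * Real.log (Real.log (Real.log N))) := by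
        have h2 : H / 2400 = L4 / (600 * (2 * L2) * (2 * L3)) := by
          rw [hH]
          field_simp
          norm_num
        rw [h2]
        apply div_le_div₀ (by linarith) g4 (by positivity)
        apply mul_le_mul _ u3 hlog3N.le (by positivity)
        exact mul_le_mul_of_nonneg_left u2 (by norm_num)
      linarith)
  have hA' : (A k : ℝ) ≤ N := by exact_mod_cast hA
  linarith

end Pool.Agent.E290
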