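import Mathlib

set_option autoImplicit false

/-!
Residue classes for the large primes that together cover few integers.

For `p` with `K`-adic digits `p_i` (`i < j`) take the class of `∑ p_i (K - p_i) K ^ i` modulo `p`.
The integers of this class up to `N` are `X s K ^ j + ∑ p_i (K + s - p_i) K ^ i`, and the map
`x ↦ x (K + s - x)` takes at most `3 K / 4` values on the digits when `4 s ≤ K`.
-/

namespace Pool.Agent.E290

open Finset

/-- The residue attached to `p`: the digit sum `∑_{i < j} p_i (K - p_i) K ^ i`. -/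
def aa (K : ℕ) : ℕ → ℕ → ℕ
  | 0, _ => 0
  | j + 1, p => (p % K) * (K - p % K) + K * aa K j (p / K)

/-- the values of `x (K + s - x)` on the digits -/
def VV (K s : ℕ) : Finset ℕ := (range K).image (fun x => x * (K + s - x))

/-- the values of the digit sums -/
def GG (K s : ℕ) : ℕ → Finset ℕ
  | 0 => {0}
  | j + 1 => (VV K s ×ˢ GG K s j).image (fun x => x.1 + K * x.2)

lemma aa_le {K : ℕ} (hK : 1 ≤ K) (j p : ℕ) : aa K j p + K ≤ K ^ (j + 1) := by
  induction j generalizing p with
  | zero => simp [aa]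
  | succ j ih =>
    have h := ih (p / K)
    have hd : p % K < K := Nat.mod_lt _ hK
    have h1 : (p % K) * (K - p % K) + K ≤ K * K := by
      set d := p % K
      obtain ⟨e, he⟩ := Nat.exists_eq_add_of_lt hd
      have h2 : K - d = e + 1 := by omega
      rw [h2, he]
      nlinarith [Nat.zero_le d, Nat.zero_le e, Nat.zero_le (d * d), Nat.zero_le (e * e)]
    simp only [aa]
    calc (p % K) * (K - p % K) + K * aa K j (p / K) + K
        = ((p % K) * (K - p % K) + K) + K * aa K j (p / K) := by ring
      _ ≤ K * K + K * aa K j (p / K) := by omega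
      _ = K * (aa K j (p / K) + K) := by ring
      _ ≤ K * K ^ (j + 1) := Nat.mul_le_mul_left _ h
      _ = K ^ (j + 1 + 1) := by ring

lemma aa_add {K : ℕ} (hK : 1 ≤ K) (s j p : ℕ) :
    ∃ g ∈ GG K s j, aa K j p + p * s = g + K ^ j * (p / K ^ j) * s := by
  induction j generalizing p with
  | zero => exact ⟨0, by simp [GG], by simp [aa]⟩
  | succ j ih =>
    obtain ⟨g, hg, h⟩ := ih (p / K)
    have hd : p % K < K := Nat.mod_lt _ hK
    refine ⟨(p % K) * (K + s - p % K) + K * g, ?_, ?_⟩
    · simp only [GG, mem_image, mem_product, Prod.exists]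
      refine ⟨(p % K) * (K + s - p % K), g, ⟨?_, hg⟩, rfl⟩
      rw [VV, mem_image]
      exact ⟨p % K, mem_range.2 hd, rfl⟩
    · simp only [aa]
      have e1 : p / K ^ (j + 1) = p / K / K ^ j := by
        rw [pow_succ', Nat.div_div_eq_div_mul]
      have e2 : p = p % K + K * (p / K) := (Nat.mod_add_div p K).symm
      have e3 : (p % K) * (K + s - p % K) = (p % K) * (K - p % K) + (p % K) * s := by
        rw [← mul_add]
        congr 1
        omega
      have e4 : p * s = (p % K) * s + K * ((p / K) * s) := by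
        conv_lhs => rw [e2]
        ring
      rw [e1, e3, e4]
      have e5 : K ^ (j + 1) * (p / K / K ^ j) * s = K * (K ^ j * (p / K / K ^ j) * s) := by
        rw [pow_succ']
        ring
      rw [e5]
      calc (p % K) * (K - p % K) + K * aa K j (p / K) + ((p % K) * s + K * ((p / K) * s))
          = (p % K) * (K - p % K) + (p % K) * s + K * (aa K j (p / K) + (p / K) * s) := by ring
        _ = (p % K) * (K - p % K) + (p % K) * s + K * (g + K ^ j * (p / K / K ^ j) * s) := by
            rw [h]
        _ = _ := by ring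

lemma card_VV {K s : ℕ} (hK : 8 ≤ K) (hs : 4 * s ≤ K) : 4 * (VV K s).card ≤ 3 * K := by
  have hsub : VV K s ⊆ (range ((K + s) / 2 + 1)).image (fun x => x * (K + s - x)) := by
    intro v hv
    rw [VV, mem_image] at hv
    obtain ⟨x, hx, rfl⟩ := hv
    rw [mem_range] at hx
    rw [mem_image]
    by_cases h : x ≤ (K + s) / 2
    · exact ⟨x, mem_range.2 (by omega), rfl⟩
    · refine ⟨K + s - x, mem_range.2 (by omega), ?_⟩
      have : K + s - (K + s - x) = x := by omega
      rw [this, mul_comm]
  have h1 := (card_le_card hsub).trans card_image_le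
  rw [card_range] at h1
  omega

lemma card_GG {K s : ℕ} (hK : 8 ≤ K) (hs : 4 * s ≤ K) (j : ℕ) :
    ((GG K s j).card : ℝ) ≤ (3 / 4 * K) ^ j := by
  induction j with
  | zero => simp [GG]
  | succ j ih =>
    have h1 : (GG K s (j + 1)).card ≤ (VV K s).card * (GG K s j).card := by
      simp only [GG]
      exact card_image_le.trans (card_product _ _).le
    have h2 : ((VV K s).card : ℝ) ≤ 3 / 4 * K := by
      have := card_VV hK hs
      have h3 : (4 * (VV K s).card : ℝ) ≤ 3 * K := by exact_mod_cast this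
      linarith
    calc ((GG K s (j + 1)).card : ℝ) ≤ (VV K s).card * (GG K s j).card := by exact_mod_cast h1
      _ ≤ (3 / 4 * K) * (3 / 4 * K) ^ j := mul_le_mul h2 ih (by positivity) (by positivity)
      _ = (3 / 4 * K) ^ (j + 1) := by ring

/-- The integers up to `N` in one of the classes `aa K j p` modulo `p` with `N < p M`. -/
noncomputable def KK (K j M N : ℕ) : Finset ℕ := by
  classical exact (range (N + 1)).filter (fun n => ∃ p : ℕ, N < p * M ∧ n % p = aa K j p)

lemma mem_KK {K j M N n : ℕ} : n ∈ KK K j M N ↔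
    n ≤ N ∧ ∃ p : ℕ, N < p * M ∧ n % p = aa K j p := by
  classical
  unfold KK
  rw [mem_filter, mem_range]
  constructor
  · rintro ⟨h1, h2⟩
    exact ⟨by omega, h2⟩
  · rintro ⟨h1, h2⟩
    exact ⟨by omega, h2⟩

/-- The classes cover few integers. -/
theorem card_KK {K j M N : ℕ} (hK : 8 ≤ K) (hM : 1 ≤ M) (hMK : 4 * M ≤ K)
    (hN : K ^ j * M ≤ N) :
    ((KK K j M N).card : ℝ) ≤ (3 / 4) ^ j * (N * (2 + Real.log M)) := by
  classical
  have hK1 : 1 ≤ K := by omega
  have hKj : 0 < K ^ j := Nat.pow_pos (by omega)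
  -- the cover
  have hsub : KK K j M N ⊆ (range M).biUnion (fun s =>
      ((range (N / (K ^ j * s) + 1)) ×ˢ (GG K s j)).image
        (fun x : ℕ × ℕ => x.2 + K ^ j * x.1 * s)) := by
    intro n hn
    rw [mem_KK] at hn
    obtain ⟨hnN, p, hp, hmod⟩ := hn
    have hp0 : 0 < p := by
      rcases Nat.eq_zero_or_pos p with h | h
      · subst h
        simp at hp
      · exact h
    set s := n / p with hs
    have hsM : s < M := by
      by_contra hcon
      push Not at hcon
      have h1 : p * M ≤ p * s := Nat.mul_le_mul_left _ hcon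
      have h2 : p * s ≤ n := Nat.mul_div_le n p
      omega
    obtain ⟨g, hg, hga⟩ := aa_add hK1 s j p
    have hn2 : n = g + K ^ j * (p / K ^ j) * s := by
      rw [← hga, ← hmod]
      exact (Nat.mod_add_div n p).symm
    rw [mem_biUnion]
    refine ⟨s, mem_range.2 hsM, ?_⟩
    rw [mem_image]
    by_cases h0 : s = 0
    · refine ⟨(0, g), ?_, ?_⟩
      · rw [mem_product]
        exact ⟨mem_range.2 (Nat.succ_pos _), hg⟩
      · rw [hn2, h0]
        simp
    · refine ⟨(p / K ^ j, g), ?_, hn2.symm⟩
      rw [mem_product]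
      refine ⟨mem_range.2 ?_, hg⟩
      have h1 : p / K ^ j ≤ N / (K ^ j * s) := by
        rw [Nat.le_div_iff_mul_le (Nat.mul_pos hKj (Nat.pos_of_ne_zero h0))]
        calc p / K ^ j * (K ^ j * s) = K ^ j * (p / K ^ j) * s := by ring
          _ ≤ n := by omega
          _ ≤ N := hnN
      omega
  have h1 : ((KK K j M N).card : ℝ) ≤ ∑ s ∈ range M,
      ((N / (K ^ j * s) + 1 : ℕ) : ℝ) * (3 / 4 * K) ^ j := by
    have h2 := (card_le_card hsub).trans card_biUnion_le
    calc ((KK K j M N).card : ℝ) ≤ ((∑ s ∈ range M, (((range (N / (K ^ j * s) + 1)) ×ˢ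
          (GG K s j)).image (fun x : ℕ × ℕ => x.2 + K ^ j * x.1 * s)).card : ℕ) : ℝ) := by
          exact_mod_cast h2
      _ ≤ ∑ s ∈ range M, ((N / (K ^ j * s) + 1 : ℕ) : ℝ) * (3 / 4 * K) ^ j := by
          push_cast
          apply Finset.sum_le_sum
          intro s hs
          rw [mem_range] at hs
          have h3 : (((range (N / (K ^ j * s) + 1)) ×ˢ (GG K s j)).image
              (fun x : ℕ × ℕ => x.2 + K ^ j * x.1 * s)).card ≤
              (N / (K ^ j * s) + 1) * (GG K s j).card := by
            refine card_image_le.trans ?_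
            rw [card_product, card_range]
          have h4 := card_GG hK (s := s) (by omega) j
          calc ((((range (N / (K ^ j * s) + 1)) ×ˢ (GG K s j)).image
              (fun x : ℕ × ℕ => x.2 + K ^ j * x.1 * s)).card : ℝ)
              ≤ (((N / (K ^ j * s) + 1) * (GG K s j).card : ℕ) : ℝ) := by exact_mod_cast h3
            _ = ((N / (K ^ j * s) + 1 : ℕ) : ℝ) * (GG K s j).card := by push_cast; ring
            _ ≤ ((N / (K ^ j * s) + 1 : ℕ) : ℝ) * (3 / 4 * K) ^ j :=
                mul_le_mul_of_nonneg_left h4 (by positivity)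
            _ = _ := by push_cast; ring
  have hKj' : (0 : ℝ) < (K : ℝ) ^ j := by exact_mod_cast hKj
  have hM0 : (0 : ℝ) < M := by exact_mod_cast hM
  -- the harmonic sum
  have h2 : ∑ s ∈ range M, ((N / (K ^ j * s) + 1 : ℕ) : ℝ) ≤
      M + N / (K : ℝ) ^ j * (1 + Real.log M) := by
    have h3 : ∀ s ∈ range M, ((N / (K ^ j * s) + 1 : ℕ) : ℝ) ≤
        1 + N / (K : ℝ) ^ j * (s : ℝ)⁻¹ := by
      intro s _
      push_cast
      have h4 : ((N / (K ^ j * s) : ℕ) : ℝ) ≤ (N : ℝ) / ((K ^ j * s : ℕ) : ℝ) := Nat.cast_div_le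
      have h5 : (N : ℝ) / ((K ^ j * s : ℕ) : ℝ) = N / (K : ℝ) ^ j * (s : ℝ)⁻¹ := by
        push_cast
        rw [← div_div, div_eq_mul_inv (N / (K : ℝ) ^ j)]
      rw [h5] at h4
      linarith
    refine (Finset.sum_le_sum h3).trans ?_
    rw [Finset.sum_add_distrib, sum_const, card_range, nsmul_eq_mul, mul_one, ← Finset.mul_sum]
    have h6 : ∑ s ∈ range M, ((s : ℝ))⁻¹ ≤ 1 + Real.log M := by
      have h7 : ∑ s ∈ range M, ((s : ℝ))⁻¹ ≤ (harmonic M : ℝ) := by
        rw [harmonic]
        push_cast
        rw [show M = (M - 1) + 1 by omega, Finset.sum_range_succ' (fun s : ℕ => ((s : ℝ))⁻¹)]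
        simp only [Nat.cast_zero, inv_zero, add_zero]
        rw [Finset.sum_range_succ]
        have : (0 : ℝ) ≤ (((M - 1 : ℕ) : ℝ) + 1)⁻¹ := by positivity
        push_cast
        linarith
      exact h7.trans (harmonic_le_one_add_log M)
    have h8 : 0 ≤ (N : ℝ) / (K : ℝ) ^ j := by positivity
    have := mul_le_mul_of_nonneg_left h6 h8
    linarith
  rw [← Finset.sum_mul] at h1
  refine h1.trans ?_
  refine (mul_le_mul_of_nonneg_right h2 (by positivity)).trans ?_
  rw [mul_pow]
  have h9 : (M : ℝ) * (K : ℝ) ^ j ≤ N := by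
    have : M * K ^ j ≤ N := by rw [mul_comm]; exact hN
    exact_mod_cast this
  have hlogM : 0 ≤ Real.log M := Real.log_nonneg (by exact_mod_cast hM)
  calc ((M : ℝ) + N / (K : ℝ) ^ j * (1 + Real.log M)) * ((3 / 4) ^ j * (K : ℝ) ^ j)
      = (3 / 4) ^ j * (M * (K : ℝ) ^ j + N * (1 + Real.log M)) := by
        field_simp
    _ ≤ (3 / 4) ^ j * (N * (2 + Real.log M)) := by
        apply mul_le_mul_of_nonneg_left _ (by positivity)
        have : (N : ℝ) * (2 + Real.log M) = N + N * (1 + Real.log M) := by ring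
        linarith

end Pool.Agent.E290
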