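import Pool.Agent.Lib.MP_e290cc_nt.Asym
import Pool.Agent.Lib.MP_e290cc_nt.CoreA
import Pool.Agent.Lib.MP_e290cc_nt.Adm
import Pool.Agent.Lib.MP_e290cc_nt.Pnt

set_option autoImplicit false

/-!
The main bound in terms of `N`.
-/

namespace Pool.Agent.E290

open Finset Filter N6026a1c6

lemma tendsto_loglog : Tendsto (fun N : ℕ => Real.log (Real.log N)) atTop atTop :=
  Real.tendsto_log_atTop.comp (Real.tendsto_log_atTop.comp tendsto_natCast_atTop_atTop)

theorem main1 {c : ℝ} (hc0 : 0 < c) (hc : c < 1 / 2) :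
    ∀ᶠ N : ℕ in atTop, ∀ k : ℕ,
      (k : ℝ) ≤ (2 * N / Real.log N) *
        (1 + c * Real.log (Real.log (Real.log N)) / Real.log N) → A k ≤ 2 * N := by
  classical
  obtain ⟨C, hC0, hC⟩ := theta_ge
  obtain ⟨Cm, _, hCm⟩ := mertens1
  obtain ⟨C2, hC20, hC2⟩ := mertens2
  obtain ⟨K, hK, J0, hcore⟩ := coreC hC20 hC2
  set c0 : ℝ := (c + 1 / 2) / 2 with hc0def
  set c1 : ℝ := (c0 + 1 / 2) / 2 with hc1def
  have hcc : c < c0 := by rw [hc0def]; linarith
  have h01 : c0 < c1 := by rw [hc1def, hc0def]; linarith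
  have h12 : c1 < 1 / 2 := by rw [hc1def, hc0def]; linarith
  have hev := tendsto_loglog.eventually (ev_all hc0 hcc h01 h12 C Cm K J0)
  filter_upwards [hev, eventually_ge_atTop 3] with N hN hN3 k hk
  clear hev
  obtain ⟨a1, a2, a3, a4, a5, a6, a7, a8, a9, a10, a11, a12, a13, a14, a15, a16, a17, a18⟩ := hN
  have hN3' : (3 : ℝ) ≤ N := by exact_mod_cast hN3
  have hN0 : (0 : ℝ) < N := by linarith
  set L : ℝ := Real.log N with hLN
  set lam : ℝ := Real.log L with hlL
  have hL00 : 0 < L := by rw [hLN]; exact Real.log_pos (by linarith)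
  have hexp : Real.exp lam = L := by rw [hlL, Real.exp_log hL00]
  rw [hexp] at a6 a11 a12 a13 a14 a16 a17
  have hNe : (N : ℝ) = Real.exp L := by rw [hLN, Real.exp_log hN0]
  set E1 : ℝ := lam ^ c1 with hE1
  set w : ℕ := ⌊lam ^ c0⌋₊ with hw
  set r1 : ℕ := ⌊Real.exp (E1 ^ 2)⌋₊ with hr1
  set x : ℕ := ⌊L / 4⌋₊ with hx
  set D : ℝ := Real.exp E1 with hD
  set z : ℕ := ⌊(N : ℝ) / (L * D)⌋₊ + 1 with hz
  set X : ℕ := N / z with hX
  set Z : ℕ := ⌊4 * (N : ℝ) / L⌋₊ with hZ
  have hD0 : 0 < D := Real.exp_pos _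
  have hDL : D ≤ L := by
    rw [hD, ← hexp]
    exact Real.exp_le_exp.2 a3
  have hD1 : 1 ≤ D := Real.one_le_exp (by linarith)
  -- size facts
  have hNL : 4 * L ^ 4 ≤ N := by
    have h1 : 2 * L ^ 2 ≤ Real.exp (3 / 20 * L) := by
      have h2 : Real.exp (13 / 20 * L) = Real.exp (3 / 20 * L) * Real.exp (L / 2) := by
        rw [← Real.exp_add]
        congr 1
        ring
      rw [h2] at a14
      exact le_of_mul_le_mul_right a14 (Real.exp_pos _)
    have h3 : Real.exp (3 / 20 * L) ≤ Real.exp (L / 2) := Real.exp_le_exp.2 (by linarith)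
    have h4 : (N : ℝ) = Real.exp (L / 2) * Real.exp (L / 2) := by
      rw [← Real.exp_add, hNe]
      congr 1
      ring
    rw [h4]
    have h5 : 2 * L ^ 2 ≤ Real.exp (L / 2) := h1.trans h3
    have h6 : 0 ≤ 2 * L ^ 2 := by positivity
    calc 4 * L ^ 4 = (2 * L ^ 2) * (2 * L ^ 2) := by ring
      _ ≤ Real.exp (L / 2) * Real.exp (L / 2) := mul_le_mul h5 h5 h6 (Real.exp_pos _).le
  have hLD1 : L * D ≤ L ^ 2 := by
    rw [sq]
    exact mul_le_mul_of_nonneg_left hDL hL00.le
  have hLDpos : 0 < L * D := by positivity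
  have hfl1 : (N : ℝ) / (L * D) ≤ z := by
    rw [hz]
    push_cast
    exact (Nat.lt_floor_add_one _).le
  have hNL2 : (N : ℝ) / L ^ 2 ≤ N / (L * D) :=
    div_le_div_of_nonneg_left hN0.le hLDpos hLD1
  have h4L2 : 4 * L ^ 2 ≤ (N : ℝ) / L ^ 2 := by
    rw [le_div_iff₀ (by positivity)]
    calc 4 * L ^ 2 * L ^ 2 = 4 * L ^ 4 := by ring
      _ ≤ (N : ℝ) := hNL
  have hz1 : 4 * L ^ 2 ≤ (z : ℝ) := by linarith
  have hLL : L ≤ L ^ 2 := by
    rw [sq]
    exact le_mul_of_one_le_left hL00.le (by linarith)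
  have hz2 : 2 ≤ z := by
    have : (2 : ℝ) ≤ z := by linarith
    exact_mod_cast this
  have hzle : (z : ℝ) ≤ 2 * N / (L * D) := by
    have h1 : (⌊(N : ℝ) / (L * D)⌋₊ : ℝ) ≤ (N : ℝ) / (L * D) := Nat.floor_le (by positivity)
    have h2 : 2 * (N : ℝ) / (L * D) = N / (L * D) + N / (L * D) := by ring
    rw [hz, h2]
    push_cast
    have h3 : (1 : ℝ) ≤ N / (L * D) := by linarith
    linarith
  have hzN : N ≤ z ^ 2 := by
    have h1 : (N : ℝ) ≤ (z : ℝ) ^ 2 := by
      have h2 : (N : ℝ) / L ^ 2 ≤ z := by linarith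
      have h3 : (N : ℝ) ≤ z * L ^ 2 := by
        rwa [div_le_iff₀ (by positivity)] at h2
      have h4 : L ^ 2 ≤ (z : ℝ) := by linarith
      have h5 : (0 : ℝ) ≤ z := by positivity
      calc (N : ℝ) ≤ z * L ^ 2 := h3
        _ ≤ z * z := mul_le_mul_of_nonneg_left h4 h5
        _ = (z : ℝ) ^ 2 := by ring
    exact_mod_cast h1
  have hz0 : 0 < z := by omega
  have hz0' : (0 : ℝ) < z := by exact_mod_cast hz0
  have hXz : X * z ≤ N := Nat.div_mul_le_self N z
  have hX2 : (X : ℝ) ≤ L * D := by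
    have h1 : (X : ℝ) ≤ (N : ℝ) / z := Nat.cast_div_le
    refine h1.trans ?_
    rw [div_le_iff₀ hz0']
    rw [div_le_iff₀ hLDpos] at hfl1
    linarith
  have hX1 : L * D / 4 ≤ X := by
    have h1 : (N : ℝ) / z - 1 ≤ X := by
      have h2 : N < z * (N / z + 1) := Nat.lt_mul_div_succ N hz0
      have h3 : (N : ℝ) < z * ((N / z : ℕ) + 1) := by exact_mod_cast h2
      have h4 : (N : ℝ) / z < ((N / z : ℕ) : ℝ) + 1 := by
        rw [div_lt_iff₀ hz0']
        linarith
      rw [hX]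
      linarith
    have h2 : L * D / 2 ≤ (N : ℝ) / z := by
      rw [le_div_iff₀ hz0']
      have h3 : (z : ℝ) * (L * D) ≤ 2 * N := by
        rwa [le_div_iff₀ hLDpos] at hzle
      linarith
    have h3 : 16 ≤ L * D := by
      have := mul_le_mul_of_nonneg_left hD1 hL00.le
      linarith
    linarith
  -- `x` and `r1`
  have hx1 : (x : ℝ) ≤ L / 4 := Nat.floor_le (by positivity)
  have hx2 : L / 4 - 1 ≤ x := by
    have := Nat.lt_floor_add_one (L / 4)
    rw [← hx] at this
    linarith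
  have hr1a : (r1 : ℝ) ≤ Real.exp (E1 ^ 2) := Nat.floor_le (Real.exp_pos _).le
  have hr1b : Real.exp (E1 ^ 2) - 1 ≤ r1 := by
    have := Nat.lt_floor_add_one (Real.exp (E1 ^ 2))
    rw [← hr1] at this
    linarith
  have hr1x : r1 ≤ x := by
    have : (r1 : ℝ) ≤ x := by linarith
    exact_mod_cast this
  have hwr : w ≤ r1 := by
    have h1 := Real.add_one_le_exp (E1 ^ 2)
    have : (w : ℝ) ≤ r1 := by linarith
    exact_mod_cast this
  have hxz : x ≤ z := by
    have : (x : ℝ) ≤ z := by linarith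
    exact_mod_cast this
  have hwz : w ≤ z := by omega
  have h8 : (L * D) ^ (1 / lam) ≤ 8 := by
    have h1 : L * D = Real.exp (lam + E1) := by
      rw [Real.exp_add, hexp]
    rw [h1, ← Real.exp_mul]
    calc Real.exp ((lam + E1) * (1 / lam)) ≤ Real.exp 2 := by
          apply Real.exp_le_exp.2
          rw [mul_one_div, div_le_iff₀ (by linarith)]
          linarith
      _ ≤ 8 := by
          have := Real.exp_one_lt_d9
          have h4 : Real.exp 2 = Real.exp 1 * Real.exp 1 := by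
            rw [← Real.exp_add]
            norm_num
          rw [h4]
          nlinarith [Real.exp_pos 1]
  -- the sifted set
  have hA := coreA (N := N) (w := w) (X := X) (z := z) (L := L) (lam := lam) (D := D) hC hC0 hCm
    hLN (by linarith) (by linarith) hD0 a7 h8 a9 hwz hz2 hzN hXz (by omega) hX1 hX2 hzle a12 a10
    a11
  obtain ⟨a, S, hSN, hsift, hScard⟩ := exists_sifted w z N
  obtain ⟨b, hb⟩ := hcore w r1 x z Z N a S L lam E1 (E1 ^ 2) hLN hlL a16 a1 (by linarith) a3 a4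
    le_rfl hr1b hr1x hx2 hx1 hfl1 (Nat.floor_le (by positivity)) hz2 hwr hxz
    (fun M hM => SM_small hlL a16 (by linarith) (by linarith) a4 hr1a a5 hM)
    a13 a14 hzN (by omega) hSN hsift
  set S' : Finset ℤ := S.filter (fun n => ∀ p ∈ PR z Z, ¬ (p : ℤ) ∣ n - b p) with hS'
  have hcardS' : (2 * N / L) * (1 + c * Real.log lam / L) ≤ (S'.card : ℝ) := by
    have h1 : 2 * ((N / L) * (1 + (Real.log w - Cm - 5) / L)) - K * (N / L ^ 2) ≤
        (S'.card : ℝ) := by linarith
    refine le_trans ?_ h1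
    have e : 2 * ((N / L) * (1 + (Real.log w - Cm - 5) / L)) - K * (N / L ^ 2) =
        (2 * N / L) * (1 + (Real.log w - Cm - 5 - K / 2) / L) := by
      field_simp
      ring
    rw [e]
    apply mul_le_mul_of_nonneg_left _ (by positivity)
    have : c * Real.log lam / L ≤ (Real.log w - Cm - 5 - K / 2) / L :=
      div_le_div_of_nonneg_right a15 hL00.le
    linarith
  have hkS : k ≤ S'.card := by
    have : (k : ℝ) ≤ S'.card := hk.trans hcardS'
    exact_mod_cast this
  have hkZ : k ≤ Z := by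
    apply Nat.le_floor
    refine hk.trans ?_
    have h1 : c * Real.log lam / L ≤ 1 := by
      rw [div_le_one hL00]
      exact a17
    calc (2 * N / L) * (1 + c * Real.log lam / L) ≤ (2 * N / L) * 2 := by
          apply mul_le_mul_of_nonneg_left _ (by positivity)
          linarith
      _ = 4 * N / L := by ring
  refine A_le_of_sifted w z Z N k a S' b ((filter_subset _ _).trans hSN) ?_ ?_ hkS hkZ
  · intro n hn
    exact hsift n (mem_filter.1 hn).1
  · intro p hp n hn
    exact (mem_filter.1 hn).2 p hp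

end Pool.Agent.E290
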