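import Pool.Agent.Lib.MP_e290cc_nt.Smooth

set_option autoImplicit false

/-!
Rankin's trick for smooth numbers, with an exponent near `1`.
-/

namespace Pool.Agent.E290

open Finset Real

/-- the whole sum of reciprocals, up to the tail -/
theorem sum_SM_ge' {δ : ℝ} (h0 : 0 < δ) (h1 : δ ≤ 1) (w X : ℕ) (hX : 1 ≤ X) {B : ℝ}
    (hB : ∏ p ∈ (w + 1).primesBelow, (1 - (p : ℝ) ^ (-δ))⁻¹ ≤ B) :
    (V w)⁻¹ - (X : ℝ) ^ (-(1 - δ)) * B ≤ ∑ s ∈ SM w X, 1 / (s : ℝ) := by
  classical
  obtain ⟨hsum1, hhas1⟩ :=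
    EulerProduct.summable_and_hasSum_smoothNumbers_prod_primesBelow_geometric
      (fun {p} hp => powH_norm (σ := 1) one_pos hp) (w + 1)
  obtain ⟨hsum2, hhas2⟩ :=
    EulerProduct.summable_and_hasSum_smoothNumbers_prod_primesBelow_geometric
      (fun {p} hp => powH_norm (σ := δ) h0 hp) (w + 1)
  have hX0 : (0 : ℝ) < X := by exact_mod_cast hX
  -- the finite part
  let F : Nat.smoothNumbers (w + 1) → ℝ := fun s => if (s : ℕ) ≤ X then 1 / ((s : ℕ) : ℝ) else 0
  have hF : HasSum F (∑ s ∈ SM w X, 1 / (s : ℝ)) := by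
    let e : {s // s ∈ SM w X} ↪ Nat.smoothNumbers (w + 1) :=
      ⟨fun s => ⟨s.1, (mem_SM.1 s.2).2.2⟩, fun a b h => Subtype.ext (by simpa using h)⟩
    have h := hasSum_sum_of_ne_finset_zero (L := SummationFilter.unconditional _) (f := F)
      (s := (SM w X).attach.map e) (by
      intro s hs
      simp only [F]
      rw [if_neg]
      intro hle
      apply hs
      rw [mem_map]
      have hs1 : 1 ≤ (s : ℕ) := Nat.pos_of_ne_zero (Nat.ne_zero_of_mem_smoothNumbers s.2)
      exact ⟨⟨s, mem_SM.2 ⟨hs1, hle, s.2⟩⟩, mem_attach _ _, Subtype.ext rfl⟩)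
    rw [Finset.sum_map] at h
    have e2 : ∑ x ∈ (SM w X).attach, F (e x) = ∑ s ∈ SM w X, 1 / (s : ℝ) := by
      rw [← Finset.sum_attach (SM w X) (fun s => 1 / (s : ℝ))]
      apply Finset.sum_congr rfl
      intro x _
      show (if (x : ℕ) ≤ X then 1 / ((x : ℕ) : ℝ) else 0) = _
      rw [if_pos (mem_SM.1 x.2).2.1]
    rwa [e2] at h
  have hpt : ∀ s : Nat.smoothNumbers (w + 1), powH 1 s ≤ F s + (X : ℝ) ^ (-(1 - δ)) * powH δ s := by
    intro s
    have hs1 : 1 ≤ (s : ℕ) := Nat.pos_of_ne_zero (Nat.ne_zero_of_mem_smoothNumbers s.2)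
    have hs0 : (0 : ℝ) < ((s : ℕ) : ℝ) := by exact_mod_cast hs1
    simp only [F, powH_apply]
    rw [Real.rpow_neg_one]
    by_cases h : (s : ℕ) ≤ X
    · rw [if_pos h, one_div]
      have : 0 ≤ (X : ℝ) ^ (-(1 - δ)) * ((s : ℕ) : ℝ) ^ (-δ) := by positivity
      linarith
    · rw [if_neg h, zero_add]
      have hXs : (X : ℝ) ≤ ((s : ℕ) : ℝ) := by
        have : X ≤ (s : ℕ) := by omega
        exact_mod_cast this
      calc (((s : ℕ) : ℝ))⁻¹ = ((s : ℕ) : ℝ) ^ (-(1 - δ)) * ((s : ℕ) : ℝ) ^ (-δ) := by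
            rw [← Real.rpow_add hs0, show -(1 - δ) + -δ = -1 by ring, Real.rpow_neg_one]
        _ ≤ (X : ℝ) ^ (-(1 - δ)) * ((s : ℕ) : ℝ) ^ (-δ) := by
            apply mul_le_mul_of_nonneg_right _ (by positivity)
            exact Real.rpow_le_rpow_of_nonpos hX0 hXs (by linarith)
  have hle : ∏ p ∈ (w + 1).primesBelow, (1 - powH 1 p)⁻¹ ≤
      ∑ s ∈ SM w X, 1 / (s : ℝ) +
        (X : ℝ) ^ (-(1 - δ)) * ∏ p ∈ (w + 1).primesBelow, (1 - powH δ p)⁻¹ :=
    hasSum_le hpt hhas1 (hF.add (hhas2.mul_left _))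
  have e1 : ∏ p ∈ (w + 1).primesBelow, (1 - powH 1 p)⁻¹ = (V w)⁻¹ := by
    unfold V
    rw [← Finset.prod_inv_distrib]
    apply Finset.prod_congr rfl
    intro p _
    rw [powH_apply, Real.rpow_neg_one, one_div]
  have e2 : ∏ p ∈ (w + 1).primesBelow, (1 - powH δ p)⁻¹ ≤ B := hB
  rw [e1] at hle
  have h5 : (X : ℝ) ^ (-(1 - δ)) * ∏ p ∈ (w + 1).primesBelow, (1 - powH δ p)⁻¹ ≤
      (X : ℝ) ^ (-(1 - δ)) * B := mul_le_mul_of_nonneg_left e2 (by positivity)
  linarith

/-- one prime -/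
lemma one_prime {δ : ℝ} (h1 : 1 / 2 ≤ δ) (h2 : δ ≤ 1) {p : ℕ} (hp : p.Prime) :
    (1 - (p : ℝ) ^ (-δ))⁻¹ ≤
      (1 - 1 / (p : ℝ))⁻¹ * Real.exp (4 * ((p : ℝ) ^ (-δ) - 1 / (p : ℝ))) := by
  have hp2 : (2 : ℝ) ≤ p := by exact_mod_cast hp.two_le
  have hp0 : (0 : ℝ) < p := by linarith
  set a : ℝ := (p : ℝ) ^ (-δ) with ha
  set b : ℝ := 1 / (p : ℝ) with hb
  have hab : b ≤ a := by
    rw [ha, hb, one_div, ← Real.rpow_neg_one]
    exact Real.rpow_le_rpow_of_exponent_le (by linarith) (by linarith)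
  have ha34 : a ≤ 3 / 4 := by
    have h3 : a ≤ (2 : ℝ) ^ (-(1 / 2) : ℝ) := by
      calc a ≤ (p : ℝ) ^ (-(1 / 2) : ℝ) :=
            Real.rpow_le_rpow_of_exponent_le (by linarith) (by linarith)
        _ ≤ (2 : ℝ) ^ (-(1 / 2) : ℝ) :=
            Real.rpow_le_rpow_of_nonpos (by norm_num) hp2 (by norm_num)
    have h4 : (2 : ℝ) ^ (-(1 / 2) : ℝ) ≤ 3 / 4 := by
      have h5 : ((2 : ℝ) ^ (-(1 / 2) : ℝ)) ^ 2 = 1 / 2 := by
        rw [← Real.rpow_natCast, ← Real.rpow_mul (by norm_num)]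
        norm_num
      have h6 : 0 < (2 : ℝ) ^ (-(1 / 2) : ℝ) := by positivity
      nlinarith
    linarith
  have hb0 : 0 < b := by positivity
  have h1a : 0 < 1 - a := by linarith
  have h1b : 0 < 1 - b := by linarith
  have h5 : (1 - a)⁻¹ ≤ (1 - b)⁻¹ * (1 + 4 * (a - b)) := by
    rw [← div_eq_inv_mul, inv_eq_one_div, div_le_div_iff₀ h1a h1b]
    nlinarith
  refine h5.trans ?_
  apply mul_le_mul_of_nonneg_left _ (by positivity)
  have := Real.add_one_le_exp (4 * (a - b))
  linarith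

/-- `exp x - 1 ≤ x exp c` for `0 ≤ x ≤ c` -/
lemma exp_sub_one_le {x c : ℝ} (h0 : 0 ≤ x) (h1 : x ≤ c) :
    Real.exp x - 1 ≤ x * Real.exp c := by
  have h2 := Real.add_one_le_exp (-x)
  have h3 : Real.exp x * Real.exp (-x) = 1 := by
    rw [← Real.exp_add]
    simp
  have h4 : Real.exp x - 1 ≤ x * Real.exp x := by
    have := mul_le_mul_of_nonneg_left h2 (Real.exp_pos x).le
    nlinarith
  have h5 : x * Real.exp x ≤ x * Real.exp c :=
    mul_le_mul_of_nonneg_left (Real.exp_le_exp.2 h1) h0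
  linarith

/-- The Euler product near `1`. -/
lemma prod_near {Cm c : ℝ} (hCm : 0 ≤ Cm) (hc : 1 ≤ c) {w : ℕ}
    (hcw : 2 * c ≤ Real.log w)
    (hmer : ∑ p ∈ (Icc 1 w).filter Nat.Prime, Real.log p / p ≤ Real.log w + Cm) :
    ∏ p ∈ (w + 1).primesBelow, (1 - (p : ℝ) ^ (-(1 - c / Real.log w)))⁻¹ ≤
      (V w)⁻¹ * Real.exp (4 * (1 + Cm) * c * Real.exp c) := by
  have hL : 0 < Real.log w := by linarith
  have hδ1 : 1 / 2 ≤ 1 - c / Real.log w := by
    have : c / Real.log w ≤ 1 / 2 := by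
      rw [div_le_iff₀ hL]
      linarith
    linarith
  have hδ2 : 1 - c / Real.log w ≤ 1 := by
    have : 0 ≤ c / Real.log w := by positivity
    linarith
  have hE0 : 0 < Real.exp c := Real.exp_pos c
  calc ∏ p ∈ (w + 1).primesBelow, (1 - (p : ℝ) ^ (-(1 - c / Real.log w)))⁻¹
      ≤ ∏ p ∈ (w + 1).primesBelow, ((1 - 1 / (p : ℝ))⁻¹ *
          Real.exp (4 * ((p : ℝ) ^ (-(1 - c / Real.log w)) - 1 / (p : ℝ)))) := by
        apply Finset.prod_le_prod
        · intro p hp
          have hp1 : (1 : ℝ) ≤ p := by exact_mod_cast (Nat.prime_of_mem_primesBelow hp).one_lt.le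
          have : (p : ℝ) ^ (-(1 - c / Real.log w)) ≤ 1 :=
            Real.rpow_le_one_of_one_le_of_nonpos hp1 (by linarith)
          exact inv_nonneg.2 (by linarith)
        · intro p hp
          exact one_prime hδ1 hδ2 (Nat.prime_of_mem_primesBelow hp)
    _ = (V w)⁻¹ * Real.exp (∑ p ∈ (w + 1).primesBelow,
          (4 * ((p : ℝ) ^ (-(1 - c / Real.log w)) - 1 / (p : ℝ)))) := by
        rw [Finset.prod_mul_distrib, Real.exp_sum, Finset.prod_inv_distrib, V]
    _ ≤ (V w)⁻¹ * Real.exp (4 * (1 + Cm) * c * Real.exp c) := by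
        apply mul_le_mul_of_nonneg_left _ (inv_nonneg.2 (V_pos w).le)
        apply Real.exp_le_exp.2
        have h1 : ∀ p ∈ (w + 1).primesBelow,
            4 * ((p : ℝ) ^ (-(1 - c / Real.log w)) - 1 / (p : ℝ)) ≤
              (4 * c * Real.exp c / Real.log w) * (Real.log p / p) := by
          intro p hp
          have hpp := Nat.prime_of_mem_primesBelow hp
          have hpw : p ≤ w := by
            have := Nat.lt_of_mem_primesBelow hp
            omega
          have hp1 : (1 : ℝ) ≤ p := by exact_mod_cast hpp.one_lt.le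
          have hp0 : (0 : ℝ) < p := by linarith
          have hlp : 0 ≤ Real.log p := Real.log_nonneg hp1
          have hlpw : Real.log p ≤ Real.log w := Real.log_le_log hp0 (by exact_mod_cast hpw)
          have e1 : (p : ℝ) ^ (-(1 - c / Real.log w)) =
              1 / (p : ℝ) * Real.exp (c * Real.log p / Real.log w) := by
            rw [Real.rpow_def_of_pos hp0, show Real.log p * -(1 - c / Real.log w) =
              -Real.log p + c * Real.log p / Real.log w by ring, Real.exp_add, Real.exp_neg,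
              Real.exp_log hp0, one_div]
          have h2 : Real.exp (c * Real.log p / Real.log w) - 1 ≤
              (c * Real.log p / Real.log w) * Real.exp c := by
            apply exp_sub_one_le (by positivity)
            rw [div_le_iff₀ hL]
            exact mul_le_mul_of_nonneg_left hlpw (by linarith)
          rw [e1]
          have h3 : 0 < 1 / (p : ℝ) := by positivity
          have h4 := mul_le_mul_of_nonneg_left h2 h3.le
          have e2 : (4 * c * Real.exp c / Real.log w) * (Real.log p / p) =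
              4 * (1 / (p : ℝ) * ((c * Real.log p / Real.log w) * Real.exp c)) := by
            ring
          rw [e2]
          have e3 : 4 * (1 / (p : ℝ) * Real.exp (c * Real.log p / Real.log w) - 1 / (p : ℝ)) =
              4 * (1 / (p : ℝ) * (Real.exp (c * Real.log p / Real.log w) - 1)) := by ring
          rw [e3]
          linarith
        refine (Finset.sum_le_sum h1).trans ?_
        rw [← Finset.mul_sum]
        have hset : (w + 1).primesBelow = (Icc 1 w).filter Nat.Prime := by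
          ext p
          rw [Nat.mem_primesBelow, mem_filter, mem_Icc]
          constructor
          · rintro ⟨h, hp⟩
            exact ⟨⟨hp.pos, by omega⟩, hp⟩
          · rintro ⟨h, hp⟩
            exact ⟨by omega, hp⟩
        rw [hset]
        have h5 : ∑ p ∈ (Icc 1 w).filter Nat.Prime, Real.log p / p ≤ (1 + Cm) * Real.log w := by
          refine hmer.trans ?_
          have : Cm ≤ Cm * Real.log w := by nlinarith
          linarith
        calc (4 * c * Real.exp c / Real.log w) *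
              ∑ p ∈ (Icc 1 w).filter Nat.Prime, Real.log p / p
            ≤ (4 * c * Real.exp c / Real.log w) * ((1 + Cm) * Real.log w) :=
              mul_le_mul_of_nonneg_left h5 (by positivity)
          _ = 4 * (1 + Cm) * c * Real.exp c := by
              field_simp

/-- Almost all of the sum of reciprocals of the smooth numbers lies below `X`. -/
theorem sum_SM_ge2 {Cm c : ℝ} (hCm : 0 ≤ Cm) (hc : 1 ≤ c) {w X : ℕ} (hX : 1 ≤ X)
    (hcw : 2 * c ≤ Real.log w)
    (hmer : ∑ p ∈ (Icc 1 w).filter Nat.Prime, Real.log p / p ≤ Real.log w + Cm) :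
    (V w)⁻¹ * (1 - Real.exp (4 * (1 + Cm) * c * Real.exp c - c * Real.log X / Real.log w)) ≤
      ∑ s ∈ SM w X, 1 / (s : ℝ) := by
  have hL : 0 < Real.log w := by linarith
  have hc2 : c / Real.log w ≤ 1 / 2 := by
    rw [div_le_iff₀ hL]
    linarith
  have hc3 : 0 ≤ c / Real.log w := by positivity
  have h := sum_SM_ge' (δ := 1 - c / Real.log w) (by linarith) (by linarith) w X hX
    (prod_near hCm hc hcw hmer)
  refine le_trans (le_of_eq ?_) h
  have hX0 : (0 : ℝ) < X := by exact_mod_cast hX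
  have e1 : (X : ℝ) ^ (-(1 - (1 - c / Real.log w))) =
      Real.exp (-(c * Real.log X / Real.log w)) := by
    rw [Real.rpow_def_of_pos hX0]
    congr 1
    ring
  rw [e1, sub_eq_add_neg (4 * (1 + Cm) * c * Real.exp c), Real.exp_add]
  ring

end Pool.Agent.E290
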