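import Pool.Agent.Lib.MP_e290cc_nt.Smooth

set_option autoImplicit false

/-!
Integers up to `N` without prime factors in `(w, z]`: lower bound.
-/

namespace Pool.Agent.E290

open Finset Real

/-- integers in `[1, N]` without prime factors in `(w, z]` -/
noncomputable def R1 (w z N : ℕ) : Finset ℕ := by
  classical exact (Icc 1 N).filter (fun n => ∀ p : ℕ, p.Prime → w < p → p ≤ z → ¬ p ∣ n)

lemma mem_R1 {w z N n : ℕ} : n ∈ R1 w z N ↔
    1 ≤ n ∧ n ≤ N ∧ ∀ p : ℕ, p.Prime → w < p → p ≤ z → ¬ p ∣ n := by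
  classical
  unfold R1
  rw [mem_filter, mem_Icc]
  tauto

/-- primes in `(a, b]` -/
def PR (a b : ℕ) : Finset ℕ := (Ioc a b).filter Nat.Prime

lemma mem_PR {a b p : ℕ} : p ∈ PR a b ↔ a < p ∧ p ≤ b ∧ p.Prime := by
  unfold PR
  rw [mem_filter, mem_Ioc]
  tauto

lemma smooth_le {w s q : ℕ} (hs : s ∈ Nat.smoothNumbers (w + 1)) (hq : q.Prime) (hd : q ∣ s) :
    q ≤ w := by
  have := (Nat.mem_smoothNumbers'.1 hs) q hq hd
  omega

theorem count_ge (w z X N : ℕ) (hwz : w ≤ z) :
    ∑ s ∈ SM w X, (PR z (N / s)).card ≤ (R1 w z N).card := by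
  classical
  rw [← Finset.card_sigma]
  apply Finset.card_le_card_of_injOn (fun x : (_ : ℕ) × ℕ => x.1 * x.2)
  · rintro ⟨s, q⟩ hx
    simp only [coe_sigma, Set.mem_sigma_iff, mem_coe] at hx
    obtain ⟨hs, hq⟩ := hx
    rw [mem_SM] at hs
    rw [mem_PR] at hq
    simp only [mem_coe]
    rw [mem_R1]
    refine ⟨Nat.mul_pos hs.1 hq.2.2.pos, ?_, ?_⟩
    · have := Nat.mul_le_of_le_div s q N hq.2.1
      rw [mul_comm]
      exact this
    · intro p hp hwp hpz hd
      rcases (hp.dvd_mul).1 hd with h | h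
      · have := smooth_le hs.2.2 hp h
        omega
      · have := (Nat.prime_dvd_prime_iff_eq hp hq.2.2).1 h
        omega
  · rintro ⟨s, q⟩ hx ⟨s', q'⟩ hx' h
    simp only [coe_sigma, Set.mem_sigma_iff, mem_coe] at hx hx'
    simp only at h
    obtain ⟨hs, hq⟩ := hx
    obtain ⟨hs', hq'⟩ := hx'
    rw [mem_SM] at hs hs'
    rw [mem_PR] at hq hq'
    have hqq : q = q' := by
      have hd : q ∣ s' * q' := by rw [← h]; exact dvd_mul_left q s
      rcases (hq.2.2.dvd_mul).1 hd with h1 | h1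
      · have := smooth_le hs'.2.2 hq.2.2 h1
        omega
      · exact (Nat.prime_dvd_prime_iff_eq hq.2.2 hq'.2.2).1 h1
    subst hqq
    have hss : s = s' := Nat.eq_of_mul_eq_mul_right hq.2.2.pos h
    subst hss
    rfl

lemma theta_sub {z : ℕ} {t : ℝ} (h : (z : ℝ) ≤ t) :
    Chebyshev.theta t - Chebyshev.theta z = ∑ q ∈ PR z ⌊t⌋₊, Real.log q := by
  have hz : z ≤ ⌊t⌋₊ := Nat.le_floor h
  rw [Chebyshev.theta, Chebyshev.theta, Nat.floor_natCast, PR]
  rw [sub_eq_iff_eq_add, ← Finset.sum_union]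
  · apply Finset.sum_congr _ (fun _ _ => rfl)
    ext q
    simp only [mem_filter, mem_union, mem_Ioc]
    constructor
    · rintro ⟨⟨h1, h2⟩, h3⟩
      by_cases h4 : z < q
      · exact Or.inl ⟨⟨h4, h2⟩, h3⟩
      · exact Or.inr ⟨⟨h1, by omega⟩, h3⟩
    · rintro (⟨⟨h1, h2⟩, h3⟩ | ⟨⟨h1, h2⟩, h3⟩)
      · exact ⟨⟨by omega, h2⟩, h3⟩
      · exact ⟨⟨h1, by omega⟩, h3⟩
  · rw [Finset.disjoint_left]
    intro q hq hq'
    rw [mem_filter, mem_Ioc] at hq hq'
    omega

/-- The lower bound for the number of integers without prime factors in `(w, z]`. -/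
theorem R1_ge {C : ℝ} (hC : ∀ t : ℝ, 2 ≤ t → t - C * t / (Real.log t) ^ 2 ≤ Chebyshev.theta t)
    (hC0 : 0 ≤ C) {w z X N : ℕ} (hwz : w ≤ z) (hz : 2 ≤ z) (hzN : N ≤ z ^ 2) (hXz : X * z ≤ N)
    (hN : 2 ≤ N) (hL : 4 * C ≤ (Real.log N) ^ 2) :
    (N / Real.log N) * ((1 - 4 * C / (Real.log N) ^ 2) *
      ∑ s ∈ SM w X, 1 / (s : ℝ) * (1 + Real.log s / Real.log N)) -
      (SM w X).card * (4 * z / Real.log N) ≤ (R1 w z N).card := by
  set L := Real.log N with hLdef
  have hN2 : (2 : ℝ) ≤ N := by exact_mod_cast hN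
  have hN0 : (0 : ℝ) < N := by linarith
  have hL0 : 0 < L := Real.log_pos (by linarith)
  have hz2 : (2 : ℝ) ≤ z := by exact_mod_cast hz
  have hLz : L / 2 ≤ Real.log z := by
    have : L ≤ Real.log ((z : ℝ) ^ 2) := Real.log_le_log hN0 (by exact_mod_cast hzN)
    rw [Real.log_pow] at this
    push_cast at this
    linarith
  have hκ : 0 ≤ 1 - 4 * C / L ^ 2 := by
    have : 4 * C / L ^ 2 ≤ 1 := by
      rw [div_le_one (by positivity)]
      exact hL
    linarith
  have key : ∀ s ∈ SM w X, (N / L) * ((1 - 4 * C / L ^ 2) * (1 / (s : ℝ) * (1 + Real.log s / L)))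
      - 4 * z / L ≤ ((PR z (N / s)).card : ℝ) := by
    intro s hs
    rw [mem_SM] at hs
    have hs0 : (0 : ℝ) < s := by exact_mod_cast hs.1
    have hs1 : (1 : ℝ) ≤ s := by exact_mod_cast hs.1
    set t : ℝ := (N : ℝ) / s with ht
    have hzt : (z : ℝ) ≤ t := by
      rw [ht, le_div_iff₀ hs0]
      have : z * s ≤ N := by
        calc z * s ≤ z * X := Nat.mul_le_mul_left _ hs.2.1
          _ = X * z := mul_comm _ _
          _ ≤ N := hXz
      exact_mod_cast this
    have ht2 : 2 ≤ t := hz2.trans hzt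
    have ht0 : 0 < t := by linarith
    have hfl : ⌊t⌋₊ = N / s := by rw [ht, Nat.floor_div_natCast, Nat.floor_natCast]
    have hlogt : Real.log t = L - Real.log s := by
      rw [ht, Real.log_div hN0.ne' hs0.ne']
    have hlogs : 0 ≤ Real.log s := Real.log_nonneg hs1
    have hlogt2 : L / 2 ≤ Real.log t := hLz.trans (Real.log_le_log (by linarith) hzt)
    have hlogt0 : 0 < Real.log t := by linarith
    -- theta
    have h1 : t * (1 - 4 * C / L ^ 2) ≤ Chebyshev.theta t := by
      refine le_trans ?_ (hC t ht2)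
      have h2 : C * t / (Real.log t) ^ 2 ≤ t * (4 * C / L ^ 2) := by
        rw [div_le_iff₀ (by positivity)]
        have h3 : L ^ 2 / 4 ≤ (Real.log t) ^ 2 := by nlinarith
        have h4 : t * (4 * C / L ^ 2) * (L ^ 2 / 4) ≤ t * (4 * C / L ^ 2) * (Real.log t) ^ 2 :=
          mul_le_mul_of_nonneg_left h3 (by positivity)
        have h5 : t * (4 * C / L ^ 2) * (L ^ 2 / 4) = C * t := by
          field_simp
        linarith
      linarith
    have h2 : Chebyshev.theta z ≤ 2 * z := by
      have := Chebyshev.theta_le_log4_mul_x (x := (z : ℝ)) (by positivity)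
      have h4 : Real.log 4 ≤ 2 := by
        have : Real.log 4 = 2 * Real.log 2 := by
          rw [show (4 : ℝ) = 2 ^ 2 by norm_num, Real.log_pow]; norm_num
        have h2' := Real.log_two_lt_d9
        linarith
      have h5 : Real.log 4 * (z : ℝ) ≤ 2 * z := mul_le_mul_of_nonneg_right h4 (by positivity)
      linarith
    have h3 : Chebyshev.theta t - Chebyshev.theta z ≤ ((PR z (N / s)).card : ℝ) * Real.log t := by
      rw [theta_sub hzt, hfl]
      calc ∑ q ∈ PR z (N / s), Real.log q ≤ ∑ q ∈ PR z (N / s), Real.log t := by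
            apply Finset.sum_le_sum
            intro q hq
            rw [mem_PR] at hq
            apply Real.log_le_log (by exact_mod_cast hq.2.2.pos)
            have : q ≤ ⌊t⌋₊ := by rw [hfl]; exact hq.2.1
            exact (Nat.le_floor_iff ht0.le).1 this
        _ = _ := by rw [sum_const, nsmul_eq_mul]
    -- divide by log t
    have h4 : (Chebyshev.theta t - Chebyshev.theta z) / Real.log t ≤ ((PR z (N / s)).card : ℝ) := by
      rw [div_le_iff₀ hlogt0]
      exact h3
    refine le_trans ?_ h4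
    rw [sub_div]
    have h5 : Chebyshev.theta z / Real.log t ≤ 4 * z / L := by
      rw [div_le_div_iff₀ hlogt0 hL0]
      have : 2 * (z : ℝ) * L ≤ 4 * z * Real.log t := by nlinarith
      have h6 : Chebyshev.theta z * L ≤ 2 * z * L := mul_le_mul_of_nonneg_right h2 hL0.le
      linarith
    have h6 : (N / L) * ((1 - 4 * C / L ^ 2) * (1 / (s : ℝ) * (1 + Real.log s / L))) ≤
        Chebyshev.theta t / Real.log t := by
      rw [le_div_iff₀ hlogt0]
      refine le_trans ?_ h1
      have h7 : (1 + Real.log s / L) * Real.log t ≤ L := by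
        rw [hlogt]
        have : (1 + Real.log s / L) * (L - Real.log s) = L - (Real.log s) ^ 2 / L := by
          field_simp
          ring
        rw [this]
        have : 0 ≤ (Real.log s) ^ 2 / L := by positivity
        linarith
      have h8 : (N / L) * ((1 - 4 * C / L ^ 2) * (1 / (s : ℝ) * (1 + Real.log s / L))) * Real.log t
          = (t / L * (1 - 4 * C / L ^ 2)) * ((1 + Real.log s / L) * Real.log t) := by
        rw [ht]
        ring
      rw [h8]
      calc (t / L * (1 - 4 * C / L ^ 2)) * ((1 + Real.log s / L) * Real.log t)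
          ≤ (t / L * (1 - 4 * C / L ^ 2)) * L :=
            mul_le_mul_of_nonneg_left h7 (by positivity)
        _ = t * (1 - 4 * C / L ^ 2) := by field_simp
    linarith
  have h1 := Finset.sum_le_sum key
  rw [Finset.sum_sub_distrib, Finset.sum_const, nsmul_eq_mul, ← Finset.mul_sum,
    ← Finset.mul_sum] at h1
  refine h1.trans ?_
  have h2 := count_ge w z X N hwz
  exact_mod_cast h2

/-- the logarithmic weight -/
theorem sum_log_SM_ge (w X : ℕ) (hw : 1 ≤ w) :
    (∑ p ∈ (Icc 1 w).filter Nat.Prime, Real.log p / p) * ∑ s ∈ SM w (X / w), 1 / (s : ℝ) ≤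
      ∑ s ∈ SM w X, Real.log s / s := by
  classical
  have h1 : ∀ s ∈ SM w X, ∑ p ∈ (Icc 1 w).filter (fun p => p.Prime ∧ p ∣ s), Real.log p / s ≤
      Real.log s / s := by
    intro s hs
    rw [mem_SM] at hs
    have hs0 : (0 : ℝ) < s := by exact_mod_cast hs.1
    rw [← Finset.sum_div]
    apply div_le_div_of_nonneg_right _ hs0.le
    rw [← Real.log_prod (fun p hp => by
      rw [mem_filter] at hp
      exact_mod_cast hp.2.1.ne_zero)]
    apply Real.log_le_log
    · apply Finset.prod_pos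
      intro p hp
      rw [mem_filter] at hp
      exact_mod_cast hp.2.1.pos
    · have hd : ∏ p ∈ (Icc 1 w).filter (fun p => p.Prime ∧ p ∣ s), p ∣ s := by
        apply Finset.prod_primes_dvd
        · intro p hp
          rw [mem_filter] at hp
          exact hp.2.1.prime
        · intro p hp
          rw [mem_filter] at hp
          exact hp.2.2
      have h5 := Nat.le_of_dvd hs.1 hd
      have h6 : ((∏ p ∈ (Icc 1 w).filter (fun p => p.Prime ∧ p ∣ s), p : ℕ) : ℝ) ≤ (s : ℝ) :=
        Nat.cast_le.2 h5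
      rw [Nat.cast_prod] at h6
      exact h6
  refine le_trans ?_ (Finset.sum_le_sum h1)
  have h2 : ∑ s ∈ SM w X, ∑ p ∈ (Icc 1 w).filter (fun p => p.Prime ∧ p ∣ s), Real.log p / s =
      ∑ p ∈ (Icc 1 w).filter Nat.Prime, ∑ s ∈ (SM w X).filter (fun s => p ∣ s),
        Real.log p / s := by
    have : ∀ s : ℕ, ∑ p ∈ (Icc 1 w).filter (fun p => p.Prime ∧ p ∣ s), Real.log p / (s : ℝ) =
        ∑ p ∈ (Icc 1 w).filter Nat.Prime, if p ∣ s then Real.log p / (s : ℝ) else 0 := by
      intro s
      rw [← Finset.sum_filter, Finset.filter_filter]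
    simp_rw [this]
    rw [Finset.sum_comm]
    apply Finset.sum_congr rfl
    intro p _
    rw [Finset.sum_filter]
  rw [h2, Finset.sum_mul]
  apply Finset.sum_le_sum
  intro p hp
  rw [mem_filter, mem_Icc] at hp
  have hp0 : (0 : ℝ) < p := by exact_mod_cast hp.2.pos
  have hlogp : 0 ≤ Real.log p := Real.log_nonneg (by exact_mod_cast hp.2.one_lt.le)
  -- the map s ↦ p * s
  have h3 : ∑ s ∈ SM w (X / w), Real.log p / ((p * s : ℕ) : ℝ) ≤
      ∑ s ∈ (SM w X).filter (fun s => p ∣ s), Real.log p / s := by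
    rw [← Finset.sum_image (f := fun s : ℕ => Real.log p / (s : ℝ)) (g := fun s => p * s)]
    · apply Finset.sum_le_sum_of_subset_of_nonneg
      · intro n hn
        rw [mem_image] at hn
        obtain ⟨s, hs, rfl⟩ := hn
        rw [mem_SM] at hs
        rw [mem_filter, mem_SM]
        refine ⟨⟨Nat.mul_pos hp.2.pos hs.1, ?_, ?_⟩, dvd_mul_right _ _⟩
        · calc p * s ≤ w * (X / w) := Nat.mul_le_mul hp.1.2 hs.2.1
            _ ≤ X := Nat.mul_div_le X w
        · exact Nat.mul_mem_smoothNumbers (by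
            rw [Nat.mem_smoothNumbers']
            intro q hq hqp
            have := (Nat.prime_dvd_prime_iff_eq hq hp.2).1 hqp
            omega) hs.2.2
      · intro n _ _
        positivity
    · intro a _ b _ h
      exact Nat.eq_of_mul_eq_mul_left hp.2.pos h
  refine le_trans (le_of_eq ?_) h3
  rw [Finset.mul_sum]
  apply Finset.sum_congr rfl
  intro s hs
  have hs0 : (0 : ℝ) < s := by exact_mod_cast (mem_SM.1 hs).1
  push_cast
  field_simp

end Pool.Agent.E290
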