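import Mathlib

set_option autoImplicit false

/-!
Smooth numbers: sums of reciprocals up to `X`, with small tails (Rankin's trick).
-/

namespace Pool.Agent.E290

open Finset Real

/-- The completely multiplicative function `n ↦ n ^ (-σ)`. -/
noncomputable def powH (σ : ℝ) : ℕ →* ℝ where
  toFun n := (n : ℝ) ^ (-σ)
  map_one' := by simp
  map_mul' a b := by
    push_cast
    exact Real.mul_rpow (by positivity) (by positivity)

lemma powH_apply (σ : ℝ) (n : ℕ) : powH σ n = (n : ℝ) ^ (-σ) := rfl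

lemma powH_norm {σ : ℝ} (hσ : 0 < σ) {p : ℕ} (hp : p.Prime) : ‖powH σ p‖ < 1 := by
  have hp1 : (1 : ℝ) < p := by exact_mod_cast hp.one_lt
  rw [powH_apply, Real.norm_of_nonneg (by positivity)]
  exact Real.rpow_lt_one_of_one_lt_of_neg hp1 (by linarith)

/-- `w`-smooth numbers up to `X`. -/
noncomputable def SM (w X : ℕ) : Finset ℕ := by
  classical exact (Icc 1 X).filter (fun s => s ∈ Nat.smoothNumbers (w + 1))

lemma mem_SM {w X s : ℕ} : s ∈ SM w X ↔ 1 ≤ s ∧ s ≤ X ∧ s ∈ Nat.smoothNumbers (w + 1) := by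
  classical
  unfold SM
  rw [mem_filter, mem_Icc]
  tauto

/-- The product of `1 - 1 / p` over the primes up to `w`. -/
noncomputable def V (w : ℕ) : ℝ := ∏ p ∈ (w + 1).primesBelow, (1 - 1 / (p : ℝ))

lemma V_pos (w : ℕ) : 0 < V w := by
  apply Finset.prod_pos
  intro p hp
  have hp2 : (2 : ℝ) ≤ p := by exact_mod_cast (Nat.prime_of_mem_primesBelow hp).two_le
  have : 1 / (p : ℝ) ≤ 1 / 2 := one_div_le_one_div_of_le (by norm_num) hp2
  linarith

lemma V_le_one (w : ℕ) : V w ≤ 1 := by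
  apply Finset.prod_le_one
  · intro p hp
    have hp2 : (2 : ℝ) ≤ p := by exact_mod_cast (Nat.prime_of_mem_primesBelow hp).two_le
    have : 1 / (p : ℝ) ≤ 1 / 2 := one_div_le_one_div_of_le (by norm_num) hp2
    linarith
  · intro p hp
    have : 0 ≤ 1 / (p : ℝ) := by positivity
    linarith

/-- the Euler product with exponent `δ` is at most `(2 / δ) ^ w` -/
lemma prod_small {δ : ℝ} (h0 : 0 < δ) (h1 : δ ≤ 1) (w : ℕ) :
    ∏ p ∈ (w + 1).primesBelow, (1 - (p : ℝ) ^ (-δ))⁻¹ ≤ (2 / δ) ^ w := by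
  have h2 : (2 : ℝ) ^ (-δ) ≤ 1 - δ / 2 := by
    have h := rpow_one_add_le_one_add_mul_self (s := -(1 / 2 : ℝ)) (by norm_num) h0.le h1
    have e : (1 + -(1 / 2 : ℝ)) ^ δ = (2 : ℝ) ^ (-δ) := by
      rw [show (1 + -(1 / 2 : ℝ)) = 2⁻¹ by norm_num, Real.inv_rpow (by norm_num),
        Real.rpow_neg (by norm_num)]
    rw [e] at h
    linarith
  have hcard : ((w + 1).primesBelow).card ≤ w := by
    have : (w + 1).primesBelow ⊆ Icc 1 w := by
      intro p hp
      rw [Nat.mem_primesBelow] at hp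
      rw [mem_Icc]
      exact ⟨hp.2.pos, by omega⟩
    simpa using card_le_card this
  have h2δ : 1 ≤ 2 / δ := by
    rw [le_div_iff₀ h0]
    linarith
  calc ∏ p ∈ (w + 1).primesBelow, (1 - (p : ℝ) ^ (-δ))⁻¹
      ≤ ∏ p ∈ (w + 1).primesBelow, (2 / δ) := by
        apply Finset.prod_le_prod
        · intro p hp
          have hp1 : (1 : ℝ) ≤ p := by exact_mod_cast (Nat.prime_of_mem_primesBelow hp).one_lt.le
          have : (p : ℝ) ^ (-δ) ≤ 1 := Real.rpow_le_one_of_one_le_of_nonpos hp1 (by linarith)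
          exact inv_nonneg.2 (by linarith)
        · intro p hp
          have hp2 : (2 : ℝ) ≤ p := by exact_mod_cast (Nat.prime_of_mem_primesBelow hp).two_le
          have h3 : (p : ℝ) ^ (-δ) ≤ 2 ^ (-δ) :=
            Real.rpow_le_rpow_of_nonpos (by norm_num) hp2 (by linarith)
          have h4 : δ / 2 ≤ 1 - (p : ℝ) ^ (-δ) := by linarith
          calc (1 - (p : ℝ) ^ (-δ))⁻¹ ≤ (δ / 2)⁻¹ := inv_anti₀ (by positivity) h4
            _ = 2 / δ := by rw [inv_div]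
    _ = (2 / δ) ^ ((w + 1).primesBelow).card := by rw [prod_const]
    _ ≤ (2 / δ) ^ w := pow_le_pow_right₀ h2δ hcard

/-- the whole sum of reciprocals, up to the tail -/
theorem sum_SM_ge {δ : ℝ} (h0 : 0 < δ) (h1 : δ ≤ 1) (w X : ℕ) (hX : 1 ≤ X) :
    (V w)⁻¹ - (X : ℝ) ^ (-(1 - δ)) * (2 / δ) ^ w ≤ ∑ s ∈ SM w X, 1 / (s : ℝ) := by
  classical
  obtain ⟨hsum1, hhas1⟩ :=
    EulerProduct.summable_and_hasSum_smoothNumbers_prod_primesBelow_geometric
      (fun {p} hp => powH_norm (σ := 1) one_pos hp) (w + 1)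
  obtain ⟨hsum2, hhas2⟩ :=
    EulerProduct.summable_and_hasSum_smoothNumbers_prod_primesBelow_geometric
      (fun {p} hp => powH_norm (σ := δ) h0 hp) (w + 1)
  have hX0 : (0 : ℝ) < X := by exact_mod_cast hX
  -- the finite part
  let F : Nat.smoothNumbers (w + 1) → ℝ := fun s => if (s : ℕ) ≤ X then 1 / ((s : ℕ) : ℝ) else 0
  have hF : HasSum F (∑ s ∈ SM w X, 1 / (s : ℝ)) := by
    let e : {s // s ∈ SM w X} ↪ Nat.smoothNumbers (w + 1) :=
      ⟨fun s => ⟨s.1, (mem_SM.1 s.2).2.2⟩, fun a b h => Subtype.ext (by simpa using h)⟩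
    have h := hasSum_sum_of_ne_finset_zero (L := SummationFilter.unconditional _) (f := F)
      (s := (SM w X).attach.map e) (by
      intro s hs
      simp only [F]
      rw [if_neg]
      intro hle
      apply hs
      rw [mem_map]
      have hs1 : 1 ≤ (s : ℕ) := Nat.pos_of_ne_zero (Nat.ne_zero_of_mem_smoothNumbers s.2)
      exact ⟨⟨s, mem_SM.2 ⟨hs1, hle, s.2⟩⟩, mem_attach _ _, Subtype.ext rfl⟩)
    rw [Finset.sum_map] at h
    have e2 : ∑ x ∈ (SM w X).attach, F (e x) = ∑ s ∈ SM w X, 1 / (s : ℝ) := by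
      rw [← Finset.sum_attach (SM w X) (fun s => 1 / (s : ℝ))]
      apply Finset.sum_congr rfl
      intro x _
      show (if (x : ℕ) ≤ X then 1 / ((x : ℕ) : ℝ) else 0) = _
      rw [if_pos (mem_SM.1 x.2).2.1]
    rwa [e2] at h
  have hpt : ∀ s : Nat.smoothNumbers (w + 1), powH 1 s ≤ F s + (X : ℝ) ^ (-(1 - δ)) * powH δ s := by
    intro s
    have hs1 : 1 ≤ (s : ℕ) := Nat.pos_of_ne_zero (Nat.ne_zero_of_mem_smoothNumbers s.2)
    have hs0 : (0 : ℝ) < ((s : ℕ) : ℝ) := by exact_mod_cast hs1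
    simp only [F, powH_apply]
    rw [Real.rpow_neg_one]
    by_cases h : (s : ℕ) ≤ X
    · rw [if_pos h, one_div]
      have : 0 ≤ (X : ℝ) ^ (-(1 - δ)) * ((s : ℕ) : ℝ) ^ (-δ) := by positivity
      linarith
    · rw [if_neg h, zero_add]
      have hXs : (X : ℝ) ≤ ((s : ℕ) : ℝ) := by
        have : X ≤ (s : ℕ) := by omega
        exact_mod_cast this
      calc (((s : ℕ) : ℝ))⁻¹ = ((s : ℕ) : ℝ) ^ (-(1 - δ)) * ((s : ℕ) : ℝ) ^ (-δ) := by
            rw [← Real.rpow_add hs0, show -(1 - δ) + -δ = -1 by ring, Real.rpow_neg_one]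
        _ ≤ (X : ℝ) ^ (-(1 - δ)) * ((s : ℕ) : ℝ) ^ (-δ) := by
            apply mul_le_mul_of_nonneg_right _ (by positivity)
            exact Real.rpow_le_rpow_of_nonpos hX0 hXs (by linarith)
  have hle : ∏ p ∈ (w + 1).primesBelow, (1 - powH 1 p)⁻¹ ≤
      ∑ s ∈ SM w X, 1 / (s : ℝ) +
        (X : ℝ) ^ (-(1 - δ)) * ∏ p ∈ (w + 1).primesBelow, (1 - powH δ p)⁻¹ :=
    hasSum_le hpt hhas1 (hF.add (hhas2.mul_left _))
  have e1 : ∏ p ∈ (w + 1).primesBelow, (1 - powH 1 p)⁻¹ = (V w)⁻¹ := by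
    unfold V
    rw [← Finset.prod_inv_distrib]
    apply Finset.prod_congr rfl
    intro p _
    rw [powH_apply, Real.rpow_neg_one, one_div]
  have e2 : ∏ p ∈ (w + 1).primesBelow, (1 - powH δ p)⁻¹ ≤ (2 / δ) ^ w := prod_small h0 h1 w
  rw [e1] at hle
  have h5 : (X : ℝ) ^ (-(1 - δ)) * ∏ p ∈ (w + 1).primesBelow, (1 - powH δ p)⁻¹ ≤
      (X : ℝ) ^ (-(1 - δ)) * (2 / δ) ^ w := mul_le_mul_of_nonneg_left e2 (by positivity)
  linarith

/-- the number of `w`-smooth numbers up to `X` -/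
theorem card_SM_le {δ : ℝ} (h0 : 0 < δ) (h1 : δ ≤ 1) (w X : ℕ) :
    ((SM w X).card : ℝ) ≤ (X : ℝ) ^ δ * (2 / δ) ^ w := by
  classical
  obtain ⟨hsum2, hhas2⟩ :=
    EulerProduct.summable_and_hasSum_smoothNumbers_prod_primesBelow_geometric
      (fun {p} hp => powH_norm (σ := δ) h0 hp) (w + 1)
  have hfin : ∑ n ∈ SM w X, (n : ℝ) ^ (-δ) ≤ (2 / δ) ^ w := by
    let e : {s // s ∈ SM w X} ↪ Nat.smoothNumbers (w + 1) :=
      ⟨fun s => ⟨s.1, (mem_SM.1 s.2).2.2⟩, fun a b h => Subtype.ext (by simpa using h)⟩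
    have h := sum_le_hasSum ((SM w X).attach.map e)
      (f := fun m : Nat.smoothNumbers (w + 1) => powH δ m)
      (fun m _ => by
        show (0 : ℝ) ≤ ((m : ℕ) : ℝ) ^ (-δ)
        positivity) hhas2
    rw [Finset.sum_map] at h
    rw [← Finset.sum_attach]
    exact h.trans (prod_small h0 h1 w)
  have hcard : ((SM w X).card : ℝ) ≤ (X : ℝ) ^ δ * ∑ n ∈ SM w X, (n : ℝ) ^ (-δ) := by
    rw [Finset.mul_sum, Finset.card_eq_sum_ones]
    push_cast
    apply Finset.sum_le_sum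
    intro n hn
    have hn1 := (mem_SM.1 hn).1
    have hnpos : (0 : ℝ) < n := by exact_mod_cast hn1
    rw [Real.rpow_neg hnpos.le, ← div_eq_mul_inv, one_le_div (Real.rpow_pos_of_pos hnpos _)]
    exact Real.rpow_le_rpow hnpos.le (by exact_mod_cast (mem_SM.1 hn).2.1) (by linarith)
  exact hcard.trans (mul_le_mul_of_nonneg_left hfin (by positivity))

end Pool.Agent.E290
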